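import Pool.Agent.J6H64.KU.Bump

set_option autoImplicit false
set_option maxHeartbeats 4000000

open MeasureTheory Set Filter Topology
open scoped ContDiff ENNReal NNReal

namespace Pool.Agent.J6H64.KU

open Pool.Agent.H934R3.NP (P2 Gr)
open Pool.Agent.H784R3.NPA1 (J cont_J one_le_J)

/-! ### Spherical graphs -/

noncomputable def capf (A B c : ℝ) (χ : ContDiffBump (0 : P2)) (u : P2) : ℝ :=
  A + B * √(2 - c * (‖u‖ ^ 2 * χ u))

theorem cap_pos {c : ℝ} {χ : ContDiffBump (0 : P2)} (hc : 0 < c) (hR : c * χ.rOut ^ 2 < 2)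
    (u : P2) : 0 < 2 - c * (‖u‖ ^ 2 * χ u) := by
  have h : ‖u‖ ^ 2 * χ u ≤ χ.rOut ^ 2 := by
    rcases le_or_gt χ.rOut ‖u‖ with h | h
    · rw [χ.zero_of_le_dist (by simpa using h), mul_zero]
      positivity
    · have h1 : ‖u‖ ^ 2 ≤ χ.rOut ^ 2 := pow_le_pow_left₀ (norm_nonneg _) h.le 2
      calc ‖u‖ ^ 2 * χ u ≤ ‖u‖ ^ 2 * 1 := mul_le_mul_of_nonneg_left χ.le_one (by positivity)
        _ ≤ _ := by linarith
  nlinarith

theorem capf_contDiff {A B c : ℝ} {χ : ContDiffBump (0 : P2)} (hc : 0 < c)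
    (hR : c * χ.rOut ^ 2 < 2) : ContDiff ℝ 1 (capf A B c χ) := by
  unfold capf
  refine contDiff_const.add (contDiff_const.mul ?_)
  refine ContDiff.sqrt ?_ (fun u => (cap_pos hc hR u).ne')
  refine contDiff_const.sub (contDiff_const.mul ?_)
  exact (contDiff_id.norm_sq ℝ).mul χ.contDiff

theorem capf_eq {A B c : ℝ} {χ : ContDiffBump (0 : P2)} {u : P2} (hu : ‖u‖ ≤ χ.rIn) :
    capf A B c χ u = A + B * √(2 - c * ‖u‖ ^ 2) := by
  unfold capf
  rw [χ.one_of_mem_closedBall (by simpa using hu), mul_one]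

theorem capf_J {A B c : ℝ} {χ : ContDiffBump (0 : P2)} (hc : 0 < c) (hR : c * χ.rOut ^ 2 < 2)
    (hB : B ^ 2 * c = 1) {u : P2} (hu : ‖u‖ < χ.rIn) :
    J (capf A B c χ) u = √(2 / (2 - c * ‖u‖ ^ 2)) := by
  have hs : 0 < 2 - c * ‖u‖ ^ 2 := by
    have := cap_pos hc hR u
    rwa [χ.one_of_mem_closedBall (by simpa using hu.le), mul_one] at this
  have h1 : HasFDerivAt (fun v : P2 => ‖v‖ ^ 2) (2 • (innerSL ℝ u)) u := by
    have := (hasFDerivAt_id (𝕜 := ℝ) u).norm_sq
    refine this.congr_fderiv ?_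
    ext z; simp
  have h2 : HasFDerivAt (fun v : P2 => A + B * √(2 - c * ‖v‖ ^ 2))
      (B • ((1 / (2 * √(2 - c * ‖u‖ ^ 2))) • (-(c • (2 • innerSL ℝ u)))) : P2 →L[ℝ] ℝ) u :=
    ((((h1.const_mul c).const_sub 2).sqrt hs.ne').const_mul B).const_add A
  have h3 : HasFDerivAt (capf A B c χ)
      (B • ((1 / (2 * √(2 - c * ‖u‖ ^ 2))) • (-(c • (2 • innerSL ℝ u)))) : P2 →L[ℝ] ℝ) u := by
    refine h2.congr_of_eventuallyEq ?_
    have : ∀ᶠ v : P2 in 𝓝 u, ‖v‖ < χ.rIn :=
      (continuous_norm.tendsto u).eventually (gt_mem_nhds hu)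
    filter_upwards [this] with v hv
    exact capf_eq hv.le
  have hn : ‖gradient (capf A B c χ) u‖ = |B| * (c * ‖u‖ / √(2 - c * ‖u‖ ^ 2)) := by
    unfold gradient
    rw [LinearIsometryEquiv.norm_map, h3.fderiv, norm_smul, norm_smul, norm_neg, norm_smul]
    have e : ‖(2 • innerSL ℝ u : P2 →L[ℝ] ℝ)‖ = 2 * ‖u‖ := by
      rw [← Nat.cast_smul_eq_nsmul ℝ, norm_smul, innerSL_apply_norm]
      simp
    rw [e]
    have hq : 0 < √(2 - c * ‖u‖ ^ 2) := Real.sqrt_pos.2 hs
    rw [Real.norm_eq_abs, Real.norm_of_nonneg (by positivity), Real.norm_of_nonneg hc.le]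
    field_simp
  unfold J
  rw [hn]
  congr 1
  rw [mul_pow, sq_abs, div_pow, Real.sq_sqrt hs.le, mul_pow]
  field_simp
  linear_combination c * ‖u‖ ^ 2 * hB

/-! ### Areas in the plane -/

theorem mp2 : MeasurePreserving (fun u : P2 => (u 0, u 1)) volume (volume : Measure (ℝ × ℝ)) :=
  (volume_preserving_finTwoArrow ℝ).comp (PiLp.volume_preserving_ofLp (Fin 2))

theorem vol2 {D : Set (ℝ × ℝ)} (hD : MeasurableSet D) :
    volume {u : P2 | (u 0, u 1) ∈ D} = volume D :=
  mp2.measure_preimage hD.nullMeasurableSet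

theorem vol_rect {a b : ℝ} (ha : 0 ≤ a) (hb : 0 ≤ b) :
    (volume : Measure P2).real {u : P2 | |u 0| ≤ a ∧ |u 1| ≤ b} = 4 * a * b := by
  have h1 : {u : P2 | |u 0| ≤ a ∧ |u 1| ≤ b} =
      {u : P2 | (u 0, u 1) ∈ Icc (-a) a ×ˢ Icc (-b) b} := by
    ext u
    simp [abs_le]
    tauto
  rw [h1, Measure.real, vol2 (measurableSet_Icc.prod measurableSet_Icc), Measure.volume_eq_prod,
    Measure.prod_prod, Real.volume_Icc, Real.volume_Icc, ENNReal.toReal_mul,
    ENNReal.toReal_ofReal (by linarith), ENNReal.toReal_ofReal (by linarith)]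
  ring

theorem int_aff (p q a b : ℝ) :
    ∫ x in a..b, (p + q * x) = p * (b - a) + q * ((b ^ 2 - a ^ 2) / 2) := by
  have h : Continuous fun x : ℝ => q * x := by fun_prop
  rw [intervalIntegral.integral_add (f := fun _ => p) (g := fun x => q * x)
    intervalIntegrable_const (h.intervalIntegrable _ _)]
  have h2 : ∫ x in a..b, q * x = q * ∫ x in a..b, x := intervalIntegral.integral_const_mul q _
  rw [h2, integral_id, intervalIntegral.integral_const, smul_eq_mul]
  ring

/-- the hexagon -/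
def Hx : Set P2 := {u | |u 0| ≤ 1 / √2 ∧ |u 1| ≤ (2 - √2 * |u 0|) / √6}

theorem isClosed_Hx : IsClosed Hx := by
  unfold Hx
  refine IsClosed.and ?_ ?_
  · exact isClosed_le (by fun_prop) (by fun_prop)
  · exact isClosed_le (by fun_prop) (by fun_prop)

theorem vol_Hx : (volume : Measure P2).real Hx = √3 := by
  set D : Set (ℝ × ℝ) := {p | |p.1| ≤ 1 / √2 ∧ |p.2| ≤ (2 - √2 * |p.1|) / √6} with hD
  have hDm : MeasurableSet D := by
    refine IsClosed.measurableSet ?_
    rw [hD]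
    refine IsClosed.and ?_ ?_
    · exact isClosed_le (by fun_prop) (by fun_prop)
    · exact isClosed_le (by fun_prop) (by fun_prop)
  have h1 : volume Hx = volume D := vol2 hDm
  have h2 : volume D = ∫⁻ x in Icc (-(1 / √2)) (1 / √2),
      ENNReal.ofReal (2 * ((2 - √2 * |x|) / √6)) := by
    rw [Measure.volume_eq_prod, Measure.prod_apply hDm,
      ← lintegral_indicator measurableSet_Icc]
    refine lintegral_congr fun x => ?_
    by_cases hx : x ∈ Icc (-(1 / √2)) (1 / √2)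
    · rw [indicator_of_mem hx]
      have : Prod.mk x ⁻¹' D = Icc (-((2 - √2 * |x|) / √6)) ((2 - √2 * |x|) / √6) := by
        ext y
        have hx' : |x| ≤ 1 / √2 := abs_le.2 hx
        exact ⟨fun h => abs_le.1 h.2, fun h => ⟨hx', abs_le.2 h⟩⟩
      rw [this, Real.volume_Icc]
      congr 1; ring
    · rw [indicator_of_notMem hx]
      have : Prod.mk x ⁻¹' D = ∅ := by
        ext y
        exact ⟨fun h => absurd (abs_le.1 h.1) hx, fun h => absurd h (notMem_empty _)⟩
      rw [this, measure_empty]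
  have p2 := p2
  have p6 := p6
  have hpos : ∀ x ∈ Icc (-(1 / √2)) (1 / √2), 0 ≤ 2 * ((2 - √2 * |x|) / √6) := by
    intro x hx
    have hx' : |x| ≤ 1 / √2 := abs_le.2 hx
    have h3 : √2 * |x| ≤ √2 * (1 / √2) := mul_le_mul_of_nonneg_left hx' p2.le
    have h4 : √2 * (1 / √2) = 1 := by field_simp
    have : 0 ≤ 2 - √2 * |x| := by linarith
    positivity
  have hcont : Continuous fun x : ℝ => 2 * ((2 - √2 * |x|) / √6) := by fun_prop
  have h3 : ∫⁻ x in Icc (-(1 / √2)) (1 / √2), ENNReal.ofReal (2 * ((2 - √2 * |x|) / √6)) =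
      ENNReal.ofReal (∫ x in Icc (-(1 / √2)) (1 / √2), 2 * ((2 - √2 * |x|) / √6)) := by
    rw [ofReal_integral_eq_lintegral_ofReal]
    · exact hcont.continuousOn.integrableOn_compact isCompact_Icc
    · rw [EventuallyLE, ae_restrict_iff' measurableSet_Icc]
      exact Eventually.of_forall hpos
  have hle : -(1 / √2) ≤ 1 / √2 := by
    have : 0 < 1 / √2 := by positivity
    linarith
  have hle0 : 0 ≤ 1 / √2 := by positivity
  have h4 : ∫ x in Icc (-(1 / √2)) (1 / √2), 2 * ((2 - √2 * |x|) / √6) = √3 := by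
    rw [integral_Icc_eq_integral_Ioc, ← intervalIntegral.integral_of_le hle]
    rw [← intervalIntegral.integral_add_adjacent_intervals (b := 0)
      (hcont.intervalIntegrable _ _) (hcont.intervalIntegrable _ _)]
    have e1 : ∫ x in (-(1 / √2))..0, 2 * ((2 - √2 * |x|) / √6) =
        ∫ x in (-(1 / √2))..0, (4 / √6 + 2 * √2 / √6 * x) := by
      refine intervalIntegral.integral_congr fun x hx => ?_
      rw [uIcc_of_le (by linarith)] at hx
      rw [abs_of_nonpos hx.2]; ring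
    have e2 : ∫ x in (0 : ℝ)..(1 / √2), 2 * ((2 - √2 * |x|) / √6) =
        ∫ x in (0 : ℝ)..(1 / √2), (4 / √6 + -(2 * √2 / √6) * x) := by
      refine intervalIntegral.integral_congr fun x hx => ?_
      rw [uIcc_of_le hle0] at hx
      rw [abs_of_nonneg hx.1]; ring
    rw [e1, e2, int_aff, int_aff]
    have r2 := r2
    have r6 : √6 = √2 * √3 := by rw [← Real.sqrt_mul (by norm_num)]; norm_num
    have r3 := r3
    have p3 := p3
    rw [r6]
    field_simp
    ring_nf
    simp only [r2, r3]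
    ring
  rw [Measure.real, h1, h2, h3, h4, ENNReal.toReal_ofReal (Real.sqrt_nonneg _)]

/-! ### One dimensional measures -/

theorem muHE_lip_le {A : Set E3} {f : E3 → ℝ} (hf : LipschitzWith 1 f) :
    (μHE[1] : Measure ℝ) (f '' A) ≤ (μHE[1] : Measure E3) A := by
  rw [Measure.euclideanHausdorffMeasure_def, Measure.euclideanHausdorffMeasure_def,
    Measure.smul_apply, Measure.smul_apply]
  have h := hf.hausdorffMeasure_image_le (d := ((1 : ℕ) : ℝ)) (by norm_num) A
  simp only [ENNReal.coe_one, ENNReal.one_rpow, one_mul] at h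
  exact smul_le_smul_of_nonneg_left h (by positivity)

theorem muHE_real : (μHE[1] : Measure ℝ) = volume := by
  have h := InnerProductSpace.euclideanHausdorffMeasure_eq_volume (V := ℝ)
  rwa [Module.finrank_self] at h

theorem muHE_finite {K : ℝ≥0} {g : ℝ → E3} {a b : ℝ} (hg : LipschitzOnWith K g (Icc a b)) :
    (μHE[1] : Measure E3) (g '' Icc a b) < ⊤ := by
  have h := hg.hausdorffMeasure_image_le (d := ((1 : ℕ) : ℝ)) (by norm_num)
  have h2 : (μHE[1] : Measure E3) (g '' Icc a b) ≤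
      ((K : ℝ≥0∞) ^ ((1 : ℕ) : ℝ)) * (μHE[1] : Measure ℝ) (Icc a b) := by
    rw [Measure.euclideanHausdorffMeasure_def, Measure.euclideanHausdorffMeasure_def,
      Measure.smul_apply, Measure.smul_apply, mul_smul_comm]
    exact smul_le_smul_of_nonneg_left h (by positivity)
  refine lt_of_le_of_lt h2 ?_
  rw [muHE_real, Real.volume_Icc]
  refine ENNReal.mul_lt_top ?_ ENNReal.ofReal_lt_top
  simp

end Pool.Agent.J6H64.KU
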