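import Pool.Agent.J6H64.KU.Meas

set_option autoImplicit false
set_option maxHeartbeats 4000000

open MeasureTheory Set Filter Topology Polynomial
open scoped ContDiff

namespace Pool.Agent.J6H64.KU

open Pool.Agent.H934R3.NP (P2)

/-! ### The bump function -/

noncomputable def E0 (x : ℝ) : ℝ := expNegInvGlue x
noncomputable def E1 (x : ℝ) : ℝ := (x⁻¹) ^ 2 * expNegInvGlue x
noncomputable def E2 (x : ℝ) : ℝ := ((x⁻¹) ^ 4 - 2 * (x⁻¹) ^ 3) * expNegInvGlue x
/-- the polynomial of the antiderivative -/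
noncomputable def Qp (t : ℝ) : ℝ :=
  1 / 2 * t ^ 6 - 3 / 2 * t ^ 5 + 9 / 4 * t ^ 4 + 1 / 2 * t ^ 3 + 3 / 4 * t ^ 2 + 3 / 4 * t + 3 / 8
noncomputable def Wf (x : ℝ) : ℝ := (Qp x⁻¹ * expNegInvGlue x) * expNegInvGlue x

theorem hasDerivAt_E0 (x : ℝ) : HasDerivAt E0 (E1 x) x := by
  have h := expNegInvGlue.hasDerivAt_polynomial_eval_inv_mul (1 : ℝ[X]) x
  have e1 : (fun x : ℝ => (1 : ℝ[X]).eval x⁻¹ * expNegInvGlue x) = E0 := by
    funext y; simp [E0]
  have e2 : (X ^ 2 * ((1 : ℝ[X]) - derivative (1 : ℝ[X]))).eval x⁻¹ * expNegInvGlue x = E1 x := by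
    simp [E1]
  rwa [e1, e2] at h

theorem hasDerivAt_E1 (x : ℝ) : HasDerivAt E1 (E2 x) x := by
  have h := expNegInvGlue.hasDerivAt_polynomial_eval_inv_mul (X ^ 2 : ℝ[X]) x
  have e1 : (fun x : ℝ => (X ^ 2 : ℝ[X]).eval x⁻¹ * expNegInvGlue x) = E1 := by
    funext y; simp [E1]
  have e2 : (X ^ 2 * ((X ^ 2 : ℝ[X]) - derivative (X ^ 2 : ℝ[X]))).eval x⁻¹ * expNegInvGlue x =
      E2 x := by
    simp [E2]
    left; ring
  rwa [e1, e2] at h

theorem contDiff_E1 : ContDiff ℝ ∞ E1 := by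
  have h := expNegInvGlue.contDiff_polynomial_eval_inv_mul (n := ⊤) (X ^ 2 : ℝ[X])
  have e1 : (fun x : ℝ => (X ^ 2 : ℝ[X]).eval x⁻¹ * expNegInvGlue x) = E1 := by
    funext y; simp [E1]
  rwa [e1] at h

theorem continuous_E2 : Continuous E2 := by
  have h := expNegInvGlue.continuous_polynomial_eval_inv_mul (X ^ 4 - 2 * X ^ 3 : ℝ[X])
  have e1 : (fun x : ℝ => (X ^ 4 - 2 * X ^ 3 : ℝ[X]).eval x⁻¹ * expNegInvGlue x) = E2 := by
    funext y; simp [E2]
  rwa [e1] at h

theorem E1_nonneg (x : ℝ) : 0 ≤ E1 x := mul_nonneg (sq_nonneg _) (expNegInvGlue.nonneg x)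

theorem E0_np {x : ℝ} (h : x ≤ 0) : E0 x = 0 := expNegInvGlue.zero_of_nonpos h
theorem E1_np {x : ℝ} (h : x ≤ 0) : E1 x = 0 := by
  unfold E1; rw [expNegInvGlue.zero_of_nonpos h, mul_zero]
theorem E2_np {x : ℝ} (h : x ≤ 0) : E2 x = 0 := by
  unfold E2; rw [expNegInvGlue.zero_of_nonpos h, mul_zero]

theorem hasDerivAt_Wf (x : ℝ) : HasDerivAt Wf ((1 - 2 * x) * E2 x ^ 2) x := by
  set q : ℝ[X] := C (1 / 2) * X ^ 6 - C (3 / 2) * X ^ 5 + C (9 / 4) * X ^ 4 + C (1 / 2) * X ^ 3 +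
    C (3 / 4) * X ^ 2 + C (3 / 4) * X + C (3 / 8) with hq
  have hqe : ∀ t, q.eval t = Qp t := by
    intro t; simp [hq, Qp]
  have h1 := expNegInvGlue.hasDerivAt_polynomial_eval_inv_mul q x
  have h2 : HasDerivAt expNegInvGlue (E1 x) x := hasDerivAt_E0 x
  have h3 := h1.mul h2
  have e1 : (fun x : ℝ => q.eval x⁻¹ * expNegInvGlue x) * expNegInvGlue = Wf := by
    funext y; simp [Wf, hqe]
  rw [e1] at h3
  refine h3.congr_deriv ?_
  by_cases hx : x = 0
  · subst hx
    simp [E2, expNegInvGlue.zero]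
  · have hd : (X ^ 2 * (q - derivative q)).eval x⁻¹ = (x⁻¹) ^ 2 * (Qp x⁻¹ -
      (3 * (x⁻¹) ^ 5 - 15 / 2 * (x⁻¹) ^ 4 + 9 * (x⁻¹) ^ 3 + 3 / 2 * (x⁻¹) ^ 2 +
        3 / 2 * x⁻¹ + 3 / 4)) := by
      rw [eval_mul, eval_sub, hqe]
      simp only [hq, derivative_add, derivative_sub, derivative_mul, derivative_C,
        derivative_X_pow, derivative_X]
      simp
      left; ring
    rw [hd, hqe]
    unfold E1 E2 Qp
    field_simp
    ring

/-- `x` as a function of the square of the radius -/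
noncomputable def xv (s : ℝ) : ℝ := (1 - 5 / 29 * s) / 2

noncomputable def gg (s : ℝ) : ℝ := E1 (xv s)
noncomputable def dg (s : ℝ) : ℝ := -(5 / 58) * E2 (xv s)

theorem contDiff_gg : ContDiff ℝ ∞ gg := by
  unfold gg
  have h : ContDiff ℝ ∞ xv := by unfold xv; fun_prop
  exact contDiff_E1.comp h

theorem hasDerivAt_gg (s : ℝ) : HasDerivAt gg (dg s) s := by
  have h1 : HasDerivAt xv (-(5 / 58)) s := by
    unfold xv
    have h := (((hasDerivAt_id s).const_mul (5 / 29)).const_sub 1).div_const 2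
    refine h.congr_deriv (by norm_num)
  have h2 := (hasDerivAt_E1 (xv s)).comp s h1
  refine h2.congr_deriv ?_
  unfold dg; ring

theorem continuous_dg : Continuous dg := by
  unfold dg
  have : Continuous xv := by unfold xv; fun_prop
  exact continuous_const.mul (continuous_E2.comp this)

theorem gg_nonneg (s : ℝ) : 0 ≤ gg s := E1_nonneg _

theorem gg_zero {s : ℝ} (h : 29 / 5 ≤ s) : gg s = 0 := E1_np (by unfold xv; linarith)
theorem dg_zero {s : ℝ} (h : 29 / 5 ≤ s) : dg s = 0 := by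
  unfold dg; rw [E2_np (by unfold xv; linarith), mul_zero]

theorem tendsto_xv : ∀ᶠ y : ℝ in atTop, xv (y ^ 2) ≤ 0 := by
  filter_upwards [eventually_ge_atTop (3 : ℝ)] with y hy
  unfold xv
  nlinarith

theorem xv_deriv (y : ℝ) : HasDerivAt (fun y : ℝ => xv (y ^ 2)) (-(5 / 29) * y) y := by
  unfold xv
  have h := ((((hasDerivAt_id y).pow 2).const_mul (5 / 29)).const_sub 1).div_const 2
  refine h.congr_deriv ?_
  simp; ring

theorem rad1 : ∫ y in Ioi (0 : ℝ), y * gg (y ^ 2) = 29 / 5 * Real.exp (-2) := by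
  have h := integral_Ioi_of_hasDerivAt_of_nonneg (a := (0 : ℝ)) (l := 0)
    (g := fun y => -(29 / 5) * E0 (xv (y ^ 2))) (g' := fun y => y * gg (y ^ 2)) ?_ ?_ ?_ ?_
  · rw [h]
    have : E0 (xv (0 ^ 2)) = Real.exp (-2) := by
      unfold E0 xv expNegInvGlue
      norm_num
    rw [this]; ring
  · refine Continuous.continuousWithinAt ?_
    have h1 : Continuous xv := by unfold xv; fun_prop
    have h2 : Continuous E0 := by
      rw [continuous_iff_continuousAt]
      exact fun x => (hasDerivAt_E0 x).continuousAt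
    exact continuous_const.mul (h2.comp (h1.comp (continuous_id.pow 2)))
  · intro y _
    have h1 := ((hasDerivAt_E0 (xv (y ^ 2))).comp y (xv_deriv y)).const_mul (-(29 / 5))
    refine h1.congr_deriv ?_
    unfold gg; ring
  · intro y hy
    exact mul_nonneg (le_of_lt hy) (gg_nonneg _)
  · refine Tendsto.congr' (f₁ := fun _ => (0 : ℝ)) ?_ tendsto_const_nhds
    filter_upwards [tendsto_xv] with y hy
    rw [E0_np hy, mul_zero]

theorem rad2 : ∫ y in Ioi (0 : ℝ), y * (y ^ 2 * dg (y ^ 2) ^ 2) = 231 / 32 * Real.exp (-4) := by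
  have h := integral_Ioi_of_hasDerivAt_of_nonneg (a := (0 : ℝ)) (l := 0)
    (g := fun y => -(1 / 4) * Wf (xv (y ^ 2))) (g' := fun y => y * (y ^ 2 * dg (y ^ 2) ^ 2)) ?_ ?_ ?_ ?_
  · rw [h]
    have : Wf (xv (0 ^ 2)) = 231 / 8 * Real.exp (-4) := by
      unfold Wf xv Qp expNegInvGlue
      have e : Real.exp (-4) = Real.exp (-2) * Real.exp (-2) := by
        rw [← Real.exp_add]; norm_num
      rw [e]
      norm_num
      ring
    rw [this]; ring
  · refine Continuous.continuousWithinAt ?_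
    have h1 : Continuous xv := by unfold xv; fun_prop
    have h2 : Continuous Wf := by
      rw [continuous_iff_continuousAt]
      exact fun x => (hasDerivAt_Wf x).continuousAt
    exact continuous_const.mul (h2.comp (h1.comp (continuous_id.pow 2)))
  · intro y _
    have h1 := ((hasDerivAt_Wf (xv (y ^ 2))).comp y (xv_deriv y)).const_mul (-(1 / 4))
    refine h1.congr_deriv ?_
    have e : 1 - 2 * xv (y ^ 2) = 5 / 29 * y ^ 2 := by unfold xv; ring
    rw [e]
    unfold dg; ring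
  · intro y hy
    have : (0 : ℝ) < y := hy
    positivity
  · refine Tendsto.congr' (f₁ := fun _ => (0 : ℝ)) ?_ tendsto_const_nhds
    filter_upwards [tendsto_xv] with y hy
    unfold Wf
    rw [expNegInvGlue.zero_of_nonpos hy]
    ring

theorem int_gg : ∫ u : P2, gg (‖u‖ ^ 2) = 2 * Real.pi * (29 / 5 * Real.exp (-2)) := by
  rw [int_radial (fun y => gg (y ^ 2)), rad1]

theorem int_dg : ∫ u : P2, ‖u‖ ^ 2 * dg (‖u‖ ^ 2) ^ 2 =
    2 * Real.pi * (231 / 32 * Real.exp (-4)) := by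
  rw [int_radial (fun y => y ^ 2 * dg (y ^ 2) ^ 2), rad2]

/-- `gg ≤ gg 0` -/
theorem gg_le (s : ℝ) (hs : 0 ≤ s) : gg s ≤ 4 * Real.exp (-2) := by
  unfold gg
  have hx : xv s ≤ 1 / 2 := by unfold xv; linarith
  generalize xv s = x at hx
  rcases le_or_gt x 0 with h | h
  · rw [E1_np h]; positivity
  · unfold E1 expNegInvGlue
    rw [if_neg (not_le.2 h)]
    set t := x⁻¹ with ht
    have ht2 : 2 ≤ t := by
      rw [ht, le_inv_comm₀ (by norm_num) h]
      linarith
    -- t^2 e^{-t} ≤ 4 e^{-2}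
    have h1 : t / 2 ≤ Real.exp (t / 2 - 1) := by
      have := Real.add_one_le_exp (t / 2 - 1)
      linarith
    have h2 : (t / 2) ^ 2 ≤ Real.exp (t / 2 - 1) ^ 2 := pow_le_pow_left₀ (by positivity) h1 2
    rw [← Real.exp_nat_mul] at h2
    have h3 : Real.exp (((2 : ℕ) : ℝ) * (t / 2 - 1)) = Real.exp (-2) * Real.exp t := by
      rw [← Real.exp_add]; congr 1; push_cast; ring
    rw [h3] at h2
    have h4 : Real.exp t * Real.exp (-t) = 1 := by rw [← Real.exp_add]; simp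
    have h5 : 0 < Real.exp (-t) := Real.exp_pos _
    calc t ^ 2 * Real.exp (-t) = 4 * ((t / 2) ^ 2 * Real.exp (-t)) := by ring
      _ ≤ 4 * ((Real.exp (-2) * Real.exp t) * Real.exp (-t)) := by
        have := mul_le_mul_of_nonneg_right h2 h5.le
        linarith
      _ = 4 * Real.exp (-2) := by rw [mul_assoc, h4, mul_one]

end Pool.Agent.J6H64.KU
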