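import Pool.Agent.J6H64.KU.Geo

set_option autoImplicit false
set_option maxHeartbeats 4000000

open Set Filter Topology

namespace Pool.Agent.J6H64.KU

/-! ### Local structure -/

theorem local_nhds (Y : E3) : ∃ U ∈ 𝓝 Y, (∀ y ∈ U, ∀ j, y ∈ MS j → Y ∈ MS j) ∧
    (∀ y ∈ U, ∀ i, Y ∈ MS i → Sg i y) := by
  have h1 : ∀ᶠ y in 𝓝 Y, ∀ j, y ∈ MS j → Y ∈ MS j := by
    rw [eventually_all]
    intro j
    by_cases h : Y ∈ MS j
    · exact Eventually.of_forall fun _ _ => h
    · filter_upwards [(isClosed_ms j).isOpen_compl.mem_nhds h] with y hy hy'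
      exact absurd hy' hy
  have h2 : ∀ᶠ y in 𝓝 Y, ∀ i, Y ∈ MS i → Sg i y := by
    rw [eventually_all]
    intro i
    by_cases h : i.s = 0
    · exact Eventually.of_forall fun _ _ => Or.inl h
    · by_cases hY : Y ∈ MS i
      · have hs := hY.2.resolve_left h
        have hc : ContinuousAt (fun y : E3 => zz y) Y := continuous_zz.continuousAt
        rcases lt_trichotomy (zz Y) 0 with hz | hz | hz
        · filter_upwards [hc.eventually (gt_mem_nhds hz)] with y hy _
          right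
          rw [← hs, sign_neg hz, sign_neg hy]
        · rw [hz, sign_zero] at hs
          exact absurd hs.symm h
        · filter_upwards [hc.eventually (lt_mem_nhds hz)] with y hy _
          right
          rw [← hs, sign_pos hz, sign_pos hy]
      · exact Eventually.of_forall fun _ h' => absurd h' hY
  exact ⟨_, h1.and h2, fun y hy => hy.1, fun y hy => hy.2⟩

theorem cell_iff_local {Y : E3} {U : Set E3} (hU1 : ∀ y ∈ U, ∀ j, y ∈ MS j → Y ∈ MS j)
    (hU2 : ∀ y ∈ U, ∀ i, Y ∈ MS i → Sg i y) {y : E3} (hy : y ∈ U) {i : Idx} (hi : Y ∈ MS i) :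
    y ∈ Cell i ↔ ∀ j, Y ∈ MS j → j ≠ i → Vf i y < Vf j y := by
  constructor
  · intro h j hj hji
    rw [← val_pt i y (hU2 y hy i hi), ← val_pt j y (hU2 y hy j hj)]
    exact h.1 _ (ms_q_ne hj hi hji)
  · intro h
    have key : ∀ j, y ∈ MS j → j = i := by
      intro j hj
      by_contra hne
      have h1 := h j (hU1 y hy j hj) hne
      rw [← val_pt i y (hU2 y hy i hi), ← val_pt j y hj.2] at h1
      exact absurd (hj.1 i.q) (not_le.2 h1)
    obtain ⟨j, hj⟩ := exists_ms y
    rw [key j hj] at hj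
    rcases ms_cell_or hj with h' | ⟨l, hl, hl'⟩
    · exact h'
    · exact absurd (key l hl') hl

theorem dir_lemma {Y d : E3} {i : Idx} (hi : Y ∈ MS i)
    (hd : ∀ l, Y ∈ MS l → l ≠ i → 0 < inner ℝ (G l Y - G i Y) d) :
    ∀ᶠ t in 𝓝[>] (0 : ℝ), Y + t • d ∈ Cell i := by
  obtain ⟨U, hU, hU1, hU2⟩ := local_nhds Y
  have hc : Tendsto (fun t : ℝ => Y + t • d) (𝓝[>] 0) (𝓝 Y) := by
    have : Continuous (fun t : ℝ => Y + t • d) := by fun_prop
    have h := this.tendsto 0
    simp only [zero_smul, add_zero] at h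
    exact h.mono_left nhdsWithin_le_nhds
  have h1 := hc.eventually hU
  have h2 : ∀ᶠ t in 𝓝[>] (0 : ℝ), ∀ l, Y ∈ MS l → l ≠ i → Vf i (Y + t • d) < Vf l (Y + t • d) := by
    rw [eventually_all]
    intro l
    by_cases hl : Y ∈ MS l ∧ l ≠ i
    · have hg := hd l hl.1 hl.2
      have hc2 : Tendsto (fun t : ℝ => inner ℝ (G l Y - G i Y) d + t * ((aa l - aa i) * ‖d‖ ^ 2))
          (𝓝[>] 0) (𝓝 (inner ℝ (G l Y - G i Y) d)) := by
        have : Continuous (fun t : ℝ =>
          inner ℝ (G l Y - G i Y) d + t * ((aa l - aa i) * ‖d‖ ^ 2)) := by fun_prop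
        have h := this.tendsto 0
        simp only [zero_mul, add_zero] at h
        exact h.mono_left nhdsWithin_le_nhds
      filter_upwards [hc2.eventually (lt_mem_nhds hg), self_mem_nhdsWithin] with t ht ht0 _ _
      rw [Vf_add, Vf_add, Vf_eq hi hl.1]
      rw [inner_sub_left] at ht
      rw [inner_smul_right, inner_smul_right, norm_smul, mul_pow, Real.norm_eq_abs, sq_abs]
      have ht0' : (0 : ℝ) < t := ht0
      have := mul_pos ht0' ht
      nlinarith
    · exact Eventually.of_forall fun t h1 h2 => absurd ⟨h1, h2⟩ hl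
  filter_upwards [h1, h2] with t ht1 ht2
  exact (cell_iff_local hU1 hU2 ht1 hi).2 ht2

theorem dir_G {Y : E3} {i j : Idx} (hi : Y ∈ MS i) (hj : Y ∈ MS j) (hne : i ≠ j) {r : ℝ}
    (hr : 0 < r) : ∀ᶠ t in 𝓝[>] (0 : ℝ), Y + t • (r • (G j Y - G i Y)) ∈ Cell i := by
  refine dir_lemma hi fun l hl hli => ?_
  rw [inner_smul_right]
  refine mul_pos hr ?_
  by_cases h : l = j
  · subst h
    rw [real_inner_self_eq_norm_sq, G_dist hl hi hli]
    norm_num
  · rw [G_inner hi hl hj (Ne.symm hli) hne h]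
    norm_num

theorem closure_cell (i : Idx) : closure (Cell i) = MS i := by
  refine subset_antisymm (closure_minimal (cell_sub i) (isClosed_ms i)) ?_
  intro Y hY
  rcases ms_cell_or hY with h | ⟨j, hj, hj'⟩
  · exact subset_closure h
  · have h1 := dir_G hY hj' (Ne.symm hj) one_pos
    have hc : Tendsto (fun t : ℝ => Y + t • ((1 : ℝ) • (G j Y - G i Y))) (𝓝[>] 0) (𝓝 Y) := by
      have : Continuous (fun t : ℝ => Y + t • ((1 : ℝ) • (G j Y - G i Y))) := by fun_prop
      have h := this.tendsto 0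
      simp only [zero_smul, add_zero] at h
      exact h.mono_left nhdsWithin_le_nhds
    exact mem_closure_of_tendsto hc h1

theorem frontier_cell (i : Idx) : frontier (Cell i) = MS i \ Cell i := by
  rw [(isOpen_cell i).frontier_eq, closure_cell]

/-! ### The cluster -/

/-- the index of the exterior -/
def i0 : Idx := ⟨(mk 1 (-1) (-1) (-1) (by decide), 0), by decide⟩

/-- the indices of the bounded cells -/
abbrev Bd : Type := {i : Idx // i ≠ i0}

noncomputable instance : Fintype Bd := Fintype.ofFinite _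

/-- the cluster -/
def Om (i : Bd) : Set E3 := Cell i.1

/-- the index of a cell -/
def ix : Option Bd → Idx
  | none => i0
  | some i => i.1

theorem ix_inj : Function.Injective ix := by
  intro a b h
  cases a <;> cases b
  · rfl
  · rename_i i; exact absurd h.symm i.2
  · rename_i i; exact absurd h i.2
  · simp only [ix] at h; rw [Subtype.ext h]

theorem ix_surj : Function.Surjective ix := by
  intro i
  by_cases h : i = i0
  · exact ⟨none, h.symm⟩
  · exact ⟨some ⟨i, h⟩, rfl⟩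

theorem ix_ne {a b : Option Bd} (h : a ≠ b) : ix a ≠ ix b := fun h' => h (ix_inj h')

theorem cells_eq (a : Option Bd) : cells Om a = Cell (ix a) := by
  cases a
  · show (closure (⋃ i : Bd, Cell i.1))ᶜ = Cell i0
    have : closure (⋃ i : Bd, Cell i.1) = ⋃ i : Bd, MS i.1 := by
      rw [closure_iUnion_of_finite]
      simp_rw [closure_cell]
    rw [this]
    ext Y
    simp only [mem_compl_iff, mem_iUnion, not_exists]
    constructor
    · intro h
      have key : ∀ j, Y ∈ MS j → j = i0 := by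
        intro j hj
        by_contra hne
        exact h ⟨j, hne⟩ hj
      obtain ⟨j, hj⟩ := exists_ms Y
      rw [key j hj] at hj
      rcases ms_cell_or hj with h' | ⟨l, hl, hl'⟩
      · exact h'
      · exact absurd (key l hl') hl
    · intro h i hi
      exact i.2 (cell_disj h hi).symm
  · rfl

theorem iface_eq {a b : Option Bd} (h : a ≠ b) : iface Om a b = MS (ix a) ∩ MS (ix b) := by
  unfold iface
  rw [cells_eq, cells_eq, frontier_cell, frontier_cell]
  ext Y
  constructor
  · rintro ⟨h1, h2⟩; exact ⟨h1.1, h2.1⟩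
  · rintro ⟨h1, h2⟩
    refine ⟨⟨h1, fun h3 => ?_⟩, ⟨h2, fun h3 => ?_⟩⟩
    · exact ix_ne h (cell_disj h3 h2)
    · exact ix_ne h (cell_disj h3 h1).symm

theorem aa_nonneg (i : Idx) (h : i ≠ i0) : 0 ≤ aa i := by
  unfold aa sp
  have hok := i.q.ok
  have hm := i.q.p_mem
  have hx : i.q.p = ![i.q.p 0, i.q.p 1, i.q.p 2] := by
    funext j; fin_cases j <;> rfl
  have hE : ∀ x y z : ℤ, x ^ 2 + y ^ 2 + z ^ 2 = 5 → -3 ≤ x + y + z := by
    intro x y z h; nlinarith [sq_nonneg (x - y), sq_nonneg (y - z), sq_nonneg (x - z)]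
  have hM : ∀ x y z : ℤ, x ^ 2 + y ^ 2 + z ^ 2 = 1 → -1 ≤ x + y + z := by
    intro x y z h; nlinarith [sq_nonneg (x - y), sq_nonneg (y - z), sq_nonneg (x - z)]
  rcases ht : i.q.t with ⟨t, htt⟩
  interval_cases t
  · have ht' : i.q.t = 0 := ht
    rw [ht'] at hok
    have h1 := hE _ _ _ hok
    have h2 : (-3 : ℝ) ≤ i.q.p 0 + i.q.p 1 + i.q.p 2 := by exact_mod_cast h1
    have : (⟨0, htt⟩ : Fin 5) = 0 := rfl
    rw [this, cA0, cB0]
    linarith
  · have ht' : i.q.t = 1 := ht
    rw [ht'] at hok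
    rw [cN1] at hok
    have h1 : -1 ≤ i.q.p 0 + i.q.p 1 + i.q.p 2 := by
      by_contra hc
      apply h
      have h0 := hm 0
      have h1 := hm 1
      have h2 := hm 2
      rw [Finset.mem_Icc] at h0 h1 h2
      have e : i.q.p 0 = -1 ∧ i.q.p 1 = -1 ∧ i.q.p 2 = -1 := by
        generalize i.q.p 0 = x at *
        generalize i.q.p 1 = y at *
        generalize i.q.p 2 = z at *
        obtain ⟨hx1, hx2⟩ := h0
        obtain ⟨hy1, hy2⟩ := h1
        obtain ⟨hz1, hz2⟩ := h2
        interval_cases x <;> interval_cases y <;> interval_cases z <;> omega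
      have hs : i.s = 0 := by
        apply i.h.1
        rw [ht']; decide
      refine Idx.ext' (Up.ext' ht' ?_) hs
      rw [hx, e.1, e.2.1, e.2.2]
      rfl
    have h2 : (-1 : ℝ) ≤ i.q.p 0 + i.q.p 1 + i.q.p 2 := by exact_mod_cast h1
    have : (⟨1, htt⟩ : Fin 5) = 1 := rfl
    rw [this, cA1, cB1]
    linarith
  · have ht' : i.q.t = 2 := ht
    rw [ht'] at hok
    have h1 := hM _ _ _ hok
    have h2 : (-1 : ℝ) ≤ i.q.p 0 + i.q.p 1 + i.q.p 2 := by exact_mod_cast h1
    have : (⟨2, htt⟩ : Fin 5) = 2 := rfl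
    rw [this, cA2, cB2]
    linarith
  · have ht' : i.q.t = 3 := ht
    rw [ht'] at hok
    have h1 := hM _ _ _ hok
    have h2 : (-1 : ℝ) ≤ i.q.p 0 + i.q.p 1 + i.q.p 2 := by exact_mod_cast h1
    have : (⟨3, htt⟩ : Fin 5) = 3 := rfl
    rw [this, cA3, cB3]
    linarith
  · have : (⟨4, htt⟩ : Fin 5) = 4 := rfl
    rw [this, cA4, cB4]
    simp

theorem aa0 : aa i0 = -(7723 / 114244) := by
  have e1 : i0.q.t = 1 := rfl
  have e2 : i0.q.p = ![-1, -1, -1] := rfl
  unfold aa sp
  rw [e1, e2]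
  simp
  norm_num

theorem quad_bdd {α c : ℝ} {b Y : E3} (hα : 0 < α) (h : α * ‖Y‖ ^ 2 + inner ℝ b Y + c ≤ 0) :
    ‖Y‖ ≤ (‖b‖ + |c|) / α + 1 := by
  by_contra hn
  push Not at hn
  have h1 : 0 ≤ (‖b‖ + |c|) / α := by positivity
  have h2 : 1 < ‖Y‖ := by linarith
  have h3 := abs_real_inner_le_norm b Y
  have h4 : -(‖b‖ * ‖Y‖) ≤ inner ℝ b Y := by
    have := neg_abs_le (inner ℝ b Y); linarith
  have h5 : -|c| ≤ c := neg_abs_le c
  have h6 : (‖b‖ + |c|) < α * ‖Y‖ := by
    have := (div_lt_iff₀ hα).1 (show (‖b‖ + |c|) / α < ‖Y‖ by linarith)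
    linarith
  nlinarith [abs_nonneg c, norm_nonneg b]

theorem ms_bdd (i : Idx) (h : i ≠ i0) : Bornology.IsBounded (MS i) := by
  rw [isBounded_iff_forall_norm_le]
  have hα : 0 < aa i - aa i0 := by
    have := aa_nonneg i h
    rw [aa0]; linarith
  refine ⟨(‖bb i - bb i0‖ + |cc i - cc i0|) / (aa i - aa i0) + 1, fun Y hY => quad_bdd hα ?_⟩
  have h1 := hY.1 i0.q
  rw [val_pt i Y hY.2, val_pt i0 Y (Or.inl rfl)] at h1
  unfold Vf at h1
  rw [inner_sub_left]
  linarith

/-! ### Regular simplices -/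

section simplex

variable {κ : Type}

theorem simplex_inner {a : κ → E3} {i j k : κ} (hij : ‖a i - a j‖ = 1) (hik : ‖a i - a k‖ = 1)
    (hjk : ‖a j - a k‖ = 1) : inner ℝ (a j - a i) (a k - a i) = 1 / 2 := by
  have e : a j - a k = (a j - a i) - (a k - a i) := by abel
  have h := norm_sub_sq_real (a j - a i) (a k - a i)
  rw [← e, hjk, norm_sub_rev (a j), hij, norm_sub_rev (a k), hik] at h
  linarith

open Classical in
theorem simplex_card (S : Finset κ) (a : κ → E3)
    (h : ∀ i ∈ S, ∀ j ∈ S, i ≠ j → ‖a i - a j‖ = 1) : S.card ≤ 4 := by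
  rcases S.eq_empty_or_nonempty with rfl | ⟨o, ho⟩
  · simp
  set T := S.erase o with hT
  have hTm : ∀ k ∈ T, k ∈ S ∧ k ≠ o := fun k hk => ⟨Finset.mem_of_mem_erase hk,
    Finset.ne_of_mem_erase hk⟩
  have hcard : S.card = T.card + 1 := by
    rw [hT, Finset.card_erase_of_mem ho]
    have := Finset.card_pos.2 ⟨o, ho⟩
    omega
  have hli : LinearIndependent ℝ (fun k : T => a k - a o) := by
    rw [Fintype.linearIndependent_iff]
    intro g hg
    have h1 : ∀ l : T, g l + ∑ k : T, g k = 0 := by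
      intro l
      have h2 : inner ℝ (∑ k : T, g k • (a k - a o)) (a l - a o) = 0 := by
        rw [hg, inner_zero_left]
      rw [sum_inner] at h2
      have h3 : ∀ k : T, inner ℝ (g k • (a k - a o)) (a l - a o) =
          (1 / 2) * g k + (if k = l then (1 / 2) * g k else 0) := by
        intro k
        rw [inner_smul_left]
        obtain ⟨hk, hko⟩ := hTm k k.2
        obtain ⟨hl, hlo⟩ := hTm l l.2
        split_ifs with hkl
        · subst hkl
          rw [real_inner_self_eq_norm_sq, h k hk o ho hko]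
          simp; ring
        · rw [simplex_inner (h o ho k hk (Ne.symm hko)) (h o ho l hl (Ne.symm hlo))
            (h k hk l hl (fun h' => hkl (Subtype.ext h')))]
          simp; ring
      simp_rw [h3] at h2
      rw [Finset.sum_add_distrib, ← Finset.mul_sum, Finset.sum_ite_eq' Finset.univ l] at h2
      simp only [Finset.mem_univ, if_true] at h2
      linarith
    have h4 : ∑ k : T, g k = 0 := by
      have : ∑ l : T, (g l + ∑ k : T, g k) = 0 := Finset.sum_eq_zero fun l _ => h1 l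
      rw [Finset.sum_add_distrib, Finset.sum_const, nsmul_eq_mul] at this
      have hp : (0 : ℝ) < 1 + ((Finset.univ : Finset T).card : ℝ) := by positivity
      have h5 : (1 + ((Finset.univ : Finset T).card : ℝ)) * ∑ k : T, g k = 0 := by linarith
      exact (mul_eq_zero.1 h5).resolve_left hp.ne'
    intro l
    have := h1 l
    rw [h4] at this
    linarith
  have h2 := hli.fintype_card_le_finrank
  rw [finrank_euclideanSpace_fin, Fintype.card_coe] at h2
  omega

/-- the dual vectors -/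
noncomputable def dual (S : Finset κ) (a : κ → E3) (c : κ → ℝ) : E3 :=
  ∑ k ∈ S, (2 * (c k - (∑ l ∈ S, c l) / S.card)) • a k

open Classical in
theorem dual_spec (S : Finset κ) (a : κ → E3) (c : κ → ℝ)
    (h : ∀ i ∈ S, ∀ j ∈ S, i ≠ j → ‖a i - a j‖ = 1) {i j : κ} (hi : i ∈ S) (hj : j ∈ S) :
    inner ℝ (a i - a j) (dual S a c) = c i - c j := by
  by_cases hij : i = j
  · subst hij; simp
  unfold dual
  rw [inner_sum]
  set m := (∑ l ∈ S, c l) / S.card with hm
  have hd : ∀ k ∈ S, ∀ l ∈ S, ‖a k - a l‖ ^ 2 = if k = l then 0 else 1 := by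
    intro k hk l hl
    split_ifs with hkl
    · subst hkl; simp
    · rw [h k hk l hl hkl]; norm_num
  have key : ∀ k ∈ S, inner ℝ (a i - a j) ((2 * (c k - m)) • a k) =
      (c k - m) * (‖a i‖ ^ 2 - ‖a j‖ ^ 2) + ((if i = k then (c k - m) else 0) -
        (if j = k then (c k - m) else 0)) := by
    intro k hk
    have e1 := norm_sub_sq_real (a i) (a k)
    have e2 := norm_sub_sq_real (a j) (a k)
    rw [hd i hi k hk] at e1
    rw [hd j hj k hk] at e2
    rw [inner_smul_right, inner_sub_left]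
    split_ifs with h1 h2 h2
    · exact absurd (h1.trans h2.symm) hij
    · rw [if_pos h1] at e1
      rw [if_neg h2] at e2
      linear_combination (c k - m) * e1 - (c k - m) * e2
    · rw [if_neg h1] at e1
      rw [if_pos h2] at e2
      linear_combination (c k - m) * e1 - (c k - m) * e2
    · rw [if_neg h1] at e1
      rw [if_neg h2] at e2
      linear_combination (c k - m) * e1 - (c k - m) * e2
  rw [Finset.sum_congr rfl key, Finset.sum_add_distrib, ← Finset.sum_mul,
    Finset.sum_sub_distrib, Finset.sum_sub_distrib, Finset.sum_ite_eq S i, Finset.sum_ite_eq S j,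
    if_pos hi, if_pos hj, Finset.sum_const, nsmul_eq_mul]
  have hc : (S.card : ℝ) ≠ 0 := by
    have := Finset.card_pos.2 ⟨i, hi⟩
    positivity
  rw [hm]
  field_simp
  ring

end simplex

/-! ### Plateau's laws -/

theorem sq2 : (√2 : ℝ) ^ 2 = 2 := Real.sq_sqrt (by norm_num)
theorem sq2_pos : (0 : ℝ) < √2 := by positivity
theorem s2a : (√2 : ℝ) = (√2)⁻¹ * 2 := by
  rw [eq_comm, inv_mul_eq_div, div_eq_iff sq2_pos.ne', ← sq, sq2]
theorem s2b : (√2 : ℝ) / 2 = (√2)⁻¹ := by
  rw [div_eq_iff (by norm_num)]; exact s2a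

noncomputable def nG (i : Idx) (Y : E3) : E3 := (√2)⁻¹ • G i Y

theorem nG_dist {i j : Idx} {Y : E3} (hi : Y ∈ MS i) (hj : Y ∈ MS j) (hne : i ≠ j) :
    ‖nG i Y - nG j Y‖ = 1 := by
  unfold nG
  rw [← smul_sub, norm_smul]
  have h := G_dist hi hj hne
  have h2 : ‖G i Y - G j Y‖ = √2 := by
    rw [← h, Real.sqrt_sq (norm_nonneg _)]
  rw [h2, norm_inv, Real.norm_of_nonneg sq2_pos.le]
  exact inv_mul_cancel₀ sq2_pos.ne'

open Classical in
theorem plateau : Plateau Om := by
  intro Y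
  set S : Finset (Option Bd) := Finset.univ.filter (fun a => Y ∈ MS (ix a)) with hS
  have hmem : ∀ a, a ∈ S ↔ Y ∈ MS (ix a) := by intro a; simp [hS]
  set v : Option Bd → E3 := fun a => nG (ix a) Y with hv
  have hd : ∀ i ∈ S, ∀ j ∈ S, i ≠ j → ‖v i - v j‖ = 1 := fun i hi j hj hij =>
    nG_dist ((hmem i).1 hi) ((hmem j).1 hj) (ix_ne hij)
  set w : E3 := dual S v (fun a => (√2)⁻¹ * aa (ix a)) with hw
  refine ⟨S, v, fun y => (y - Y) + ‖y - Y‖ ^ 2 • w, ?_, simplex_card S v hd, hd, ?_, ?_, ?_, ?_⟩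
  · obtain ⟨i, hi⟩ := exists_ms Y
    obtain ⟨a, ha⟩ := ix_surj i
    refine ⟨a, (hmem a).2 ?_⟩
    rw [ha]; exact hi
  · have h1 : ContDiff ℝ (⊤ : ℕ∞) (fun y : E3 => ‖y - Y‖ ^ 2) :=
      (contDiff_id.sub contDiff_const).norm_sq ℝ
    exact (contDiff_id.sub contDiff_const).add (h1.smul contDiff_const)
  · simp
  · have h1 : HasFDerivAt (fun y : E3 => y - Y) (ContinuousLinearMap.id ℝ E3) Y :=
      (hasFDerivAt_id Y).sub_const Y
    have h2 : HasFDerivAt (fun y : E3 => ‖y - Y‖ ^ 2) (0 : E3 →L[ℝ] ℝ) Y := by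
      have := h1.norm_sq
      refine this.congr_fderiv ?_
      ext z; simp
    have h3 := h1.add (h2.smul_const w)
    refine h3.congr_fderiv ?_
    ext z; simp
  · obtain ⟨U, hU, hU1, hU2⟩ := local_nhds Y
    refine ⟨U, hU, ?_, ?_⟩
    · intro y hy i hi
      rw [cells_eq, cell_iff_local hU1 hU2 hy ((hmem i).1 hi)]
      have key : ∀ j ∈ S, inner ℝ (v i) ((y - Y) + ‖y - Y‖ ^ 2 • w) <
          inner ℝ (v j) ((y - Y) + ‖y - Y‖ ^ 2 • w) ↔ Vf (ix i) y < Vf (ix j) y := by
        intro j hj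
        have e0 : y = Y + (y - Y) := by abel
        have e1 := Vf_add (ix i) Y (y - Y)
        have e2 := Vf_add (ix j) Y (y - Y)
        rw [← e0] at e1 e2
        have e3 := Vf_eq ((hmem i).1 hi) ((hmem j).1 hj)
        have e4 := dual_spec S v (fun a => (√2)⁻¹ * aa (ix a)) hd hj hi
        rw [← hw] at e4
        have e5 : inner ℝ (v j) ((y - Y) + ‖y - Y‖ ^ 2 • w) -
            inner ℝ (v i) ((y - Y) + ‖y - Y‖ ^ 2 • w) = (√2)⁻¹ * (Vf (ix j) y - Vf (ix i) y) := by
          rw [← inner_sub_left, inner_add_right, inner_smul_right, e4, e1, e2, e3]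
          simp only [hv, nG]
          rw [← smul_sub, inner_smul_left, inner_sub_left]
          simp only [RCLike.conj_to_real]
          ring
        have hp : (0 : ℝ) < (√2)⁻¹ := inv_pos.2 sq2_pos
        constructor
        · intro h
          have h1 : 0 < (√2)⁻¹ * (Vf (ix j) y - Vf (ix i) y) := by rw [← e5]; linarith
          have := (mul_pos_iff_of_pos_left hp).1 h1
          linarith
        · intro h
          have h1 : 0 < (√2)⁻¹ * (Vf (ix j) y - Vf (ix i) y) := mul_pos hp (by linarith)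
          rw [← e5] at h1
          linarith
      constructor
      · intro h j hj hji
        exact (key j hj).2 (h _ ((hmem j).1 hj) (ix_ne hji))
      · intro h j hj hji
        obtain ⟨b, rfl⟩ := ix_surj j
        exact (key b ((hmem b).2 hj)).1 (h b ((hmem b).2 hj) (fun h' => hji (by rw [h'])))
    · intro i hi
      rw [cells_eq, Set.disjoint_left]
      intro y hy hy'
      exact hi ((hmem i).2 (hU1 y hy _ (cell_sub _ hy')))

/-- The spheres of the interfaces. -/
noncomputable def rd : RoundData Om where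
  α a b := √2 * (aa (ix a) - aa (ix b))
  β a b := (√2)⁻¹ • (bb (ix a) - bb (ix b))
  γ a b := (√2)⁻¹ * (cc (ix a) - cc (ix b))
  p a := 2 * √2 * aa (ix a)
  unit := by
    rintro a b hab ⟨Y, hY⟩
    rw [iface_eq hab] at hY
    have h := unit_dist hY.1 hY.2 (ix_ne hab)
    rw [norm_smul, mul_pow, norm_inv, Real.norm_of_nonneg sq2_pos.le, inv_pow, sq2]
    have e : √2 * (√2)⁻¹ = 1 := mul_inv_cancel₀ sq2_pos.ne'
    calc _ = (2 : ℝ)⁻¹ * ‖bb (ix a) - bb (ix b)‖ ^ 2 -
          2 * (√2 * (√2)⁻¹) * ((aa (ix a) - aa (ix b)) * (cc (ix a) - cc (ix b))) := by ring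
      _ = 1 := by rw [e]; linarith
  zero := by
    intro a b hab Y hY
    rw [iface_eq hab] at hY
    have h := Vf_eq hY.1 hY.2
    unfold Vf at h
    rw [inner_smul_left, inner_sub_left]
    have e : √2 * (√2)⁻¹ = 1 := mul_inv_cancel₀ sq2_pos.ne'
    have e2 := s2b
    simp only [RCLike.conj_to_real]
    calc _ = (√2 / 2) * ((aa (ix a) - aa (ix b)) * ‖Y‖ ^ 2) + (√2)⁻¹ *
          (inner ℝ (bb (ix a)) Y - inner ℝ (bb (ix b)) Y) + (√2)⁻¹ * (cc (ix a) - cc (ix b)) := by
            ring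
      _ = (√2)⁻¹ * 0 := by rw [e2]; linear_combination (√2)⁻¹ * h
      _ = 0 := mul_zero _
  side := by
    intro a b hab Y hY
    rw [iface_eq hab] at hY
    have hn : (√2)⁻¹ • (bb (ix a) - bb (ix b)) + (√2 * (aa (ix a) - aa (ix b))) • Y =
        (√2)⁻¹ • (G (ix a) Y - G (ix b) Y) := by
      unfold G
      have e := s2a
      have e2 : √2 * (aa (ix a) - aa (ix b)) = (√2)⁻¹ * (2 * aa (ix a) - 2 * aa (ix b)) := by
        linear_combination (aa (ix a) - aa (ix b)) * e
      rw [e2]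
      module
    rw [hn, cells_eq, cells_eq]
    have hp : (0 : ℝ) < (√2)⁻¹ := inv_pos.2 sq2_pos
    have h1 := dir_G hY.2 hY.1 (ix_ne hab).symm hp
    have h2 := dir_G hY.1 hY.2 (ix_ne hab) hp
    filter_upwards [h1, h2] with t ht1 ht2
    refine ⟨ht1, ?_⟩
    have e : Y - t • (√2)⁻¹ • (G (ix a) Y - G (ix b) Y) =
        Y + t • (√2)⁻¹ • (G (ix b) Y - G (ix a) Y) := by
      module
    rw [e]; exact ht2
  pressure := by
    intro a b
    ring

theorem rd_n (a b : Option Bd) (Y : E3) : rd.n a b Y = (√2)⁻¹ • (G (ix a) Y - G (ix b) Y) := by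
  show (√2)⁻¹ • (bb (ix a) - bb (ix b)) + (√2 * (aa (ix a) - aa (ix b))) • Y = _
  unfold G
  have e := s2a
  have e2 : √2 * (aa (ix a) - aa (ix b)) = (√2)⁻¹ * (2 * aa (ix a) - 2 * aa (ix b)) := by
    linear_combination (aa (ix a) - aa (ix b)) * e
  rw [e2]
  module

end Pool.Agent.J6H64.KU
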