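import Pool.Agent.J6H64.KU.Par

set_option autoImplicit false
set_option maxHeartbeats 4000000

namespace Pool.Agent.J6H64.KU

theorem lin_pos {S a b c w : ℝ} (hS : 0 < S) (h : S ^ 2 = 3 * (a ^ 2 + b ^ 2 + c ^ 2) + w ^ 2)
    (α β₁ β₂ β₃ g : ℝ) (hα : 0 < α)
    (hc : β₁ ^ 2 + β₂ ^ 2 + β₃ ^ 2 + 3 * g ^ 2 < 3 * α ^ 2) :
    β₁ * a + β₂ * b + β₃ * c + g * w < α * S := by
  by_contra hn
  push Not at hn
  have h1 : (α * S) ^ 2 ≤ (β₁ * a + β₂ * b + β₃ * c + g * w) ^ 2 :=
    pow_le_pow_left₀ (by positivity) hn 2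
  have h2 : 3 * (β₁ * a + β₂ * b + β₃ * c + g * w) ^ 2 ≤
      (β₁ ^ 2 + β₂ ^ 2 + β₃ ^ 2 + 3 * g ^ 2) * S ^ 2 := by
    rw [h]
    nlinarith [sq_nonneg (β₁ * b - β₂ * a), sq_nonneg (β₁ * c - β₃ * a),
      sq_nonneg (β₂ * c - β₃ * b), sq_nonneg (β₁ * w - 3 * g * a), sq_nonneg (β₂ * w - 3 * g * b),
      sq_nonneg (β₃ * w - 3 * g * c)]
  have h3 : 0 < S ^ 2 := by positivity
  nlinarith

/-- a sorted point of the cone -/
structure SC (S a b c w : ℝ) : Prop where
  S0 : 0 < S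
  w0 : 0 ≤ w
  ab : b ≤ a
  bc : c ≤ b
  c0 : 0 ≤ c
  q : S ^ 2 = 3 * (a ^ 2 + b ^ 2 + c ^ 2) + w ^ 2

section
variable {S a b c w : ℝ} (h : SC S a b c w)
include h

theorem SC.wS : w ≤ S := by
  have := h.q
  have := h.S0
  have := h.w0
  by_contra hn
  push Not at hn
  nlinarith [sq_nonneg a, sq_nonneg b, sq_nonneg c]

theorem X1 : 2 * (173 / 165 * S) - (4 * a + b + c) <
    ((173 / 165 - 55 / 338) * S - (1 + 55 / 338) * (a + b + c)) +
      ((173 / 165 + 39 / 71) * S - 240 / 71 * a) := by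
  have := lin_pos h.S0 h.q (39 / 71 - 55 / 338) (240 / 71 + (1 + 55 / 338) - 4) (55 / 338)
    (55 / 338) 0 (by norm_num) (by norm_num)
  linarith

theorem X2 : 2 * (173 / 165 * S) - (4 * a + b + c) <
    ((173 / 165 - 55 / 338) * S - (1 + 55 / 338) * (a + b + c)) +
      ((173 / 165 + 91 / 54) * S - 337 / 84 * a - 1021 / 756 * w) := by
  have := lin_pos h.S0 h.q (91 / 54 - 55 / 338) (337 / 84 + (1 + 55 / 338) - 4) (55 / 338)
    (55 / 338) (1021 / 756) (by norm_num) (by norm_num)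
  linarith

theorem X3 (h1 : (173 / 165 + 39 / 71) * S - 240 / 71 * a = 52 / 165 * w)
    (h2 : (173 / 165 + 39 / 71) * S - 240 / 71 * a ≤ 173 / 165 * S - (2 * a + b))
    (h3 : 52 / 165 * w ≤ (173 / 165 + 91 / 54) * S - 337 / 84 * a - 1021 / 756 * w) : False := by
  obtain ⟨S0, w0, ab, bc, c0, q⟩ := h
  have hb : b ≤ (98 * a - 39 * S) / 71 := by linarith
  have hw : w = 165 / 52 * ((173 / 165 + 39 / 71) * S - 240 / 71 * a) := by linarith
  have ha1 : 0.4122 * S ≤ a := by rw [hw] at h3; linarith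
  have ha2 : a ≤ 0.4727 * S := by
    have : 0 ≤ (173 / 165 + 39 / 71) * S - 240 / 71 * a := by rw [h1]; positivity
    linarith
  have hb0 : 0 ≤ b := c0.trans bc
  have hbb : b ^ 2 ≤ ((98 * a - 39 * S) / 71) ^ 2 := pow_le_pow_left₀ hb0 hb 2
  have hcc : c ^ 2 ≤ b ^ 2 := pow_le_pow_left₀ c0 bc 2
  have hfin : 3 * a ^ 2 + 6 * ((98 * a - 39 * S) / 71) ^ 2 + w ^ 2 < S ^ 2 := by
    have hx : 0 ≤ (a - 0.4122 * S) * (0.4727 * S - a) := mul_nonneg (by linarith) (by linarith)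
    rw [hw]
    nlinarith [mul_pos S0 S0]
  nlinarith

theorem X4a (h1 : 173 / 165 * S - (2 * a + b) ≤
    (173 / 165 - 55 / 338) * S - (1 + 55 / 338) * (a + b + c)) : c < a := by
  obtain ⟨S0, w0, ab, bc, c0, q⟩ := h
  nlinarith

theorem X4b (h2 : 173 / 165 * S - (2 * a + b) ≤ (173 / 165 + 39 / 71) * S - 240 / 71 * a)
    (h3 : 173 / 165 * S - (2 * a + b) ≤ 52 / 165 * w) : 0 < b := by
  have hw := h.wS
  obtain ⟨S0, w0, ab, bc, c0, q⟩ := h
  by_contra hb
  have hb0 : b = 0 := le_antisymm (not_lt.1 hb) (c0.trans bc)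
  have hc0 : c = 0 := le_antisymm (by linarith) c0
  subst hb0
  subst hc0
  have e1 : 98 * a ≤ 39 * S := by linarith
  have e2 : 0.366 * S ≤ a := by linarith
  have e3 : 0.8 * S ≤ w := by linarith
  have e4 : (0.366 * S) ^ 2 ≤ a ^ 2 := pow_le_pow_left₀ (by positivity) e2 2
  have e5 : (0.8 * S) ^ 2 ≤ w ^ 2 := pow_le_pow_left₀ (by positivity) e3 2
  nlinarith [mul_pos S0 S0]

theorem X5 (h1 : (173 / 165 - 55 / 338) * S - (1 + 55 / 338) * (a + b + c) ≤
      173 / 165 * S - (2 * a + b))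
    (h2 : (173 / 165 - 55 / 338) * S - (1 + 55 / 338) * (a + b + c) ≤ 52 / 165 * w) : 0 < c := by
  have hw := h.wS
  obtain ⟨S0, w0, ab, bc, c0, q⟩ := h
  by_contra hc
  have hc0 : c = 0 := le_antisymm (not_lt.1 hc) c0
  subst hc0
  linarith

theorem X6 (h1 : (173 / 165 + 39 / 71) * S - 240 / 71 * a ≤ 173 / 165 * S - (2 * a + b)) :
    b < a := by
  obtain ⟨S0, w0, ab, bc, c0, q⟩ := h
  by_contra hc
  have hab : b = a := le_antisymm ab (not_lt.1 hc)
  subst hab
  have : 1.4 * S ≤ b := by linarith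
  nlinarith [mul_pos S0 S0, sq_nonneg c, sq_nonneg w]

theorem X6' (h1 : (173 / 165 + 91 / 54) * S - 337 / 84 * a - 1021 / 756 * w ≤
    173 / 165 * S - (2 * a + b)) : b < a := by
  by_contra hc
  have hab : b = a := le_antisymm h.ab (not_lt.1 hc)
  subst hab
  have := lin_pos h.S0 h.q (91 / 54) (85 / 168) (85 / 168) 0 (1021 / 756) (by norm_num)
    (by norm_num)
  linarith

theorem X7 (hw : w = 0) (h1 : 0 ≤ (173 / 165 - 55 / 338) * S - (1 + 55 / 338) * (a + b + c))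
    (h2 : 0 ≤ (173 / 165 + 39 / 71) * S - 240 / 71 * a) : False := by
  obtain ⟨S0, w0, ab, bc, c0, q⟩ := h
  subst hw
  have e1 : a + b + c ≤ 0.7619 * S := by linarith
  have e2 : a ≤ 0.4727 * S := by linarith
  have b0 : 0 ≤ b := c0.trans bc
  have a0 : 0 ≤ a := b0.trans ab
  rcases le_total a (0.2892 * S) with h3 | h3
  · have : a ^ 2 + b ^ 2 + c ^ 2 ≤ a * (a + b + c) := by nlinarith
    have : a * (a + b + c) ≤ (0.2892 * S) * (0.7619 * S) :=
      mul_le_mul h3 e1 (by positivity) (by positivity)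
    nlinarith [mul_pos S0 S0]
  · have : b ^ 2 + c ^ 2 ≤ (b + c) ^ 2 := by nlinarith
    have h4 : (b + c) ^ 2 ≤ (0.7619 * S - a) ^ 2 :=
      pow_le_pow_left₀ (by positivity) (by linarith) 2
    have h5 : 0 ≤ (a - 0.2892 * S) * (0.4727 * S - a) := mul_nonneg (by linarith) (by linarith)
    nlinarith [mul_pos S0 S0]

theorem X7' (hw : w = 0) (h1 : (173 / 165 + 91 / 54) * S - 337 / 84 * a - 1021 / 756 * w ≤
    (173 / 165 + 39 / 71) * S - 240 / 71 * a) : False := by
  obtain ⟨S0, w0, ab, bc, c0, q⟩ := h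
  subst hw
  have e1 : 1.7 * S ≤ a := by linarith
  nlinarith [mul_pos S0 S0, sq_nonneg b, sq_nonneg c]

end

/-- explicit values -/
theorem val_mk (t : Fin 5) (x y z : ℤ) (hh) (S a b c w : ℝ) :
    val (mk t x y z hh) (S, ![a, b, c], w) =
      cA t * S - cB t * (x * a + y * b + z * c) + cC t * w := by
  simp [val, Fin.sum_univ_three]

/-- the lists of vectors -/
theorem list5 (x y z : ℤ) (h : x ^ 2 + y ^ 2 + z ^ 2 = 5) (hx : x ∈ Finset.Icc (-2 : ℤ) 2)
    (hy : y ∈ Finset.Icc (-2 : ℤ) 2) (hz : z ∈ Finset.Icc (-2 : ℤ) 2) (a b c : ℝ)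
    (ab : b ≤ a) (bc : c ≤ b) (c0 : 0 ≤ c) (b0 : 0 < b) (ac : c < a)
    (hle : 2 * a + b ≤ x * a + y * b + z * c) :
    (x = 2 ∧ y = 1 ∧ z = 0) ∨ (x = 1 ∧ y = 2 ∧ z = 0 ∧ a = b) ∨ (x = 2 ∧ y = 0 ∧ z = 1 ∧ b = c) := by
  rw [Finset.mem_Icc] at hx hy hz
  obtain ⟨hx1, hx2⟩ := hx
  obtain ⟨hy1, hy2⟩ := hy
  obtain ⟨hz1, hz2⟩ := hz
  interval_cases x <;> interval_cases y <;> interval_cases z <;> (first | (exfalso; omega) | skip) <;>
    push_cast at hle <;> first
    | (exfalso; nlinarith)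
    | (left; exact ⟨rfl, rfl, rfl⟩)
    | (right; left; exact ⟨rfl, rfl, rfl, by linarith⟩)
    | (right; right; exact ⟨rfl, rfl, rfl, by linarith⟩)

theorem list3 (x y z : ℤ) (h : x ^ 2 + y ^ 2 + z ^ 2 = 3) (hx : x ∈ Finset.Icc (-2 : ℤ) 2)
    (hy : y ∈ Finset.Icc (-2 : ℤ) 2) (hz : z ∈ Finset.Icc (-2 : ℤ) 2) (a b c : ℝ)
    (ab : b ≤ a) (bc : c ≤ b) (c0 : 0 < c)
    (hle : a + b + c ≤ x * a + y * b + z * c) :
    x = 1 ∧ y = 1 ∧ z = 1 := by
  rw [Finset.mem_Icc] at hx hy hz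
  obtain ⟨hx1, hx2⟩ := hx
  obtain ⟨hy1, hy2⟩ := hy
  obtain ⟨hz1, hz2⟩ := hz
  interval_cases x <;> interval_cases y <;> interval_cases z <;> (first | (exfalso; omega) | skip) <;>
    push_cast at hle <;> first
    | (exfalso; nlinarith)
    | (exact ⟨rfl, rfl, rfl⟩)

theorem list1 (x y z : ℤ) (h : x ^ 2 + y ^ 2 + z ^ 2 = 1) (hx : x ∈ Finset.Icc (-2 : ℤ) 2)
    (hy : y ∈ Finset.Icc (-2 : ℤ) 2) (hz : z ∈ Finset.Icc (-2 : ℤ) 2) (a b c : ℝ)
    (ab : b < a) (bc : c ≤ b) (c0 : 0 ≤ c)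
    (hle : a ≤ x * a + y * b + z * c) :
    x = 1 ∧ y = 0 ∧ z = 0 := by
  rw [Finset.mem_Icc] at hx hy hz
  obtain ⟨hx1, hx2⟩ := hx
  obtain ⟨hy1, hy2⟩ := hy
  obtain ⟨hz1, hz2⟩ := hz
  interval_cases x <;> interval_cases y <;> interval_cases z <;> (first | (exfalso; omega) | skip) <;>
    push_cast at hle <;> first
    | (exfalso; nlinarith)
    | (exact ⟨rfl, rfl, rfl⟩)

/-- The canonical indices. -/
def iE : Up := mk 0 2 1 0 (by decide)
def iE1 : Up := mk 0 1 2 0 (by decide)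
def iE2 : Up := mk 0 2 0 1 (by decide)
def iF : Up := mk 1 1 1 1 (by decide)
def iM : Up := mk 2 1 0 0 (by decide)
def iU : Up := mk 3 1 0 0 (by decide)
def iT : Up := mk 4 0 0 0 (by decide)

/-- Classification in the chamber. -/
theorem chamber {S a b c w : ℝ} (h : SC S a b c w) (q : Up) (hq : Mn q (S, ![a, b, c], w)) :
    q = iE ∨ (q = iE1 ∧ a = b) ∨ (q = iE2 ∧ b = c) ∨ q = iF ∨ q = iM ∨ q = iU ∨ q = iT := by
  have vE : val q (S, ![a, b, c], w) ≤ 173 / 165 * S - (2 * a + b) := by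
    have := hq iE; rw [iE, val_mk] at this; simp at this; linarith
  have vF : val q (S, ![a, b, c], w) ≤
      (173 / 165 - 55 / 338) * S - (1 + 55 / 338) * (a + b + c) := by
    have := hq iF; rw [iF, val_mk] at this; simp at this; linarith
  have vM : val q (S, ![a, b, c], w) ≤ (173 / 165 + 39 / 71) * S - 240 / 71 * a := by
    have := hq iM; rw [iM, val_mk] at this; simp at this; linarith
  have vT : val q (S, ![a, b, c], w) ≤ 52 / 165 * w := by
    have := hq iT; rw [iT, val_mk] at this; simp at this; linarith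
  have hval : val q (S, ![a, b, c], w) =
      cA q.t * S - cB q.t * (q.p 0 * a + q.p 1 * b + q.p 2 * c) + cC q.t * w := by
    simp [val, Fin.sum_univ_three]
  have hmem := q.p_mem
  have hok := q.ok
  rw [hval] at vE vF vM vT
  have hx : q.p = ![q.p 0, q.p 1, q.p 2] := by
    funext j; fin_cases j <;> rfl
  rcases ht : q.t with ⟨t, htt⟩
  have ht' : q.t = ⟨t, htt⟩ := ht
  interval_cases t
  · rw [show ((⟨0, htt⟩ : Fin 5)) = 0 from rfl] at ht'
    rw [ht'] at hok vE vF vM vT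
    simp only [cA0, cB0, cC0, cN0] at hok vE vF vM vT
    have e1 : ∀ y : ℝ, (q.p 0 * a + q.p 1 * b + q.p 2 * c : ℝ) ≤ 2 * a + b := by
      intro y
      -- rearrangement
      have h0 := hmem 0
      have h1 := hmem 1
      have h2 := hmem 2
      generalize q.p 0 = x at *
      generalize q.p 1 = y at *
      generalize q.p 2 = z at *
      rw [Finset.mem_Icc] at h0 h1 h2
      obtain ⟨hx1, hx2⟩ := h0
      obtain ⟨hy1, hy2⟩ := h1
      obtain ⟨hz1, hz2⟩ := h2
      have := h.ab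
      have := h.bc
      have := h.c0
      interval_cases x <;> interval_cases y <;> interval_cases z <;>
        (first | (exfalso; omega) | skip) <;> push_cast <;> linarith
    have e1 := e1 0
    have b0 := X4b h (by linarith) (by linarith)
    have ac := X4a h (by linarith)
    rcases list5 _ _ _ hok (hmem 0) (hmem 1) (hmem 2) a b c h.ab h.bc h.c0 b0 ac (by linarith) with
      h5 | h5 | h5
    · left
      refine Up.ext' ht' ?_
      rw [hx, h5.1, h5.2.1, h5.2.2]; rfl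
    · right; left
      refine ⟨Up.ext' ht' ?_, h5.2.2.2⟩
      rw [hx, h5.1, h5.2.1, h5.2.2.1]; rfl
    · right; right; left
      refine ⟨Up.ext' ht' ?_, h5.2.2.2⟩
      rw [hx, h5.1, h5.2.1, h5.2.2.1]; rfl
  · rw [show ((⟨1, htt⟩ : Fin 5)) = 1 from rfl] at ht'
    rw [ht'] at hok vE vF vM vT
    simp only [cA1, cB1, cC1, cN1] at hok vE vF vM vT
    have e1 : ∀ y : ℝ, (q.p 0 * a + q.p 1 * b + q.p 2 * c : ℝ) ≤ a + b + c := by
      intro y
      have h0 := hmem 0
      have h1 := hmem 1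
      have h2 := hmem 2
      generalize q.p 0 = x at *
      generalize q.p 1 = y at *
      generalize q.p 2 = z at *
      rw [Finset.mem_Icc] at h0 h1 h2
      obtain ⟨hx1, hx2⟩ := h0
      obtain ⟨hy1, hy2⟩ := h1
      obtain ⟨hz1, hz2⟩ := h2
      have := h.ab
      have := h.bc
      have := h.c0
      interval_cases x <;> interval_cases y <;> interval_cases z <;>
        (first | (exfalso; omega) | skip) <;> push_cast <;> linarith
    have e1 := e1 0
    have c0 := X5 h (by linarith) (by linarith)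
    have h5 := list3 _ _ _ hok (hmem 0) (hmem 1) (hmem 2) a b c h.ab h.bc c0 (by linarith)
    right; right; right; left
    refine Up.ext' ht' ?_
    rw [hx, h5.1, h5.2.1, h5.2.2]; rfl
  · rw [show ((⟨2, htt⟩ : Fin 5)) = 2 from rfl] at ht'
    rw [ht'] at hok vE vF vM vT
    simp only [cA2, cB2, cC2, cN2] at hok vE vF vM vT
    have e1 : ∀ y : ℝ, (q.p 0 * a + q.p 1 * b + q.p 2 * c : ℝ) ≤ a := by
      intro y
      have h0 := hmem 0
      have h1 := hmem 1
      have h2 := hmem 2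
      generalize q.p 0 = x at *
      generalize q.p 1 = y at *
      generalize q.p 2 = z at *
      rw [Finset.mem_Icc] at h0 h1 h2
      obtain ⟨hx1, hx2⟩ := h0
      obtain ⟨hy1, hy2⟩ := h1
      obtain ⟨hz1, hz2⟩ := h2
      have := h.ab
      have := h.bc
      have := h.c0
      interval_cases x <;> interval_cases y <;> interval_cases z <;>
        (first | (exfalso; omega) | skip) <;> push_cast <;> linarith
    have e1 := e1 0
    have ab := X6 h (by linarith)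
    have h5 := list1 _ _ _ hok (hmem 0) (hmem 1) (hmem 2) a b c ab h.bc h.c0 (by linarith)
    right; right; right; right; left
    refine Up.ext' ht' ?_
    rw [hx, h5.1, h5.2.1, h5.2.2]; rfl
  · rw [show ((⟨3, htt⟩ : Fin 5)) = 3 from rfl] at ht'
    have vU : val q (S, ![a, b, c], w) ≤
        (173 / 165 + 91 / 54) * S - 337 / 84 * a - 1021 / 756 * w := by
      have := hq iU; rw [iU, val_mk] at this; simp at this; linarith
    rw [hval] at vU
    rw [ht'] at hok vE vF vM vT vU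
    simp only [cA3, cB3, cC3, cN3] at hok vE vF vM vT vU
    have e1 : ∀ y : ℝ, (q.p 0 * a + q.p 1 * b + q.p 2 * c : ℝ) ≤ a := by
      intro y
      have h0 := hmem 0
      have h1 := hmem 1
      have h2 := hmem 2
      generalize q.p 0 = x at *
      generalize q.p 1 = y at *
      generalize q.p 2 = z at *
      rw [Finset.mem_Icc] at h0 h1 h2
      obtain ⟨hx1, hx2⟩ := h0
      obtain ⟨hy1, hy2⟩ := h1
      obtain ⟨hz1, hz2⟩ := h2
      have := h.ab
      have := h.bc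
      have := h.c0
      interval_cases x <;> interval_cases y <;> interval_cases z <;>
        (first | (exfalso; omega) | skip) <;> push_cast <;> linarith
    have e1 := e1 0
    have ab := X6' h (by linarith)
    have h5 := list1 _ _ _ hok (hmem 0) (hmem 1) (hmem 2) a b c ab h.bc h.c0 (by linarith)
    right; right; right; right; right; left
    refine Up.ext' ht' ?_
    rw [hx, h5.1, h5.2.1, h5.2.2]; rfl
  · rw [show ((⟨4, htt⟩ : Fin 5)) = 4 from rfl] at ht'
    rw [ht'] at hok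
    simp only [cN4] at hok
    have h0 : q.p 0 = 0 := by nlinarith [sq_nonneg (q.p 0), sq_nonneg (q.p 1), sq_nonneg (q.p 2)]
    have h1 : q.p 1 = 0 := by nlinarith [sq_nonneg (q.p 0), sq_nonneg (q.p 1), sq_nonneg (q.p 2)]
    have h2 : q.p 2 = 0 := by nlinarith [sq_nonneg (q.p 0), sq_nonneg (q.p 1), sq_nonneg (q.p 2)]
    right; right; right; right; right; right
    refine Up.ext' ht' ?_
    rw [hx, h0, h1, h2]; rfl

end Pool.Agent.J6H64.KU
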