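import Pool.Agent.J6H64.KU.Star

set_option autoImplicit false
set_option maxHeartbeats 4000000

open Set Filter Topology

namespace Pool.Agent.J6H64.KU

theorem val_of {k : Up} {t : Fin 5} {x y z : ℤ} (ht : k.t = t) (hx : k.p 0 = x) (hy : k.p 1 = y)
    (hz : k.p 2 = z) (S : ℝ) (v : Fin 3 → ℝ) (w : ℝ) :
    val k (S, v, w) = cA t * S - cB t * (x * v 0 + y * v 1 + z * v 2) + cC t * w := by
  rw [val_eq, ht, hx, hy, hz]

/-- explicit data of an index -/
def Is (k : Up) (t : Fin 5) (x y z : ℤ) : Prop := k.t = t ∧ k.p 0 = x ∧ k.p 1 = y ∧ k.p 2 = z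

theorem Is.val {k : Up} {t : Fin 5} {x y z : ℤ} (h : Is k t x y z) (S : ℝ) (v : Fin 3 → ℝ)
    (w : ℝ) : val k (S, v, w) = cA t * S - cB t * (x * v 0 + y * v 1 + z * v 2) + cC t * w :=
  val_of h.1 h.2.1 h.2.2.1 h.2.2.2 S v w

theorem Is.eq {k l : Up} {t : Fin 5} {x y z : ℤ} (h : Is k t x y z) (h' : Is l t x y z) : k = l := by
  refine Up.ext' (h.1.trans h'.1.symm) ?_
  funext j
  fin_cases j
  · exact h.2.1.trans h'.2.1.symm
  · exact h.2.2.1.trans h'.2.2.1.symm
  · exact h.2.2.2.trans h'.2.2.2.symm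

theorem isE : Is iE 0 2 1 0 := ⟨rfl, rfl, rfl, rfl⟩
theorem isF : Is iF 1 1 1 1 := ⟨rfl, rfl, rfl, rfl⟩
theorem isM : Is iM 2 1 0 0 := ⟨rfl, rfl, rfl, rfl⟩
theorem isU : Is iU 3 1 0 0 := ⟨rfl, rfl, rfl, rfl⟩
theorem isT : Is iT 4 0 0 0 := ⟨rfl, rfl, rfl, rfl⟩

theorem adjE {k : Up} (h : Adj iE k) : Is k 0 1 2 0 ∨ Is k 0 2 0 1 ∨ Is k 0 2 0 (-1) ∨
    Is k 1 1 1 1 ∨ Is k 1 1 1 (-1) ∨ Is k 2 1 0 0 ∨ Is k 3 1 0 0 ∨ Is k 4 0 0 0 := by
  obtain ⟨x, y, z, hx, hy, hz, hq, a1, a2, b1, b2, c1, c2⟩ := up_cases k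
  have h' : 2 * x + 1 * y + 0 * z = cD 0 k.t := by rw [← hx, ← hy, ← hz]; exact h
  unfold Is
  rw [hx, hy, hz]
  rcases ht : k.t with ⟨t, htt⟩
  rw [ht] at h' hq
  interval_cases t
  all_goals simp [cN, cD] at h' hq
  all_goals interval_cases x <;> interval_cases y <;> interval_cases z <;> simp at h' hq ⊢

theorem adjF {k : Up} (h : Adj iF k) : (k.t = 0 ∧ k.p 0 + k.p 1 + k.p 2 = 3) ∨ Is k 4 0 0 0 := by
  obtain ⟨x, y, z, hx, hy, hz, hq, a1, a2, b1, b2, c1, c2⟩ := up_cases k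
  have h' : 1 * x + 1 * y + 1 * z = cD 1 k.t := by rw [← hx, ← hy, ← hz]; exact h
  unfold Is
  rw [hx, hy, hz]
  rcases ht : k.t with ⟨t, htt⟩
  rw [ht] at h' hq
  interval_cases t
  all_goals simp [cN, cD] at h' hq
  · left; exact ⟨rfl, by linarith⟩
  all_goals interval_cases x <;> interval_cases y <;> interval_cases z <;> simp at h' hq ⊢

theorem adjM {k : Up} (h : Adj iM k) : Is k 0 2 1 0 ∨ Is k 0 2 (-1) 0 ∨ Is k 0 2 0 1 ∨
    Is k 0 2 0 (-1) ∨ Is k 3 1 0 0 := by
  obtain ⟨x, y, z, hx, hy, hz, hq, a1, a2, b1, b2, c1, c2⟩ := up_cases k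
  have h' : 1 * x + 0 * y + 0 * z = cD 2 k.t := by rw [← hx, ← hy, ← hz]; exact h
  unfold Is
  rw [hx, hy, hz]
  rcases ht : k.t with ⟨t, htt⟩
  rw [ht] at h' hq
  interval_cases t
  all_goals simp [cN, cD] at h' hq
  all_goals interval_cases x <;> interval_cases y <;> interval_cases z <;> simp at h' hq ⊢

theorem adjT {k : Up} (h : Adj iT k) : k.t = 0 ∨ k.t = 1 ∨ k.t = 3 := by
  have h' : (0 : ℤ) * k.p 0 + 0 * k.p 1 + 0 * k.p 2 = cD 4 k.t := h
  rcases ht : k.t with ⟨t, htt⟩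
  rw [ht] at h'
  interval_cases t
  all_goals simp [cD] at h' ⊢


theorem starE : Star iE (5 * √3, ![4, 3, 0], 0) := by
  have h3 := s3
  have hl := s3l
  have hu := s3u
  refine star_lemma (by positivity) le_rfl ?_ ?_ ?_
  · simp; rw [mul_pow, h3]; norm_num
  · intro k hk ha
    rcases adjE ha with h | h | h | h | h | h | h | h <;>
    · rw [h.val, isE.val]
      simp <;> nlinarith
  · intro S x w hP hs
    obtain ⟨hS0, hw0, hq⟩ := hP
    simp only at hS0 hw0 hq
    rw [Fin.sum_univ_three] at hq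
    have hT : 173 / 165 * S - (2 * x 0 + x 1) < 52 / 165 * w := by
      have := hs iT (by intro h; have := congrArg Up.t h; exact absurd this (by decide))
      rwa [valE, valT] at this
    have hlow : 1.5889 * S ≤ 4 * x 0 + 3 * x 1 := by
      by_contra hc
      push Not at hc
      have := lin_pos (a := x 0) (b := x 1) (c := x 2) hS0 hq
        (173 / 165 - (2.2 - 0.4461) * (1.5889 / 5)) (0.4461 * 4 / 5 + 0.4 * 3 / 5)
        (0.4461 * 3 / 5 - 0.4 * 4 / 5) 0 (52 / 165) (by norm_num) (by norm_num)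
      linarith
    have e : x 0 * (![4, 3, 0] : Fin 3 → ℝ) 0 + x 1 * (![4, 3, 0] : Fin 3 → ℝ) 1 +
        x 2 * (![4, 3, 0] : Fin 3 → ℝ) 2 = 4 * x 0 + 3 * x 1 := by simp; ring
    rw [e]
    set u := 4 * x 0 + 3 * x 1 with hu'
    have hα : 0 < S * (5 * √3) + 3 * u + w * 0 := by nlinarith
    refine ⟨hα, ?_⟩
    -- β ≤ 0.295 α
    have hβ : S * (5 * √3) - 3 * u - w * 0 ≤ 0.295 * (S * (5 * √3) + 3 * u + w * 0) := by
      nlinarith
    have hβ0 : 0 ≤ S * (5 * √3) - 3 * u - w * 0 := by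
      have e1 : (3 * u) ^ 2 ≤ (S * (5 * √3)) ^ 2 := by
        have : (S * (5 * √3)) ^ 2 = 75 * S ^ 2 := by rw [mul_pow, mul_pow, h3]; ring
        rw [this, hq, hu']
        nlinarith [sq_nonneg (3 * x 0 - 4 * x 1), sq_nonneg (x 2), sq_nonneg w]
      have e2 := abs_le_of_sq_le_sq e1 (by positivity)
      have := (abs_le.1 e2).2
      linarith
    generalize S * (5 * √3) + 3 * u + w * 0 = A at hα hβ ⊢
    generalize S * (5 * √3) - 3 * u - w * 0 = B at hβ hβ0 ⊢
    have hpp : ∀ v v' : ℝ, 0.295 * v' ≤ v → 0 ≤ v → B * v' ≤ A * v := by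
      intro v v' h1 h2
      rcases le_total v' 0 with h | h
      · nlinarith
      · nlinarith
    intro k hk ha
    rcases adjE ha with h | h | h | h | h | h | h | h <;>
    · rw [h.val, isE.val, h.val, isE.val]
      refine hpp _ _ ?_ ?_
      · simp <;> nlinarith
      · simp <;> nlinarith

theorem starF : Star iF (3, ![1, 1, 1], 0) := by
  refine star_lemma (by positivity) le_rfl (by simp; norm_num) ?_ ?_
  · intro k hk ha
    rcases adjF ha with h | h
    · rw [val_eq, isF.val, h.1]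
      have h2 : (k.p 0 : ℝ) + k.p 1 + k.p 2 = 3 := by exact_mod_cast h.2
      simp
      linarith
    · rw [h.val, isF.val]
      simp <;> norm_num
  · intro S x w hP hs
    obtain ⟨hS0, hw0, hq⟩ := hP
    simp only at hS0 hw0 hq
    rw [Fin.sum_univ_three] at hq
    have hT : (173 / 165 - 55 / 338) * S - (1 + 55 / 338) * (x 0 + x 1 + x 2) < 52 / 165 * w := by
      have := hs iT (by intro h; have := congrArg Up.t h; exact absurd this (by decide))
      rwa [valF, valT] at this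
    have hw : w ≤ S := by
      have : w ^ 2 ≤ S ^ 2 := by nlinarith [sq_nonneg (x 0), sq_nonneg (x 1), sq_nonneg (x 2)]
      exact (abs_le_of_sq_le_sq this hS0.le |> abs_le.1).2
    have e : x 0 * (![1, 1, 1] : Fin 3 → ℝ) 0 + x 1 * (![1, 1, 1] : Fin 3 → ℝ) 1 +
        x 2 * (![1, 1, 1] : Fin 3 → ℝ) 2 = x 0 + x 1 + x 2 := by simp
    rw [e]
    set u := x 0 + x 1 + x 2 with hu'
    have hu0 : 0 < u := by nlinarith
    have hα : 0 < S * 3 + 3 * u + w * 0 := by positivity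
    refine ⟨hα, ?_⟩
    have hβ0 : 0 ≤ S * 3 - 3 * u - w * 0 := by
      have e1 : u ^ 2 ≤ S ^ 2 := by
        rw [hq, hu']
        nlinarith [sq_nonneg (x 0 - x 1), sq_nonneg (x 1 - x 2), sq_nonneg (x 0 - x 2),
          sq_nonneg w]
      have := (abs_le_of_sq_le_sq e1 hS0.le |> abs_le.1).2
      linarith
    generalize S * 3 + 3 * u + w * 0 = A at hα ⊢
    generalize S * 3 - 3 * u - w * 0 = B at hβ0 ⊢
    have hpp : ∀ v v' : ℝ, v' ≤ 0 → 0 ≤ v → B * v' ≤ A * v := by
      intro v v' h1 h2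
      nlinarith
    intro k hk ha
    rcases adjF ha with h | h
    · have h2 : (k.p 0 : ℝ) + k.p 1 + k.p 2 = 3 := by exact_mod_cast h.2
      rw [val_eq, isF.val, val_eq, isF.val, h.1]
      refine hpp _ _ ?_ ?_
      · simp
        linarith
      · simp
        linarith
    · rw [h.val, isF.val, h.val, isF.val]
      refine hpp _ _ ?_ ?_
      · simp <;> norm_num
      · simp <;> norm_num

theorem starM : Star iM (√3, ![1, 0, 0], 0) := by
  have h3 := s3
  have hl := s3l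
  have hu := s3u
  refine star_lemma (by positivity) le_rfl ?_ ?_ ?_
  · simp
  · intro k hk ha
    rcases adjM ha with h | h | h | h | h <;>
    · rw [h.val, isM.val]
      simp <;> nlinarith
  · intro S x w hP hs
    obtain ⟨hS0, hw0, hq⟩ := hP
    simp only at hS0 hw0 hq
    rw [Fin.sum_univ_three] at hq
    have e1 : Is (mk 0 2 (-1) 0 (by decide)) 0 2 (-1) 0 := ⟨rfl, rfl, rfl, rfl⟩
    have hE1 := hs iE (by intro h; have := congrArg Up.t h; exact absurd this (by decide))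
    have hE2 := hs (mk 0 2 (-1) 0 (by decide))
      (by intro h; have := congrArg Up.t h; exact absurd this (by decide))
    rw [isM.val, isE.val] at hE1
    rw [isM.val, e1.val] at hE2
    simp at hE1 hE2
    have ha : 39 / 98 * S ≤ x 0 := by linarith
    have e : x 0 * (![1, 0, 0] : Fin 3 → ℝ) 0 + x 1 * (![1, 0, 0] : Fin 3 → ℝ) 1 +
        x 2 * (![1, 0, 0] : Fin 3 → ℝ) 2 = x 0 := by simp
    rw [e]
    have hα : 0 < S * √3 + 3 * x 0 + w * 0 := by nlinarith
    refine ⟨hα, ?_⟩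
    have hβ : S * √3 - 3 * x 0 - w * 0 ≤ 0.4 * (S * √3 + 3 * x 0 + w * 0) := by
      nlinarith
    have hβ0 : 0 ≤ S * √3 - 3 * x 0 - w * 0 := by
      have e1 : (3 * x 0) ^ 2 ≤ (S * √3) ^ 2 := by
        have : (S * √3) ^ 2 = 3 * S ^ 2 := by rw [mul_pow, h3]; ring
        rw [this, hq]
        nlinarith [sq_nonneg (x 1), sq_nonneg (x 2), sq_nonneg w]
      have e2 := abs_le_of_sq_le_sq e1 (by positivity)
      have := (abs_le.1 e2).2
      linarith
    generalize S * √3 + 3 * x 0 + w * 0 = A at hα hβ ⊢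
    generalize S * √3 - 3 * x 0 - w * 0 = B at hβ hβ0 ⊢
    have hpp : ∀ v v' : ℝ, 0.4 * v' ≤ v → 0 ≤ v → B * v' ≤ A * v := by
      intro v v' h1 h2
      rcases le_total v' 0 with h | h
      · nlinarith
      · nlinarith
    intro k hk ha
    rcases adjM ha with h | h | h | h | h <;>
    · rw [h.val, isM.val, h.val, isM.val]
      refine hpp _ _ ?_ ?_
      · simp <;> nlinarith
      · simp <;> nlinarith

theorem T61 {S a b c w : ℝ} (h : SC S a b c w)
    (h1 : 52 / 165 * w ≤ (173 / 165 - 55 / 338) * S - (1 + 55 / 338) * (a + b + c))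
    (h2 : 52 / 165 * w ≤ (173 / 165 + 39 / 71) * S - 240 / 71 * a) : 0.61 * S ≤ w := by
  obtain ⟨S0, w0, ab, bc, c0, q⟩ := h
  by_contra hn
  push Not at hn
  have b0 : 0 ≤ b := c0.trans bc
  have a0 : 0 ≤ a := b0.trans ab
  have e1 : a + b + c ≤ 0.76182 * S - 0.27104 * w := by linarith
  have e2 : a ≤ 0.47268 * S - 0.09323 * w := by linarith
  set σ := 0.76182 * S - 0.27104 * w with hσ
  set τ := 0.47268 * S - 0.09323 * w with hτ
  have hw : 0 ≤ w * (0.61 * S - w) := mul_nonneg w0 (by linarith)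
  rcases le_total a (σ - τ) with h3 | h3
  · have h4 : a ^ 2 + b ^ 2 + c ^ 2 ≤ a * (a + b + c) := by nlinarith
    have h5 : a * (a + b + c) ≤ (σ - τ) * σ :=
      mul_le_mul h3 e1 (by positivity) (a0.trans h3)
    nlinarith [mul_pos S0 S0]
  · have h4 : b ^ 2 + c ^ 2 ≤ (b + c) ^ 2 := by nlinarith
    have h5 : (b + c) ^ 2 ≤ (σ - a) ^ 2 :=
      pow_le_pow_left₀ (by positivity) (by linarith) 2
    have h6 : 0 ≤ (a - (σ - τ)) * (τ - a) := mul_nonneg (by linarith) (by linarith)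
    nlinarith [mul_pos S0 S0]

theorem starT : Star iT (1, ![0, 0, 0], 1) := by
  have hz : ∀ k : Up, k.t = 0 ∨ k.t = 1 ∨ k.t = 3 → ∀ w : ℝ,
      val k (1, ![0, 0, 0], w) = cA k.t + cC k.t * w := by
    intro k hk w
    rw [val_eq]; simp
  refine star_lemma (by positivity) (by norm_num) (by simp) ?_ ?_
  · intro k hk ha
    have h := adjT ha
    rw [isT.val, hz k h]
    rcases h with h | h | h <;> rw [h] <;> simp <;> norm_num
  · intro S x w hP hs
    have hP' := hP
    obtain ⟨hS0, hw0, hq⟩ := hP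
    simp only at hS0 hw0 hq
    rw [Fin.sum_univ_three] at hq
    have hw61 : 0.61 * S ≤ w := by
      obtain ⟨g, a, b, c, hg, hsc⟩ := exists_chamber hP'
      have hs' := g.sm_act hs
      have hgT : g.actU iT = iT := by
        refine Up.ext' rfl ?_
        funext j
        show g.s j * iT.p (g.e j) = iT.p j
        have : ∀ j, iT.p j = 0 := by intro j; fin_cases j <;> rfl
        rw [this, this, mul_zero]
      rw [hg, hgT] at hs'
      have h1 := hs' iF (by intro h; have := congrArg Up.t h; exact absurd this (by decide))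
      have h2 := hs' iM (by intro h; have := congrArg Up.t h; exact absurd this (by decide))
      rw [isT.val, isF.val] at h1
      rw [isT.val, isM.val] at h2
      simp at h1 h2
      exact T61 hsc (by linarith) (by linarith)
    have e : x 0 * (![0, 0, 0] : Fin 3 → ℝ) 0 + x 1 * (![0, 0, 0] : Fin 3 → ℝ) 1 +
        x 2 * (![0, 0, 0] : Fin 3 → ℝ) 2 = 0 := by simp
    rw [e]
    have hwS : w ≤ S := by
      have : w ^ 2 ≤ S ^ 2 := by nlinarith [sq_nonneg (x 0), sq_nonneg (x 1), sq_nonneg (x 2)]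
      exact (abs_le_of_sq_le_sq this hS0.le |> abs_le.1).2
    have hα : 0 < S * 1 + 3 * 0 + w * 1 := by linarith
    refine ⟨hα, ?_⟩
    have hβ : S * 1 - 3 * 0 - w * 1 ≤ 0.2423 * (S * 1 + 3 * 0 + w * 1) := by
      linarith
    have hβ0 : 0 ≤ S * 1 - 3 * 0 - w * 1 := by linarith
    generalize S * 1 + 3 * 0 + w * 1 = A at hα hβ ⊢
    generalize S * 1 - 3 * 0 - w * 1 = B at hβ hβ0 ⊢
    have hpp : ∀ v v' : ℝ, 0.2423 * v' ≤ v → 0 ≤ v → B * v' ≤ A * v := by
      intro v v' h1 h2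
      rcases le_total v' 0 with h | h
      · nlinarith
      · nlinarith
    intro k hk ha
    have h := adjT ha
    have hn : (-![0, 0, 0] : Fin 3 → ℝ) = ![0, 0, 0] := by
      funext j; fin_cases j <;> simp
    rw [hn, hz k h, hz k h, isT.val, isT.val]
    refine hpp _ _ ?_ ?_ <;> (rcases h with h | h | h <;> rw [h] <;> simp <;> norm_num)

/-- strictness at the sample point of `U` -/
theorem smU : Sm iU (19 / 8, ![1, 0, 0], 13 / 8) := by
  intro k hk
  obtain ⟨x, y, z, hx, hy, hz, hq, a1, a2, b1, b2, c1, c2⟩ := up_cases k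
  rw [isU.val, val_eq, hx, hy, hz]
  rcases ht : k.t with ⟨t, htt⟩
  rw [ht] at hq
  have hne : ¬ (t = 3 ∧ x = 1) := by
    rintro ⟨h1, h2⟩
    subst h1
    apply hk
    have hy0 : y = 0 := by simp [cN] at hq; nlinarith
    have hz0 : z = 0 := by simp [cN] at hq; nlinarith
    exact Is.eq ⟨ht, by rw [hx, h2], by rw [hy, hy0], by rw [hz, hz0]⟩ isU
  interval_cases t
  all_goals simp [cN] at hq hne
  · have h0 : (x : ℝ) ≤ 2 := by exact_mod_cast a2
    simp [cA, cB, cC]; linarith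
  · have h0 : x ≤ 1 := by nlinarith [sq_nonneg y, sq_nonneg z]
    have h0 : (x : ℝ) ≤ 1 := by exact_mod_cast h0
    simp [cA, cB, cC]; linarith
  · have h0 : x ≤ 1 := by nlinarith [sq_nonneg y, sq_nonneg z]
    have h0 : (x : ℝ) ≤ 1 := by exact_mod_cast h0
    simp [cA, cB, cC]; linarith
  · have h0 : x ≤ 0 := by
      have : x ≤ 1 := by nlinarith [sq_nonneg y, sq_nonneg z]
      omega
    have h0 : (x : ℝ) ≤ 0 := by exact_mod_cast h0
    simp [cA, cB, cC]; linarith
  · simp [cA, cB, cC]; norm_num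

theorem cCU (k : Up) : 0 ≤ cC k.t + 1021 / 756 := by
  rcases ht : k.t with ⟨t, htt⟩
  interval_cases t <;> simp [cC] <;> norm_num

theorem starU : Star iU (19 / 8, ![1, 0, 0], 13 / 8) := by
  rintro ⟨S, x, w⟩ hP hs
  obtain ⟨hS0, hw0, hq⟩ := hP
  simp only at hS0 hw0 hq
  rw [Fin.sum_univ_three] at hq
  have key : ∀ t ∈ Icc (0 : ℝ) 1, (t * w + (1 - t) * (13 / 8)) ^ 2 ≤
      (t * S + (1 - t) * (19 / 8)) ^ 2 - 3 * ((t * x 0 + (1 - t) * 1) ^ 2 +
        (t * x 1) ^ 2 + (t * x 2) ^ 2) := by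
    rintro t ⟨ht0, ht1⟩
    have h1 : 3 * x 0 + 13 / 8 * w ≤ 19 / 8 * S := by
      by_contra hc
      push Not at hc
      have := lin_pos (a := x 0) (b := x 1) (c := x 2) hS0 hq (19 / 8 + 1 / 8) 3 0 0 (13 / 8)
      have h2 : (19 / 8 * S) ^ 2 < (3 * x 0 + 13 / 8 * w) ^ 2 :=
        pow_lt_pow_left₀ hc (by positivity) (by norm_num)
      nlinarith [sq_nonneg (x 0 * (13 / 8) - w), sq_nonneg (x 1), sq_nonneg (x 2)]
    have h2 : 0 ≤ t * (1 - t) := mul_nonneg ht0 (by linarith)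
    have h3 : 0 ≤ t * (1 - t) * (19 / 8 * S - (3 * x 0 + 13 / 8 * w)) :=
      mul_nonneg h2 (by linarith)
    have h4 : t ^ 2 * S ^ 2 = t ^ 2 * (3 * (x 0 ^ 2 + x 1 ^ 2 + x 2 ^ 2) + w ^ 2) := by rw [hq]
    nlinarith
  set W : ℝ → ℝ := fun t => √((t * S + (1 - t) * (19 / 8)) ^ 2 -
    3 * ((t * x 0 + (1 - t) * 1) ^ 2 + (t * x 1) ^ 2 + (t * x 2) ^ 2)) with hW
  set γ : ℝ → Pt := fun t => (t * S + (1 - t) * (19 / 8),
    ![t * x 0 + (1 - t) * 1, t * x 1, t * x 2], W t) with hγ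
  have hWge : ∀ t ∈ Icc (0 : ℝ) 1, t * w + (1 - t) * (13 / 8) ≤ W t := by
    intro t ht
    refine Real.le_sqrt_of_sq_le (key t ht)
  refine ⟨γ, ?_, ?_, ?_, 1, one_pos, ?_⟩
  · simp only [hγ, hW]
    refine Continuous.prodMk (by fun_prop) (Continuous.prodMk ?_ (by fun_prop))
    refine continuous_pi fun j => ?_
    fin_cases j
    · show Continuous fun t => t * x 0 + (1 - t) * 1
      fun_prop
    · show Continuous fun t => t * x 1
      fun_prop
    · show Continuous fun t => t * x 2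
      fun_prop
  · intro t ht
    have hk := key t ht
    have ht0 := ht.1
    have ht1 := ht.2
    refine ⟨⟨?_, Real.sqrt_nonneg _, ?_⟩, ?_⟩
    · show 0 < t * S + (1 - t) * (19 / 8)
      rcases ht0.eq_or_lt with h | h
      · rw [← h]; norm_num
      · have := mul_pos h hS0
        have : 0 ≤ (1 - t) * (19 / 8) := mul_nonneg (by linarith) (by norm_num)
        linarith
    · show (t * S + (1 - t) * (19 / 8)) ^ 2 = 3 * ∑ j, (![t * x 0 + (1 - t) * 1, t * x 1, t * x 2] :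
        Fin 3 → ℝ) j ^ 2 + W t ^ 2
      rw [hW, Real.sq_sqrt ((sq_nonneg _).trans hk), Fin.sum_univ_three]
      simp
    · intro k hk
      have h1 := hs k hk
      have h2 := smU k hk
      have h3 := hWge t ht
      have h4 := cCU k
      rw [isU.val, val_eq] at h1 h2
      show val iU (t * S + (1 - t) * (19 / 8), ![t * x 0 + (1 - t) * 1, t * x 1, t * x 2], W t) <
        val k (t * S + (1 - t) * (19 / 8), ![t * x 0 + (1 - t) * 1, t * x 1, t * x 2], W t)
      rw [isU.val, val_eq]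
      simp at h1 h2 ⊢
      have h5 : 0 ≤ (cC k.t + 1021 / 756) * (W t - (t * w + (1 - t) * (13 / 8))) :=
        mul_nonneg h4 (by linarith)
      rcases ht0.eq_or_lt with h | h
      · rw [← h] at h5 ⊢
        nlinarith
      · have h6 := mul_lt_mul_of_pos_left h1 h
        have h7 := mul_le_mul_of_nonneg_left h2.le (show 0 ≤ 1 - t by linarith)
        nlinarith
  · simp only [hγ, hW]
    ext
    · simp
    · rename_i j
      fin_cases j <;> simp
    · simp
      have : S ^ 2 - 3 * (x 0 ^ 2 + x 1 ^ 2 + x 2 ^ 2) = w ^ 2 := by rw [hq]; ring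
      rw [this, Real.sqrt_sq hw0]
  · simp only [hγ, hW]
    ext
    · simp
    · rename_i j
      fin_cases j <;> simp
    · simp
      have : (19 / 8 : ℝ) ^ 2 - 3 = (13 / 8) ^ 2 := by norm_num
      rw [this, Real.sqrt_sq (by norm_num)]

end Pool.Agent.J6H64.KU
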