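import Pool.Agent.J6H64.KU.Conn
import Pool.Agent.J6H64.KU.Cells

set_option autoImplicit false
set_option maxHeartbeats 4000000

open Set Filter Topology

namespace Pool.Agent.J6H64.KU

theorem smE : Sm iE (4, ![2, 1, 0], 1) := by
  intro k hk
  obtain ⟨x, y, z, hx, hy, hz, hq, a1, a2, b1, b2, c1, c2⟩ := up_cases k
  rw [isE.val, val_eq, hx, hy, hz]
  rcases ht : k.t with ⟨t, htt⟩
  rw [ht] at hq
  have hne : ¬ (t = 0 ∧ x = 2 ∧ y = 1) := by
    rintro ⟨h1, h2, h3⟩
    subst h1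
    apply hk
    have hz0 : z = 0 := by simp [cN] at hq; rw [h2, h3] at hq; nlinarith
    exact Is.eq ⟨ht, by rw [hx, h2], by rw [hy, h3], by rw [hz, hz0]⟩ isE
  interval_cases t
  all_goals simp [cN] at hq hne
  · have h0 : 2 * x + y ≤ 4 := by
      interval_cases x <;> interval_cases y <;> first | omega | (exfalso; simp at hne; done) |
        (exfalso; nlinarith [sq_nonneg z])
    have h0 : 2 * (x : ℝ) + y ≤ 4 := by exact_mod_cast h0
    simp [cA, cB, cC]; linarith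
  · have h0 : 2 * x + y ≤ 3 := by nlinarith [sq_nonneg z, sq_nonneg (x - 1), sq_nonneg (y - 1)]
    have h0 : 2 * (x : ℝ) + y ≤ 3 := by exact_mod_cast h0
    simp [cA, cB, cC]; linarith
  · have h0 : 2 * x + y ≤ 2 := by nlinarith [sq_nonneg z, sq_nonneg (x - y)]
    have h0 : 2 * (x : ℝ) + y ≤ 2 := by exact_mod_cast h0
    simp [cA, cB, cC]; linarith
  · have h0 : 2 * x + y ≤ 2 := by nlinarith [sq_nonneg z, sq_nonneg (x - y)]
    have h0 : 2 * (x : ℝ) + y ≤ 2 := by exact_mod_cast h0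
    simp [cA, cB, cC]; linarith
  · simp [cA, cB, cC]; norm_num

theorem smF : Sm iF (3, ![1, 1, 1], 0) := by
  intro k hk
  obtain ⟨x, y, z, hx, hy, hz, hq, a1, a2, b1, b2, c1, c2⟩ := up_cases k
  rw [isF.val, val_eq, hx, hy, hz]
  rcases ht : k.t with ⟨t, htt⟩
  rw [ht] at hq
  have hne : ¬ (t = 1 ∧ x = 1 ∧ y = 1 ∧ z = 1) := by
    rintro ⟨h1, h2, h3, h4⟩
    subst h1
    apply hk
    exact Is.eq ⟨ht, by rw [hx, h2], by rw [hy, h3], by rw [hz, h4]⟩ isF
  interval_cases t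
  all_goals simp [cN] at hq hne
  · have h0 : x + y + z ≤ 3 := by
      nlinarith [sq_nonneg (x - y), sq_nonneg (y - z), sq_nonneg (x - z)]
    have h0 : (x : ℝ) + y + z ≤ 3 := by exact_mod_cast h0
    simp [cA, cB, cC]; linarith
  · have h0 : x + y + z ≤ 2 := by
      interval_cases x <;> interval_cases y <;> interval_cases z <;> omega
    have h0 : (x : ℝ) + y + z ≤ 2 := by exact_mod_cast h0
    simp [cA, cB, cC]; linarith
  · have h0 : x + y + z ≤ 1 := by
      nlinarith [sq_nonneg (x - y), sq_nonneg (y - z), sq_nonneg (x - z)]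
    have h0 : (x : ℝ) + y + z ≤ 1 := by exact_mod_cast h0
    simp [cA, cB, cC]; linarith
  · have h0 : x + y + z ≤ 1 := by
      nlinarith [sq_nonneg (x - y), sq_nonneg (y - z), sq_nonneg (x - z)]
    have h0 : (x : ℝ) + y + z ≤ 1 := by exact_mod_cast h0
    simp [cA, cB, cC]; linarith
  · simp [cA, cB, cC]; norm_num

theorem smM : Sm iM (2, ![1, 0, 0], 1) := by
  intro k hk
  obtain ⟨x, y, z, hx, hy, hz, hq, a1, a2, b1, b2, c1, c2⟩ := up_cases k
  rw [isM.val, val_eq, hx, hy, hz]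
  rcases ht : k.t with ⟨t, htt⟩
  rw [ht] at hq
  have hne : ¬ (t = 2 ∧ x = 1) := by
    rintro ⟨h1, h2⟩
    subst h1
    apply hk
    have hy0 : y = 0 := by simp [cN] at hq; nlinarith
    have hz0 : z = 0 := by simp [cN] at hq; nlinarith
    exact Is.eq ⟨ht, by rw [hx, h2], by rw [hy, hy0], by rw [hz, hz0]⟩ isM
  interval_cases t
  all_goals simp [cN] at hq hne
  · have h0 : (x : ℝ) ≤ 2 := by exact_mod_cast a2
    simp [cA, cB, cC]; linarith
  · have h0 : x ≤ 1 := by nlinarith [sq_nonneg y, sq_nonneg z]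
    have h0 : (x : ℝ) ≤ 1 := by exact_mod_cast h0
    simp [cA, cB, cC]; linarith
  · have h0 : x ≤ 0 := by
      have : x ≤ 1 := by nlinarith [sq_nonneg y, sq_nonneg z]
      omega
    have h0 : (x : ℝ) ≤ 0 := by exact_mod_cast h0
    simp [cA, cB, cC]; linarith
  · have h0 : x ≤ 1 := by nlinarith [sq_nonneg y, sq_nonneg z]
    have h0 : (x : ℝ) ≤ 1 := by exact_mod_cast h0
    simp [cA, cB, cC]; linarith
  · simp [cA, cB, cC]; norm_num

theorem smT : Sm iT (1, ![0, 0, 0], 1) := by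
  intro k hk
  rw [isT.val, val_eq]
  rcases ht : k.t with ⟨t, htt⟩
  have hne : ¬ (t = 4) := by
    intro h1
    subst h1
    apply hk
    obtain ⟨x, y, z, hx, hy, hz, hq, -⟩ := up_cases k
    rw [ht] at hq
    simp [cN] at hq
    have hx0 : x = 0 := by nlinarith [sq_nonneg x, sq_nonneg y, sq_nonneg z]
    have hy0 : y = 0 := by nlinarith [sq_nonneg x, sq_nonneg y, sq_nonneg z]
    have hz0 : z = 0 := by nlinarith [sq_nonneg x, sq_nonneg y, sq_nonneg z]
    exact Is.eq ⟨ht, by rw [hx, hx0], by rw [hy, hy0], by rw [hz, hz0]⟩ isT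
  interval_cases t
  all_goals first | (exact absurd rfl hne) | (simp [cA, cB, cC]; norm_num)

theorem exists_canon (q : Up) : ∃ g : SP, g.actU q = iE ∨ g.actU q = iF ∨ g.actU q = iM ∨
    g.actU q = iU ∨ g.actU q = iT := by
  obtain ⟨g, h1, h2, h3⟩ := exists_sort (fun j => (q.p j : ℝ))
  have hc : ∀ j, g.actR (fun j => (q.p j : ℝ)) j = ((g.actZ q.p j : ℤ) : ℝ) := by
    intro j; simp [SP.actR, SP.actZ]
  rw [hc, hc] at h1 h2
  rw [hc] at h3
  have h1' : g.actZ q.p 1 ≤ g.actZ q.p 0 := by exact_mod_cast h1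
  have h2' : g.actZ q.p 2 ≤ g.actZ q.p 1 := by exact_mod_cast h2
  have h3' : 0 ≤ g.actZ q.p 2 := by exact_mod_cast h3
  refine ⟨g, ?_⟩
  obtain ⟨x, y, z, hx, hy, hz, hq, a1, a2, b1, b2, c1, c2⟩ := up_cases (g.actU q)
  have hx' : g.actZ q.p 0 = x := hx
  have hy' : g.actZ q.p 1 = y := hy
  have hz' : g.actZ q.p 2 = z := hz
  rw [hx', hy'] at h1'
  rw [hy', hz'] at h2'
  rw [hz'] at h3'
  rcases ht : (g.actU q).t with ⟨t, htt⟩
  rw [ht] at hq
  interval_cases t
  · left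
    have : x = 2 ∧ y = 1 ∧ z = 0 := by
      simp [cN] at hq
      interval_cases x <;> interval_cases y <;> interval_cases z <;> omega
    exact Is.eq ⟨ht, by rw [hx, this.1], by rw [hy, this.2.1], by rw [hz, this.2.2]⟩ isE
  · right; left
    have : x = 1 ∧ y = 1 ∧ z = 1 := by
      simp [cN] at hq
      interval_cases x <;> interval_cases y <;> interval_cases z <;> omega
    exact Is.eq ⟨ht, by rw [hx, this.1], by rw [hy, this.2.1], by rw [hz, this.2.2]⟩ isF
  · right; right; left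
    have : x = 1 ∧ y = 0 ∧ z = 0 := by
      simp [cN] at hq
      interval_cases x <;> interval_cases y <;> interval_cases z <;> omega
    exact Is.eq ⟨ht, by rw [hx, this.1], by rw [hy, this.2.1], by rw [hz, this.2.2]⟩ isM
  · right; right; right; left
    have : x = 1 ∧ y = 0 ∧ z = 0 := by
      simp [cN] at hq
      interval_cases x <;> interval_cases y <;> interval_cases z <;> omega
    exact Is.eq ⟨ht, by rw [hx, this.1], by rw [hy, this.2.1], by rw [hz, this.2.2]⟩ isU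
  · right; right; right; right
    have : x = 0 ∧ y = 0 ∧ z = 0 := by
      simp [cN] at hq
      interval_cases x <;> interval_cases y <;> interval_cases z <;> omega
    exact Is.eq ⟨ht, by rw [hx, this.1], by rw [hy, this.2.1], by rw [hz, this.2.2]⟩ isT

/-- every cell of the cone has a centre and a point -/
theorem exists_star (q : Up) : (∃ N : Pt, Star q N ∧ ((q.t : ℕ) ≤ 2 → N.2.2 = 0)) ∧
    ∃ P : Pt, Cone P ∧ Sm q P := by
  obtain ⟨g, h⟩ := exists_canon q
  have key : ∀ (c : Up) (N P : Pt), g.actU q = c → Star c N → ((c.t : ℕ) ≤ 2 → N.2.2 = 0) →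
      Cone P → Sm c P → (∃ N : Pt, Star q N ∧ ((q.t : ℕ) ≤ 2 → N.2.2 = 0)) ∧
        ∃ P : Pt, Cone P ∧ Sm q P := by
    intro c N P hc hN h0 hP hs
    refine ⟨⟨g.inv.actP N, ?_, ?_⟩, ⟨g.inv.actP P, g.inv.cone_act hP, ?_⟩⟩
    · apply Star.act g
      rw [g.actP_inv, hc]
      exact hN
    · intro h'
      refine h0 ?_
      rw [← hc]; exact h'
    · have := g.inv.sm_act hs
      rw [← hc, g.inv_actU] at this
      exact this
  have cE : Cone (4, ![2, 1, 0], 1) := by
    refine ⟨by norm_num, by norm_num, ?_⟩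
    simp [Fin.sum_univ_three]; norm_num
  have cF : Cone (3, ![1, 1, 1], 0) := by
    refine ⟨by norm_num, by norm_num, ?_⟩
    simp [Fin.sum_univ_three]; norm_num
  have cM : Cone (2, ![1, 0, 0], 1) := by
    refine ⟨by norm_num, by norm_num, ?_⟩
    simp [Fin.sum_univ_three]; norm_num
  have cU : Cone (19 / 8, ![1, 0, 0], 13 / 8) := by
    refine ⟨by norm_num, by norm_num, ?_⟩
    simp [Fin.sum_univ_three]; norm_num
  have cT : Cone (1, ![0, 0, 0], 1) := by
    refine ⟨by norm_num, by norm_num, ?_⟩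
    simp [Fin.sum_univ_three]
  rcases h with h | h | h | h | h
  · exact key iE _ _ h starE (fun _ => rfl) cE smE
  · exact key iF _ _ h starF (fun _ => rfl) cF smF
  · exact key iM _ _ h starM (fun _ => rfl) cM smM
  · exact key iU _ _ h starU (fun h => absurd h (by decide)) cU smU
  · exact key iT _ _ h starT (fun h => absurd h (by decide)) cT smT

/-! ### Back to physical space -/

/-- the map from the cone to physical space -/
noncomputable def Ph (s : ℝ) (P : Pt) : E3 :=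
  let m := (338 / 55) / (P.1 + (P.2.1 0 + P.2.1 1 + P.2.1 2))
  let u := (P.2.1 0 + P.2.1 1 + P.2.1 2) / 3
  !₂[m * (P.2.1 0 - u + s * P.2.2 / 3), m * (P.2.1 1 - u + s * P.2.2 / 3),
    m * (P.2.1 2 - u + s * P.2.2 / 3)]

theorem Ph_pt {Y : E3} {s : ℝ} (hs : s * |zz Y| = zz Y) : Ph s (pt Y) = Y := by
  have h1 : SS Y + (xx Y 0 + xx Y 1 + xx Y 2) = 338 / 55 := by
    unfold SS xx xi zz; ring
  have h2 : (xx Y 0 + xx Y 1 + xx Y 2) / 3 = xi Y := by
    unfold xx zz; ring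
  unfold Ph pt
  simp only
  rw [h1, h2, hs]
  ext j
  fin_cases j
  · simp [xx]; ring
  · simp [xx]; ring
  · simp [xx]; ring

theorem Ph_smul {P : Pt} {s α : ℝ} (hα : 0 < α) : Ph s (α • P) = Ph s P := by
  unfold Ph
  simp only [Prod.smul_fst, Prod.smul_snd, Pi.smul_apply, smul_eq_mul]
  by_cases h : P.1 + (P.2.1 0 + P.2.1 1 + P.2.1 2) = 0
  · have h' : α * P.1 + (α * P.2.1 0 + α * P.2.1 1 + α * P.2.1 2) = 0 := by
      have : α * P.1 + (α * P.2.1 0 + α * P.2.1 1 + α * P.2.1 2) =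
        α * (P.1 + (P.2.1 0 + P.2.1 1 + P.2.1 2)) := by ring
      rw [this, h, mul_zero]
    rw [h, h']; simp
  · have h' : α * P.1 + (α * P.2.1 0 + α * P.2.1 1 + α * P.2.1 2) =
        α * (P.1 + (P.2.1 0 + P.2.1 1 + P.2.1 2)) := by ring
    rw [h']
    have hα' := hα.ne'
    ext j
    fin_cases j
    · simp; field_simp
    · simp; field_simp
    · simp; field_simp

theorem Ph_w0 {P : Pt} (h : P.2.2 = 0) (s s' : ℝ) : Ph s P = Ph s' P := by
  unfold Ph
  simp [h]

/-- coordinates of the image -/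
theorem pt_Ph {P : Pt} (hP : Cone P) {s : ℝ} (hs : s ^ 2 = 1)
    (hpos : 0 < P.1 + (P.2.1 0 + P.2.1 1 + P.2.1 2)) :
    pt (Ph s P) = ((338 / 55) / (P.1 + (P.2.1 0 + P.2.1 1 + P.2.1 2))) • P ∧
      zz (Ph s P) = ((338 / 55) / (P.1 + (P.2.1 0 + P.2.1 1 + P.2.1 2))) * (s * P.2.2) := by
  obtain ⟨S, x, w⟩ := P
  obtain ⟨h1, h2, h3⟩ := hP
  simp only at h1 h2 h3 hpos ⊢
  rw [Fin.sum_univ_three] at h3
  set T := x 0 + x 1 + x 2 with hT
  set m := (338 / 55) / (S + T) with hm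
  have hm1 : m * (S + T) = 338 / 55 := by rw [hm]; field_simp
  have hm0 : 0 < m := by positivity
  have hz : zz (Ph s (S, x, w)) = m * (s * w) := by
    unfold zz Ph
    simp [← hT, ← hm]
    ring
  have hn : ‖Ph s (S, x, w)‖ ^ 2 = 338 / 55 * (m * (S - T) / 3) := by
    rw [nsq]
    have e0 : ∀ j, Ph s (S, x, w) j = m * (x j - T / 3 + s * w / 3) := by
      intro j
      fin_cases j <;> simp [Ph, ← hT, ← hm]
    rw [e0, e0, e0]
    have e1 : (m * (x 0 - T / 3 + s * w / 3)) ^ 2 + (m * (x 1 - T / 3 + s * w / 3)) ^ 2 +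
        (m * (x 2 - T / 3 + s * w / 3)) ^ 2 =
        m ^ 2 * ((x 0 ^ 2 + x 1 ^ 2 + x 2 ^ 2) - T ^ 2 / 3 + s ^ 2 * w ^ 2 / 3) := by
      rw [hT]; ring
    rw [e1, hs]
    have e2 : (x 0 ^ 2 + x 1 ^ 2 + x 2 ^ 2) + w ^ 2 / 3 = S ^ 2 / 3 := by linarith
    have e3 : m ^ 2 * ((x 0 ^ 2 + x 1 ^ 2 + x 2 ^ 2) - T ^ 2 / 3 + 1 * w ^ 2 / 3) =
        (m * (S + T)) * (m * (S - T)) / 3 := by linear_combination m ^ 2 * e2
    rw [e3, hm1]; ring
  have hxi : xi (Ph s (S, x, w)) = m * T / 3 := by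
    unfold xi
    rw [hn]
    linear_combination -(1 / 6) * hm1
  refine ⟨?_, hz⟩
  unfold pt
  ext
  · show SS (Ph s (S, x, w)) = m * S
    unfold SS
    rw [hn]
    linear_combination -(1 / 2) * hm1
  · rename_i j
    show xx (Ph s (S, x, w)) j = m * x j
    unfold xx
    rw [hxi, hz]
    have e0 : Ph s (S, x, w) j = m * (x j - T / 3 + s * w / 3) := by
      fin_cases j <;> simp [Ph, ← hT, ← hm]
    rw [e0]; ring
  · show |zz (Ph s (S, x, w))| = m * w
    rw [hz, abs_mul, abs_of_pos hm0, abs_mul, abs_of_nonneg h2]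
    have : |s| = 1 := by
      have h4 : |s| ^ 2 = 1 := by rw [sq_abs]; exact hs
      nlinarith [abs_nonneg s]
    rw [this, one_mul]

/-- away from the exterior the denominator is positive -/
theorem den_pos {P : Pt} (hP : Cone P) {i : Idx} (hi : i ≠ i0) (hs : Sm i.q P) :
    0 < P.1 + (P.2.1 0 + P.2.1 1 + P.2.1 2) := by
  obtain ⟨S, x, w⟩ := P
  obtain ⟨h1, h2, h3⟩ := hP
  simp only at h1 h2 h3 ⊢
  rw [Fin.sum_univ_three] at h3
  by_contra hn
  push Not at hn
  have e1 : S ^ 2 ≤ (x 0 + x 1 + x 2) ^ 2 := by nlinarith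
  have e2 : (x 0 - x 1) ^ 2 + (x 1 - x 2) ^ 2 + (x 0 - x 2) ^ 2 + w ^ 2 ≤ 0 := by nlinarith
  have a1 : x 0 - x 1 = 0 := by
    have : (x 0 - x 1) ^ 2 = 0 := by
      nlinarith [sq_nonneg (x 0 - x 1), sq_nonneg (x 1 - x 2), sq_nonneg (x 0 - x 2), sq_nonneg w]
    exact pow_eq_zero_iff (two_ne_zero) |>.1 this
  have a2 : x 1 - x 2 = 0 := by
    have : (x 1 - x 2) ^ 2 = 0 := by
      nlinarith [sq_nonneg (x 0 - x 1), sq_nonneg (x 1 - x 2), sq_nonneg (x 0 - x 2), sq_nonneg w]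
    exact pow_eq_zero_iff (two_ne_zero) |>.1 this
  have a3 : w = 0 := by
    have : w ^ 2 = 0 := by
      nlinarith [sq_nonneg (x 0 - x 1), sq_nonneg (x 1 - x 2), sq_nonneg (x 0 - x 2), sq_nonneg w]
    exact pow_eq_zero_iff (two_ne_zero) |>.1 this
  have b1 : x 1 = x 0 := by linarith
  have b2 : x 2 = x 0 := by linarith
  rw [b1, b2, a3] at h3
  rw [b1, b2] at hn
  have b3 : x 0 = -(S / 3) := by
    have : (S - 3 * x 0) * (S + 3 * x 0) = 0 := by nlinarith
    rcases mul_eq_zero.1 this with h | h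
    · exfalso; linarith
    · linarith
  have hq : i.q ≠ i0.q := by
    intro h
    apply hi
    refine Idx.ext' h ?_
    have : (i.q.t : ℕ) ≤ 2 := by rw [h]; decide
    rw [i.h.1 this]; rfl
  have h5 := hs i0.q (Ne.symm hq)
  rw [val_eq, val_eq, a3, b1, b2, b3] at h5
  have h6 := aa_nonneg i hi
  have h7 := aa0
  unfold aa sp at h6 h7
  have h8 : cA i.q.t * S - cB i.q.t * (i.q.p 0 * -(S / 3) + i.q.p 1 * -(S / 3) +
      i.q.p 2 * -(S / 3)) + cC i.q.t * 0 = S * (676 / 165) * ((165 * cA i.q.t +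
        55 * cB i.q.t * (i.q.p 0 + i.q.p 1 + i.q.p 2)) / 676) := by ring
  have h9 : cA i0.q.t * S - cB i0.q.t * (i0.q.p 0 * -(S / 3) + i0.q.p 1 * -(S / 3) +
      i0.q.p 2 * -(S / 3)) + cC i0.q.t * 0 = S * (676 / 165) * ((165 * cA i0.q.t +
        55 * cB i0.q.t * (i0.q.p 0 + i0.q.p 1 + i0.q.p 2)) / 676) := by ring
  rw [h8, h9, h7] at h5
  have : 0 ≤ S * (676 / 165) * ((165 * cA i.q.t +
        55 * cB i.q.t * (i.q.p 0 + i.q.p 1 + i.q.p 2)) / 676) := by positivity
  nlinarith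

theorem sm_smul {q : Up} {P : Pt} {m : ℝ} (hm : 0 < m) (h : Sm q P) : Sm q (m • P) := by
  have e : ∀ k, val k (m • P) = m * val k P := by
    intro k
    unfold val
    simp only [Prod.smul_fst, Prod.smul_snd, Pi.smul_apply, smul_eq_mul, Fin.sum_univ_three]
    ring
  intro k hk
  rw [e, e]
  exact mul_lt_mul_of_pos_left (h k hk) hm

theorem sign_lemma (i : Idx) : ∀ (s : ℝ), s ^ 2 = 1 → (i.s ≠ 0 → s = (i.s : ℝ)) → ∀ P : Pt,
    Cone P → Sm i.q P → i ≠ i0 → Ph s P ∈ Cell i := by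
  intro s hs hsi P hP hsm hi
  have hd := den_pos hP hi hsm
  obtain ⟨h1, h2⟩ := pt_Ph hP hs hd
  refine ⟨?_, ?_⟩
  · rw [h1]
    exact sm_smul (by positivity) hsm
  · by_cases h0 : i.s = 0
    · exact Or.inl h0
    · right
      have hw : 0 < P.2.2 := by
        refine lt_of_le_of_ne hP.2.1 fun h => h0 ?_
        exact i.h.1 (t_le_of_mn hP h.symm hsm.mn)
      rw [h2, hsi h0]
      have hm : 0 < 338 / 55 / (P.1 + (P.2.1 0 + P.2.1 1 + P.2.1 2)) := by positivity
      rcases hs' : i.s with _ | _ | _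
      · exact absurd hs' h0
      · rw [sign_neg]
        · rfl
        · have : ((SignType.neg : SignType) : ℝ) = -1 := by norm_num
          rw [this]
          nlinarith
      · rw [sign_pos]
        · rfl
        · have : ((SignType.pos : SignType) : ℝ) = 1 := by norm_num
          rw [this]
          positivity

theorem cell_nonempty (i : Idx) (hi : i ≠ i0) : (Cell i).Nonempty := by
  obtain ⟨P, hP, hs⟩ := (exists_star i.q).2
  by_cases h0 : i.s = 0
  · exact ⟨_, sign_lemma i 1 (by norm_num) (fun h => absurd h0 h) P hP hs hi⟩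
  · refine ⟨_, sign_lemma i (i.s : ℝ) ?_ (fun _ => rfl) P hP hs hi⟩
    rcases hs' : i.s with _ | _ | _
    · exact absurd hs' h0
    · norm_num
    · norm_num

theorem cell_conn (i : Idx) (hi : i ≠ i0) : IsConnected (Cell i) := by
  refine ⟨cell_nonempty i hi, ?_⟩
  obtain ⟨N, hN, hN0⟩ := (exists_star i.q).1
  -- the sign of a point
  have hsg : ∀ Y ∈ Cell i, ∃ s : ℝ, s ^ 2 = 1 ∧ (i.s ≠ 0 → s = (i.s : ℝ)) ∧ s * |zz Y| = zz Y := by
    intro Y hY
    by_cases h0 : i.s = 0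
    · rcases le_total 0 (zz Y) with h | h
      · exact ⟨1, by norm_num, fun h' => absurd h0 h', by rw [abs_of_nonneg h, one_mul]⟩
      · exact ⟨-1, by norm_num, fun h' => absurd h0 h', by rw [abs_of_nonpos h]; ring⟩
    · refine ⟨(i.s : ℝ), ?_, fun _ => rfl, ?_⟩
      · rcases hs' : i.s with _ | _ | _
        · exact absurd hs' h0
        · norm_num
        · norm_num
      · rw [← hY.2.resolve_left h0, sign_mul_abs]
  set s0 : ℝ := if i.s = 0 then 1 else (i.s : ℝ) with hs0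
  have hbase : ∀ s : ℝ, (i.s ≠ 0 → s = (i.s : ℝ)) → Ph s N = Ph s0 N := by
    intro s hs
    by_cases h0 : i.s = 0
    · exact Ph_w0 (hN0 (i.h.2 h0)) _ _
    · rw [hs0, if_neg h0, hs h0]
  refine isPreconnected_of_forall (Ph s0 N) fun Y hY => ?_
  obtain ⟨s, hs1, hs2, hs3⟩ := hsg Y hY
  obtain ⟨γ, hγc, hγ, hγ1, α, hα, hγ0⟩ := hN (pt Y) (cone_pt Y) hY.1
  have hcont : ContinuousOn (fun t => Ph s (γ t)) (Icc (0 : ℝ) 1) := by
    intro t ht
    have hd := den_pos (hγ t ht).1 hi (hγ t ht).2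
    refine ContinuousAt.continuousWithinAt ?_
    have e1 : Continuous fun t => (γ t).1 := continuous_fst.comp hγc
    have e2 : Continuous fun t => (γ t).2.1 := continuous_fst.comp (continuous_snd.comp hγc)
    have e3 : Continuous fun t => (γ t).2.2 := continuous_snd.comp (continuous_snd.comp hγc)
    have e4 : ∀ j, Continuous fun t => (γ t).2.1 j := fun j => (continuous_apply j).comp e2
    have e40 := e4 0
    have e41 := e4 1
    have e42 := e4 2
    unfold Ph
    simp only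
    have hcd : ContinuousAt (fun t => 338 / 55 / ((γ t).1 + ((γ t).2.1 0 + (γ t).2.1 1 +
        (γ t).2.1 2))) t :=
      continuousAt_const.div (by fun_prop) hd.ne'
    refine (PiLp.continuous_toLp 2 _).continuousAt.comp (f := fun t => ![_, _, _]) ?_
    refine continuousAt_pi.2 fun j => ?_
    fin_cases j
    · exact hcd.mul (by fun_prop)
    · exact hcd.mul (by fun_prop)
    · exact hcd.mul (by fun_prop)
  refine ⟨(fun t => Ph s (γ t)) '' Icc (0 : ℝ) 1, ?_, ?_, ?_, ?_⟩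
  · rintro _ ⟨t, ht, rfl⟩
    exact sign_lemma i s hs1 hs2 _ (hγ t ht).1 (hγ t ht).2 hi
  · refine ⟨0, ⟨le_rfl, zero_le_one⟩, ?_⟩
    show Ph s (γ 0) = _
    rw [hγ0, Ph_smul hα, hbase s hs2]
  · refine ⟨1, ⟨zero_le_one, le_rfl⟩, ?_⟩
    show Ph s (γ 1) = _
    rw [hγ1, Ph_pt hs3]
  · exact isPreconnected_Icc.image _ hcont

theorem isCluster : IsCluster Om where
  isOpen i := isOpen_cell i.1
  conn i := cell_conn i.1 i.2
  bounded i := (ms_bdd i.1 i.2).subset (cell_sub _)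
  pos i := (isOpen_cell i.1).measure_pos _ (cell_nonempty i.1 i.2)
  fin i := ((ms_bdd i.1 i.2).subset (cell_sub _)).measure_lt_top
  disj i j hij := by
    rw [Set.disjoint_left]
    intro Y h1 h2
    exact hij (Subtype.ext (cell_disj h1 (cell_sub _ h2)))

end Pool.Agent.J6H64.KU
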