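import Mathlib

/-!
# Clusters with spherical interfaces, Plateau's laws and the index form

Definitions for the question of Kusner. A cluster is a finite family of connected open bounded cells
of `ℝ³`; the exterior is the complement of the closure of their union. `Plateau` is the local form
of Plateau's laws, `RoundData` records the spheres and planes which contain the interfaces, `index`
is the second variation of area (index form).
-/

set_option autoImplicit false

open MeasureTheory Set Filter Topology
open scoped RealInnerProductSpace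

namespace Pool.Agent.J6H64.KU

/-- Euclidean space of dimension 3. -/
abbrev E3 := EuclideanSpace ℝ (Fin 3)

variable {ι : Type}

/-- All cells of the cluster with bounded cells `Ω i`; `none` is the exterior, the complement of the
closure of the union of the bounded cells. -/
def cells (Ω : ι → Set E3) : Option ι → Set E3
  | none => (closure (⋃ i, Ω i))ᶜ
  | some i => Ω i

/-- The interface of two cells: the points of both boundaries. -/
def iface (Ω : ι → Set E3) (a b : Option ι) : Set E3 :=
  frontier (cells Ω a) ∩ frontier (cells Ω b)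

/-- A cluster: pairwise disjoint connected open bounded cells of finite positive volume. -/
structure IsCluster (Ω : ι → Set E3) : Prop where
  isOpen : ∀ i, IsOpen (Ω i)
  conn : ∀ i, IsConnected (Ω i)
  bounded : ∀ i, Bornology.IsBounded (Ω i)
  pos : ∀ i, 0 < volume (Ω i)
  fin : ∀ i, volume (Ω i) < ⊤
  disj : ∀ i j, i ≠ j → Disjoint (Ω i) (Ω j)

/-- Plateau's laws. Near every point `x` there is a smooth change of coordinates `ψ` (with
`ψ x = 0` and derivative the identity at `x`) which maps the cells near `x`, indexed by `S`, to the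
cells `{v | ⟪a i, v⟫ < ⟪a j, v⟫ for all j ≠ i}` of the cone of a regular simplex `a` of edge 1:
`|S| = 1` for points inside a cell, `|S| = 2` for smooth points of the interfaces (the cone is a
plane), `|S| = 3` for points where three interfaces meet at 120° along a smooth curve, `|S| = 4`
for points where four such curves meet at the tetrahedral angles. -/
def Plateau (Ω : ι → Set E3) : Prop :=
  ∀ x : E3, ∃ (S : Finset (Option ι)) (a : Option ι → E3) (ψ : E3 → E3),
    S.Nonempty ∧ S.card ≤ 4 ∧ (∀ i ∈ S, ∀ j ∈ S, i ≠ j → ‖a i - a j‖ = 1) ∧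
    ContDiff ℝ (⊤ : ℕ∞) ψ ∧ ψ x = 0 ∧ HasFDerivAt ψ (ContinuousLinearMap.id ℝ E3) x ∧
    ∃ U ∈ 𝓝 x, (∀ y ∈ U, ∀ i ∈ S,
        (y ∈ cells Ω i ↔ ∀ j ∈ S, j ≠ i → ⟪a i, ψ y⟫ < ⟪a j, ψ y⟫)) ∧
      ∀ i ∉ S, Disjoint U (cells Ω i)

/-- The spheres and planes which contain the interfaces. For `a ≠ b` the interface of `a` and `b`
is contained in the zero set of `α ‖x‖² / 2 + ⟪β, x⟫ + γ`, where `‖β‖² - 2 α γ = 1`: this is a
plane with unit normal `β` if `α = 0`, and the sphere of radius `1 / |α|` with centre `-β / α`
otherwise. On this surface `β + α x` is a unit normal, and the curvature with respect to it is `α`.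
The normal `β + α x` points from the cell `a` to the cell `b`. The cluster is stationary: the
curvatures are half the differences of the pressures `p`. -/
structure RoundData (Ω : ι → Set E3) where
  α : Option ι → Option ι → ℝ
  β : Option ι → Option ι → E3
  γ : Option ι → Option ι → ℝ
  p : Option ι → ℝ
  unit : ∀ a b, a ≠ b → (iface Ω a b).Nonempty → ‖β a b‖ ^ 2 - 2 * α a b * γ a b = 1
  zero : ∀ a b, a ≠ b → ∀ x ∈ iface Ω a b, α a b / 2 * ‖x‖ ^ 2 + ⟪β a b, x⟫ + γ a b = 0
  side : ∀ a b, a ≠ b → ∀ x ∈ iface Ω a b, ∀ᶠ t in 𝓝[>] (0 : ℝ),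
    x + t • (β a b + α a b • x) ∈ cells Ω b ∧ x - t • (β a b + α a b • x) ∈ cells Ω a
  pressure : ∀ a b, 2 * α a b = p a - p b

variable {Ω : ι → Set E3}

/-- The unit normal of the interface of `a` and `b` at `x`, pointing from `a` to `b`. -/
def RoundData.n (D : RoundData Ω) (a b : Option ι) (x : E3) : E3 := D.β a b + D.α a b • x

/-- `f a b` are the normal components of the vector field `X` on the interfaces: `f` is a family of
smooth functions on `ℝ³` with `f a b = ⟪X, n_ab⟫` on the interface of `a` and `b`. -/
def RoundData.IsNormalPart (D : RoundData Ω) (X : E3 → E3) (f : Option ι → Option ι → E3 → ℝ) :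
    Prop :=
  (∀ a b, ContDiff ℝ (⊤ : ℕ∞) (f a b)) ∧
    ∀ a b, a ≠ b → ∀ x ∈ iface Ω a b, f a b x = ⟪X x, D.n a b x⟫

/-- The square of the length of the gradient of `f a b` along the interface of `a` and `b`. -/
noncomputable def RoundData.gradSq (D : RoundData Ω) (f : Option ι → Option ι → E3 → ℝ)
    (a b : Option ι) (x : E3) : ℝ :=
  ‖gradient (f a b) x‖ ^ 2 - ⟪gradient (f a b) x, D.n a b x⟫ ^ 2

open Classical in
/-- The derivative of the volume of the cell `a` under a deformation of `ℝ³` whose velocity has the
normal components `f`. -/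
noncomputable def flux [Fintype ι] (Ω : ι → Set E3) (f : Option ι → Option ι → E3 → ℝ)
    (a : Option ι) : ℝ :=
  ∑ b : Option ι, if a = b then 0 else ∫ x in iface Ω a b, f a b x ∂μHE[2]

open Classical in
/-- The index form (second variation of area, the volumes being fixed) of a deformation whose
velocity has the normal components `f`: the sum over all interfaces of `∫ |∇ f_ab|² - |II|² f_ab²`
minus the sum over all triples of cells `a, b, c` of the integral over their common curve of
`q_ab f_ab² + q_bc f_bc² + q_ca f_ca²`, where `q_ab = (κ_ac + κ_bc) / √3` (Hutchings, Morgan,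
Ritoré and Ros, Proof of the double bubble conjecture, Ann. of Math. 155 (2002)). Here
`|II|² = 2 α_ab²`, `κ_ab = α_ab`; the sums are over ordered pairs and triples, hence the
factors `1 / 2`. -/
noncomputable def RoundData.index [Fintype ι] (D : RoundData Ω)
    (f : Option ι → Option ι → E3 → ℝ) : ℝ :=
  (1 / 2) * (∑ a : Option ι, ∑ b : Option ι, if a = b then 0 else
      ∫ x in iface Ω a b, (D.gradSq f a b x - 2 * D.α a b ^ 2 * f a b x ^ 2) ∂μHE[2]) -
  (1 / 2) * (∑ a : Option ι, ∑ b : Option ι, ∑ c : Option ι,
      if a = b ∨ b = c ∨ c = a then 0 else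
      ∫ x in iface Ω a b ∩ iface Ω b c, (D.α a c + D.α b c) / √3 * f a b x ^ 2 ∂μHE[1])

end Pool.Agent.J6H64.KU
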