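import Pool.Agent.H784R3.TaskA1
import Pool.Agent.J6H64.KU.Defs

set_option autoImplicit false
set_option maxHeartbeats 4000000

open MeasureTheory Set Filter Topology
open scoped ENNReal NNReal

namespace Pool.Agent.J6H64.KU

open Pool.Agent.H934R3.NP (P2 Gr)
open Pool.Agent.H784R3.NPA1 (J cont_J one_le_J emb area)

theorem kap : ∃ κ : ℝ≥0, (μHE[2] : Measure E3) = κ • (μH[2] : Measure E3) ∧
    (volume : Measure P2) = κ • (μH[2] : Measure P2) := by
  refine ⟨Measure.addHaarScalarFactor (volume : Measure (EuclideanSpace ℝ (Fin 2))) μH[(2 : ℕ)],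
    ?_, ?_⟩
  · rw [Measure.euclideanHausdorffMeasure_def]
    norm_num
  · have h := EuclideanSpace.euclideanHausdorffMeasure_eq_volume 2
    rw [Measure.euclideanHausdorffMeasure_def] at h
    have h3 : (μH[((2 : ℕ) : ℝ)] : Measure P2) = μH[2] := by norm_num
    exact h.symm.trans (congrArg (fun m : Measure P2 => _ • m) h3)

/-- integrals over graphs -/
theorem int_graph {f : P2 → ℝ} (hf : ContDiff ℝ 1 f) (F : E3 → ℝ) {D : Set P2}
    (hD : MeasurableSet D) :
    ∫ x in Gr f '' D, F x ∂μHE[2] = ∫ u in D, F (Gr f u) * J f u := by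
  obtain ⟨κ, h1, h2⟩ := kap
  have hm : MeasurableSet (Gr f '' D) := (emb hf).measurableSet_image' hD
  rw [h1, Measure.restrict_smul, integral_smul_nnreal_measure, h2, Measure.restrict_smul,
    integral_smul_nnreal_measure]
  congr 1
  have e1 : (μH[2] : Measure E3).restrict (Gr f '' D) =
      ((Measure.comap (Gr f) μH[2]).restrict D).map (Gr f) := by
    have h3 : (Measure.map (Gr f) (Measure.comap (Gr f) (μH[2] : Measure E3))).restrict
        (Gr f '' D) = ((Measure.comap (Gr f) μH[2]).restrict ((Gr f) ⁻¹' (Gr f '' D))).map (Gr f) :=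
      (emb hf).restrict_map _ _
    rw [preimage_image_eq _ (emb hf).injective, (emb hf).map_comap,
      Measure.restrict_restrict hm, inter_eq_left.2 (image_subset_range _ _)] at h3
    exact h3
  rw [e1, (emb hf).integral_map, area hf]
  have hJm : Measurable (fun u => (J f u).toNNReal) := (cont_J hf).measurable.real_toNNReal
  have e2 : (μH[2] : Measure P2).withDensity (fun u => ENNReal.ofReal (J f u)) =
      (μH[2] : Measure P2).withDensity (fun u => ((J f u).toNNReal : ℝ≥0∞)) := rfl
  rw [e2, restrict_withDensity hD, integral_withDensity_eq_integral_smul hJm]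
  refine integral_congr_ae (Eventually.of_forall fun u => ?_)
  simp only
  rw [NNReal.smul_def, smul_eq_mul, Real.coe_toNNReal _ (le_trans zero_le_one (one_le_J f u)),
    mul_comm]

/-- integrals and isometries -/
theorem int_isom (d : ℕ) (e : E3 ≃ᵢ E3) (F : E3 → ℝ) (A : Set E3) :
    ∫ x in e '' A, F x ∂μHE[d] = ∫ x in A, F (e x) ∂μHE[d] := by
  have h := (e.measurePreserving_euclideanHausdorffMeasure d)
  have h2 : MeasurableEmbedding (e : E3 → E3) := e.toHomeomorph.measurableEmbedding
  rw [← h.setIntegral_preimage_emb h2, preimage_image_eq _ e.injective]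

/-! ### The rotation -/

theorem r2 : (√2 : ℝ) ^ 2 = 2 := Real.sq_sqrt (by norm_num)
theorem r3 : (√3 : ℝ) ^ 2 = 3 := Real.sq_sqrt (by norm_num)
theorem r6 : (√6 : ℝ) ^ 2 = 6 := Real.sq_sqrt (by norm_num)
theorem p2 : (0 : ℝ) < √2 := by positivity
theorem p3 : (0 : ℝ) < √3 := by positivity
theorem p6 : (0 : ℝ) < √6 := by positivity

/-- the rotation which maps the third axis to the diagonal -/
noncomputable def Rot : E3 ≃ᵢ E3 :=
  IsometryEquiv.mk'
    (fun X => !₂[X 0 / √2 + X 1 / √6 + X 2 / √3, -(X 0 / √2) + X 1 / √6 + X 2 / √3,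
      -(2 * X 1 / √6) + X 2 / √3])
    (fun Y => !₂[(Y 0 - Y 1) / √2, (Y 0 + Y 1 - 2 * Y 2) / √6, (Y 0 + Y 1 + Y 2) / √3])
    (by
      intro Y
      have := r2; have := r3; have := r6
      have := p2.ne'; have := p3.ne'; have := p6.ne'
      ext j
      fin_cases j
      · simp; field_simp; rw [r2, r3, r6]; ring
      · simp; field_simp; rw [r2, r3, r6]; ring
      · simp; field_simp; rw [r3, r6]; ring)
    (by
      apply Isometry.of_dist_eq
      intro X Y
      have := r2; have := r3; have := r6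
      have := p2.ne'; have := p3.ne'; have := p6.ne'
      rw [EuclideanSpace.dist_eq, EuclideanSpace.dist_eq]
      congr 1
      rw [Fin.sum_univ_three, Fin.sum_univ_three]
      simp only [Real.dist_eq, sq_abs]
      simp
      field_simp
      ring_nf
      simp only [r2, r3, r6]
      ring)

theorem rot0 (X : E3) : Rot X 0 = X 0 / √2 + X 1 / √6 + X 2 / √3 := rfl
theorem rot1 (X : E3) : Rot X 1 = -(X 0 / √2) + X 1 / √6 + X 2 / √3 := rfl
theorem rot2 (X : E3) : Rot X 2 = -(2 * X 1 / √6) + X 2 / √3 := rfl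
theorem rots (Y : E3) : Rot.symm Y =
  !₂[(Y 0 - Y 1) / √2, (Y 0 + Y 1 - 2 * Y 2) / √6, (Y 0 + Y 1 + Y 2) / √3] := rfl

/-! ### Radial integrals -/

theorem int_radial (f : ℝ → ℝ) : ∫ u : P2, f ‖u‖ = 2 * Real.pi * ∫ y in Ioi (0 : ℝ), y * f y := by
  rw [integral_fun_norm_addHaar (volume : Measure P2) f]
  have h1 : Module.finrank ℝ P2 = 2 := by simp
  have h2 : (volume : Measure P2).real (Metric.ball 0 1) = Real.pi := by
    rw [Measure.real, EuclideanSpace.volume_ball_fin_two]
    simp [Real.pi_pos.le]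
  rw [h1, h2]
  simp only [nsmul_eq_mul, smul_eq_mul, Nat.add_one_sub_one, pow_one]
  push_cast
  ring

end Pool.Agent.J6H64.KU
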