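import Pool.Agent.J6H64.KU.Conn2
import Pool.Agent.J6H64.KU.Meas

set_option autoImplicit false
set_option maxHeartbeats 4000000

open MeasureTheory Set Filter Topology

namespace Pool.Agent.J6H64.KU

/-! ### The special cells -/

def iP : Idx := ⟨(mk 1 1 1 1 (by decide), 0), by decide⟩
def iTp : Idx := ⟨(mk 4 0 0 0 (by decide), 1), by decide⟩
def iTm : Idx := ⟨(mk 4 0 0 0 (by decide), -1), by decide⟩
def iE0 : Idx := ⟨(mk 0 2 1 0 (by decide), 0), by decide⟩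

/-! ### Symmetries -/

/-- a permutation as a signed permutation -/
def pm (e : Equiv.Perm (Fin 3)) : SP := ⟨e, fun _ => 1, fun _ => rfl⟩

/-- the permuted index -/
def actI (e : Equiv.Perm (Fin 3)) (i : Idx) : Idx := ⟨((pm e).actU i.q, i.s), i.2⟩

/-- the reflected index -/
def neg (i : Idx) : Idx := ⟨(i.q, -i.s), by
  show (i.q.t : ℕ) ≤ 2 ↔ -i.s = 0
  rw [neg_eq_zero_iff]; exact i.h⟩
where
  neg_eq_zero_iff {s : SignType} : -s = 0 ↔ s = 0 := by cases s <;> decide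

theorem neg_neg' (i : Idx) : neg (neg i) = i := by
  refine Idx.ext' rfl ?_
  show - -i.s = i.s
  exact neg_neg _

/-- the permutation of the coordinates -/
noncomputable def PE (e : Equiv.Perm (Fin 3)) : E3 ≃ᵢ E3 :=
  (LinearIsometryEquiv.piLpCongrLeft 2 ℝ ℝ e.symm).toIsometryEquiv

theorem PE_apply (e : Equiv.Perm (Fin 3)) (Y : E3) (j : Fin 3) : PE e Y j = Y (e j) := by
  simp [PE]

/-- the reflection -/
noncomputable def RE : E3 ≃ᵢ E3 :=
  IsometryEquiv.mk'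
    (fun Y => !₂[Y 0 - 2 / 3 * zz Y, Y 1 - 2 / 3 * zz Y, Y 2 - 2 / 3 * zz Y])
    (fun Y => !₂[Y 0 - 2 / 3 * zz Y, Y 1 - 2 / 3 * zz Y, Y 2 - 2 / 3 * zz Y])
    (by
      intro Y
      ext j
      fin_cases j
      · simp [zz]; ring
      · simp [zz]; ring
      · simp [zz]; ring)
    (by
      apply Isometry.of_dist_eq
      intro X Y
      rw [EuclideanSpace.dist_eq, EuclideanSpace.dist_eq]
      congr 1
      rw [Fin.sum_univ_three, Fin.sum_univ_three]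
      simp only [Real.dist_eq, sq_abs]
      simp [zz]
      ring)

theorem RE_apply (Y : E3) (j : Fin 3) : RE Y j = Y j - 2 / 3 * zz Y := by
  fin_cases j <;> rfl

theorem zz_RE (Y : E3) : zz (RE Y) = -zz Y := by
  have h : zz (RE Y) = RE Y 0 + RE Y 1 + RE Y 2 := rfl
  rw [h, RE_apply, RE_apply, RE_apply]; unfold zz; ring

theorem norm_RE (Y : E3) : ‖RE Y‖ ^ 2 = ‖Y‖ ^ 2 := by
  rw [nsq, nsq, RE_apply, RE_apply, RE_apply]; unfold zz; ring

theorem zz_PE (e : Equiv.Perm (Fin 3)) (Y : E3) : zz (PE e Y) = zz Y := by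
  have h : ∀ Y : E3, zz Y = ∑ j, Y j := by intro Y; rw [Fin.sum_univ_three]; rfl
  rw [h, h]
  simp_rw [PE_apply]
  exact Equiv.sum_comp e (fun j => Y j)

theorem norm_PE (e : Equiv.Perm (Fin 3)) (Y : E3) : ‖PE e Y‖ ^ 2 = ‖Y‖ ^ 2 := by
  rw [EuclideanSpace.real_norm_sq_eq, EuclideanSpace.real_norm_sq_eq]
  simp_rw [PE_apply]
  exact Equiv.sum_comp e (fun j => Y j ^ 2)

theorem pt_PE (e : Equiv.Perm (Fin 3)) (Y : E3) : pt (PE e Y) = (pm e).actP (pt Y) := by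
  unfold pt SP.actP
  refine Prod.ext ?_ (Prod.ext ?_ ?_)
  · show SS (PE e Y) = SS Y
    unfold SS; rw [norm_PE]
  · show xx (PE e Y) = (pm e).actR (xx Y)
    funext j
    show xi (PE e Y) + PE e Y j - zz (PE e Y) / 3 = ((1 : ℤ) : ℝ) * (xi Y + Y (e j) - zz Y / 3)
    rw [PE_apply, zz_PE]
    unfold xi; rw [norm_PE]
    simp
  · show |zz (PE e Y)| = |zz Y|
    rw [zz_PE]

theorem pt_RE (Y : E3) : pt (RE Y) = pt Y := by
  unfold pt
  refine Prod.ext ?_ (Prod.ext ?_ ?_)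
  · show SS (RE Y) = SS Y
    unfold SS; rw [norm_RE]
  · show xx (RE Y) = xx Y
    funext j
    show xi (RE Y) + RE Y j - zz (RE Y) / 3 = xi Y + Y j - zz Y / 3
    rw [RE_apply, zz_RE]
    unfold xi; rw [norm_RE]
    ring
  · show |zz (RE Y)| = |zz Y|
    rw [zz_RE, abs_neg]

theorem ms_PE (e : Equiv.Perm (Fin 3)) (i : Idx) (Y : E3) : PE e Y ∈ MS (actI e i) ↔ Y ∈ MS i := by
  have h1 : Sg (actI e i) (PE e Y) ↔ Sg i Y := by
    unfold Sg; rw [zz_PE]; rfl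
  have h2 : Mn (actI e i).q (pt (PE e Y)) ↔ Mn i.q (pt Y) := by
    rw [pt_PE]
    constructor
    · intro h
      have := (pm e).inv.mn_act h
      rw [(pm e).inv_actP] at this
      have e2 : (pm e).inv.actU (actI e i).q = i.q := (pm e).inv_actU i.q
      rw [e2] at this
      exact this
    · intro h
      exact (pm e).mn_act h
  exact and_congr h2 h1

theorem ms_RE (i : Idx) (Y : E3) : RE Y ∈ MS (neg i) ↔ Y ∈ MS i := by
  have h1 : Sg (neg i) (RE Y) ↔ Sg i Y := by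
    unfold Sg
    rw [zz_RE, Left.sign_neg]
    show -i.s = 0 ∨ -SignType.sign (zz Y) = -i.s ↔ _
    rw [neg.neg_eq_zero_iff, neg_inj]
  have h2 : Mn (neg i).q (pt (RE Y)) ↔ Mn i.q (pt Y) := by
    rw [pt_RE]; rfl
  exact and_congr h2 h1

theorem img_PE (e : Equiv.Perm (Fin 3)) (i : Idx) : PE e '' MS i = MS (actI e i) := by
  ext Y
  constructor
  · rintro ⟨X, hX, rfl⟩; exact (ms_PE e i X).2 hX
  · intro h
    refine ⟨(PE e).symm Y, ?_, (PE e).apply_symm_apply Y⟩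
    rw [← ms_PE e, (PE e).apply_symm_apply]; exact h

theorem img_RE (i : Idx) : RE '' MS i = MS (neg i) := by
  ext Y
  constructor
  · rintro ⟨X, hX, rfl⟩; exact (ms_RE i X).2 hX
  · intro h
    refine ⟨RE.symm Y, ?_, RE.apply_symm_apply Y⟩
    rw [← ms_RE, RE.apply_symm_apply]; exact h

theorem int_PE (e : Equiv.Perm (Fin 3)) (i j : Idx) (F : E3 → ℝ) :
    ∫ x in MS (actI e i) ∩ MS (actI e j), F x ∂μHE[2] = ∫ x in MS i ∩ MS j, F (PE e x) ∂μHE[2] := by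
  rw [← int_isom, image_inter (PE e).injective, img_PE, img_PE]

theorem int_RE (i j : Idx) (F : E3 → ℝ) :
    ∫ x in MS (neg i) ∩ MS (neg j), F x ∂μHE[2] = ∫ x in MS i ∩ MS j, F (RE x) ∂μHE[2] := by
  rw [← int_isom, image_inter RE.injective, img_RE, img_RE]

theorem int_PE1 (e : Equiv.Perm (Fin 3)) (i j l : Idx) (F : E3 → ℝ) :
    ∫ x in (MS (actI e i) ∩ MS (actI e j)) ∩ MS (actI e l), F x ∂μHE[1] =
      ∫ x in (MS i ∩ MS j) ∩ MS l, F (PE e x) ∂μHE[1] := by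
  rw [← int_isom, image_inter (PE e).injective, image_inter (PE e).injective, img_PE, img_PE,
    img_PE]

theorem int_RE1 (i j l : Idx) (F : E3 → ℝ) :
    ∫ x in (MS (neg i) ∩ MS (neg j)) ∩ MS (neg l), F x ∂μHE[1] =
      ∫ x in (MS i ∩ MS j) ∩ MS l, F (RE x) ∂μHE[1] := by
  rw [← int_isom, image_inter RE.injective, image_inter RE.injective, img_RE, img_RE, img_RE]

theorem act_P (e : Equiv.Perm (Fin 3)) : actI e iP = iP := by
  refine Idx.ext' (Up.ext' rfl ?_) rfl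
  funext j
  show (1 : ℤ) * (![1, 1, 1] : Fin 3 → ℤ) (e j) = (![1, 1, 1] : Fin 3 → ℤ) j
  generalize e j = k
  fin_cases j <;> fin_cases k <;> rfl

theorem act_Tp (e : Equiv.Perm (Fin 3)) : actI e iTp = iTp := by
  refine Idx.ext' (Up.ext' rfl ?_) rfl
  funext j
  show (1 : ℤ) * (![0, 0, 0] : Fin 3 → ℤ) (e j) = (![0, 0, 0] : Fin 3 → ℤ) j
  generalize e j = k
  fin_cases j <;> fin_cases k <;> rfl

theorem neg_P : neg iP = iP := Idx.ext' rfl rfl
theorem neg_0 : neg i0 = i0 := Idx.ext' rfl rfl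
theorem neg_Tp : neg iTp = iTm := Idx.ext' rfl rfl
theorem neg_Tm : neg iTm = iTp := Idx.ext' rfl rfl
theorem neg_act (e : Equiv.Perm (Fin 3)) : neg (actI e iE0) = actI e iE0 := Idx.ext' rfl rfl
theorem neg_E0 : neg iE0 = iE0 := Idx.ext' rfl rfl

/-- the walls of `P` -/
def iE' (e : Equiv.Perm (Fin 3)) : Idx := actI e iE0

theorem iE'_inj : Function.Injective iE' := by
  intro e e' h
  have h1 : (iE' e).q.p = (iE' e').q.p := by rw [h]
  have h2 : ∀ j, (![2, 1, 0] : Fin 3 → ℤ) (e j) = (![2, 1, 0] : Fin 3 → ℤ) (e' j) := by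
    intro j
    have := congrFun h1 j
    have e1 : (iE' e).q.p j = (1 : ℤ) * (![2, 1, 0] : Fin 3 → ℤ) (e j) := rfl
    have e2 : (iE' e').q.p j = (1 : ℤ) * (![2, 1, 0] : Fin 3 → ℤ) (e' j) := rfl
    rw [e1, e2, one_mul, one_mul] at this
    exact this
  refine Equiv.ext fun j => ?_
  have h3 := h2 j
  generalize e j = k at *
  generalize e' j = l at *
  fin_cases k <;> fin_cases l <;> first | rfl | (exfalso; simp at h3)

/-! ### Neighbours -/

theorem idx_T {j : Idx} (h : j.q.t = 4) : j = iTp ∨ j = iTm := by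
  have hok := j.q.ok
  rw [h] at hok
  simp only [cN4] at hok
  have h0 : j.q.p 0 = 0 := by
    nlinarith [sq_nonneg (j.q.p 0), sq_nonneg (j.q.p 1), sq_nonneg (j.q.p 2)]
  have h1 : j.q.p 1 = 0 := by
    nlinarith [sq_nonneg (j.q.p 0), sq_nonneg (j.q.p 1), sq_nonneg (j.q.p 2)]
  have h2 : j.q.p 2 = 0 := by
    nlinarith [sq_nonneg (j.q.p 0), sq_nonneg (j.q.p 1), sq_nonneg (j.q.p 2)]
  have hq : j.q = iTp.q := by
    refine Up.ext' h ?_
    funext l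
    fin_cases l
    · exact h0
    · exact h1
    · exact h2
  have hs : j.s ≠ 0 := by
    intro hs
    have := j.h.2 hs
    rw [h] at this
    exact absurd this (by decide)
  rcases hs' : j.s with _ | _ | _
  · exact absurd hs' hs
  · right; exact Idx.ext' hq hs'
  · left; exact Idx.ext' hq hs'

theorem idx_s0 {j : Idx} (h : (j.q.t : ℕ) ≤ 2) : j.s = 0 := j.h.1 h

theorem nbP {j : Idx} {Y : E3} (hP : Y ∈ MS iP) (hj : Y ∈ MS j) (hne : j ≠ iP) :
    j = iTp ∨ j = iTm ∨ ∃ e, j = iE' e := by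
  have h := ms_adj hP hj (Ne.symm hne)
  have h1 : (1 : ℤ) * j.q.p 0 + 1 * j.q.p 1 + 1 * j.q.p 2 = cD 1 j.q.t := h
  obtain ⟨x, y, z, hx, hy, hz, hq, a1, a2, b1, b2, c1, c2⟩ := up_cases j.q
  rw [hx, hy, hz] at h1
  rcases ht : j.q.t with ⟨t, htt⟩
  rw [ht] at h1 hq
  interval_cases t
  · right; right
    have hs : j.s = 0 := idx_s0 (by rw [ht]; exact Nat.zero_le 2)
    simp [cN, cD] at h1 hq
    have key : ∀ (e : Equiv.Perm (Fin 3)), x = (![2, 1, 0] : Fin 3 → ℤ) (e 0) →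
        y = (![2, 1, 0] : Fin 3 → ℤ) (e 1) → z = (![2, 1, 0] : Fin 3 → ℤ) (e 2) → j = iE' e := by
      intro e h0 h1 h2
      refine Idx.ext' (Up.ext' ht ?_) hs
      funext l
      have e1 : (iE' e).q.p l = (1 : ℤ) * (![2, 1, 0] : Fin 3 → ℤ) (e l) := rfl
      rw [e1, one_mul]
      fin_cases l
      · exact hx.trans h0
      · exact hy.trans h1
      · exact hz.trans h2
    have hlist : (x = 2 ∧ y = 1 ∧ z = 0) ∨ (x = 2 ∧ y = 0 ∧ z = 1) ∨ (x = 1 ∧ y = 2 ∧ z = 0) ∨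
        (x = 1 ∧ y = 0 ∧ z = 2) ∨ (x = 0 ∧ y = 2 ∧ z = 1) ∨ (x = 0 ∧ y = 1 ∧ z = 2) := by
      interval_cases x <;> interval_cases y <;> interval_cases z <;> simp at h1 hq ⊢
    rcases hlist with ⟨h0, h1, h2⟩ | ⟨h0, h1, h2⟩ | ⟨h0, h1, h2⟩ | ⟨h0, h1, h2⟩ | ⟨h0, h1, h2⟩ |
      ⟨h0, h1, h2⟩
    · exact ⟨1, key _ (by rw [h0]; rfl) (by rw [h1]; rfl) (by rw [h2]; rfl)⟩
    · exact ⟨Equiv.swap 1 2, key _ (by rw [h0]; rfl) (by rw [h1]; rfl) (by rw [h2]; rfl)⟩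
    · exact ⟨Equiv.swap 0 1, key _ (by rw [h0]; rfl) (by rw [h1]; rfl) (by rw [h2]; rfl)⟩
    · refine ⟨Equiv.swap 0 1 * Equiv.swap 1 2, key _ ?_ ?_ ?_⟩
      · rw [h0]; rfl
      · rw [h1]; rfl
      · rw [h2]; rfl
    · refine ⟨Equiv.swap 1 2 * Equiv.swap 0 1, key _ ?_ ?_ ?_⟩
      · rw [h0]; rfl
      · rw [h1]; rfl
      · rw [h2]; rfl
    · exact ⟨Equiv.swap 0 2, key _ (by rw [h0]; rfl) (by rw [h1]; rfl) (by rw [h2]; rfl)⟩
  · exact absurd h.ne100 (by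
      show ¬ (cD 1 j.q.t ≠ 100)
      rw [ht]; exact fun hh => hh rfl)
  · exact absurd h.ne100 (by
      show ¬ (cD 1 j.q.t ≠ 100)
      rw [ht]; exact fun hh => hh rfl)
  · exact absurd h.ne100 (by
      show ¬ (cD 1 j.q.t ≠ 100)
      rw [ht]; exact fun hh => hh rfl)
  · rcases idx_T ht with h | h
    · exact Or.inl h
    · exact Or.inr (Or.inl h)

theorem nb0 {j : Idx} {Y : E3} (h0 : Y ∈ MS i0) (hj : Y ∈ MS j) (hne : j ≠ i0) :
    j = iTp ∨ j = iTm ∨ (j.q.t = 0 ∧ j.q.p 0 + j.q.p 1 + j.q.p 2 = -3) := by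
  have h := ms_adj h0 hj (Ne.symm hne)
  have h1 : (-1 : ℤ) * j.q.p 0 + -1 * j.q.p 1 + -1 * j.q.p 2 = cD 1 j.q.t := h
  rcases ht : j.q.t with ⟨t, htt⟩
  interval_cases t
  · right; right
    refine ⟨rfl, ?_⟩
    rw [ht] at h1
    have : cD 1 ⟨0, htt⟩ = 3 := rfl
    rw [this] at h1
    linarith
  · exact absurd h.ne100 (by
      show ¬ (cD 1 j.q.t ≠ 100)
      rw [ht]; exact fun hh => hh rfl)
  · exact absurd h.ne100 (by
      show ¬ (cD 1 j.q.t ≠ 100)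
      rw [ht]; exact fun hh => hh rfl)
  · exact absurd h.ne100 (by
      show ¬ (cD 1 j.q.t ≠ 100)
      rw [ht]; exact fun hh => hh rfl)
  · rcases idx_T ht with h | h
    · exact Or.inl h
    · exact Or.inr (Or.inl h)

theorem P0_empty : MS iP ∩ MS i0 = ∅ := by
  ext Y
  simp only [mem_inter_iff, mem_empty_iff_false, iff_false, not_and]
  intro h1 h2
  have h := ms_adj h1 h2 (by
    intro h
    have := congrArg (fun i : Idx => i.q.p 0) h
    exact absurd this (by decide))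
  exact h.ne100 rfl

theorem TT_empty : MS iTp ∩ MS iTm = ∅ := by
  ext Y
  simp only [mem_inter_iff, mem_empty_iff_false, iff_false, not_and]
  intro h1 h2
  have h := ms_adj h1 h2 (by
    intro h
    have := congrArg (fun i : Idx => i.s) h
    exact absurd this (by decide))
  exact h.ne100 rfl

/-! ### Explicit functions -/

theorem Vf_P (Y : E3) : Vf iP Y = 1 / 2 * ‖Y‖ ^ 2 - 7723 / 9075 := by
  have e1 : iP.q.t = 1 := rfl
  have e2 : iP.q.p = ![1, 1, 1] := rfl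
  have e3 : iP.s = 0 := rfl
  unfold Vf
  rw [inn, bb0, bb1, bb2]
  unfold aa cc bv sp
  rw [e1, e2, e3]
  simp
  ring

theorem Vf_0 (Y : E3) : Vf i0 Y = -(7723 / 114244) * ‖Y‖ ^ 2 + 57122 / 9075 := by
  have e1 : i0.q.t = 1 := rfl
  have e2 : i0.q.p = ![-1, -1, -1] := rfl
  have e3 : i0.s = 0 := rfl
  unfold Vf
  rw [inn, bb0, bb1, bb2]
  unfold aa cc bv sp
  rw [e1, e2, e3]
  simp
  ring

theorem Vf_Tp (Y : E3) : Vf iTp Y = 52 / 165 * zz Y := by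
  have e1 : iTp.q.t = 4 := rfl
  have e2 : iTp.q.p = ![0, 0, 0] := rfl
  have e3 : iTp.s = 1 := rfl
  unfold Vf
  rw [inn, bb0, bb1, bb2]
  unfold aa cc bv sp zz
  rw [e1, e2, e3]
  simp
  ring

theorem Vf_E (e : Equiv.Perm (Fin 3)) (Y : E3) : Vf (iE' e) Y - Vf iP Y =
    1 + ((1 - (![2, 1, 0] : Fin 3 → ℝ) (e 0)) * Y 0 + (1 - (![2, 1, 0] : Fin 3 → ℝ) (e 1)) * Y 1 +
      (1 - (![2, 1, 0] : Fin 3 → ℝ) (e 2)) * Y 2) := by
  have e1 : (iE' e).q.t = 0 := rfl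
  have e2 : ∀ l, (((iE' e).q.p l : ℤ) : ℝ) = (![2, 1, 0] : Fin 3 → ℝ) (e l) := by
    intro l
    have e1 : (iE' e).q.p l = (1 : ℤ) * (![2, 1, 0] : Fin 3 → ℤ) (e l) := rfl
    rw [e1, one_mul]
    generalize e l = k
    fin_cases k <;> simp
  have e3 : (iE' e).s = 0 := rfl
  have e4 : (![2, 1, 0] : Fin 3 → ℝ) (e 0) + (![2, 1, 0] : Fin 3 → ℝ) (e 1) +
      (![2, 1, 0] : Fin 3 → ℝ) (e 2) = 3 := by
    have := Equiv.sum_comp e (![2, 1, 0] : Fin 3 → ℝ)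
    rw [Fin.sum_univ_three, Fin.sum_univ_three] at this
    rw [this]; simp; norm_num
  rw [Vf_P]
  unfold Vf
  rw [inn, bb0, bb1, bb2]
  unfold aa cc bv sp
  rw [e1, e3, e2, e2, e2, e4]
  simp
  ring

theorem Vf_E0 (Y : E3) : Vf iE0 Y - Vf iP Y = 1 - (Y 0 - Y 2) := by
  have h := Vf_E 1 Y
  have e : iE' 1 = iE0 := Idx.ext' (Up.ext' rfl (by
    funext l; show (1 : ℤ) * (![2, 1, 0] : Fin 3 → ℤ) l = _
    rw [one_mul]; rfl)) rfl
  rw [e] at h
  rw [h]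
  simp
  ring

/-- the hexagon condition -/
theorem hex_of_P {Y : E3} (h : Y ∈ MS iP) (j k : Fin 3) : Y j - Y k ≤ 1 := by
  by_cases hjk : j = k
  · rw [hjk]; simp
  -- a permutation with `e j = 0`, `e k = 2`
  have key : ∀ e : Equiv.Perm (Fin 3), 0 ≤ 1 + ((1 - (![2, 1, 0] : Fin 3 → ℝ) (e 0)) * Y 0 +
      (1 - (![2, 1, 0] : Fin 3 → ℝ) (e 1)) * Y 1 +
      (1 - (![2, 1, 0] : Fin 3 → ℝ) (e 2)) * Y 2) := by
    intro e
    rw [← Vf_E, ← val_pt iP Y h.2, ← val_pt (iE' e) Y (Or.inl rfl)]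
    have := h.1 (iE' e).q
    linarith
  have h1 := key 1
  have h2 := key (Equiv.swap 1 2)
  have h3 := key (Equiv.swap 0 1)
  have h4 := key (Equiv.swap 0 1 * Equiv.swap 1 2)
  have h5 := key (Equiv.swap 1 2 * Equiv.swap 0 1)
  have h6 := key (Equiv.swap 0 2)
  have s1 : (Equiv.swap (0 : Fin 3) 1 * Equiv.swap 1 2 : Equiv.Perm (Fin 3)) 0 = 1 := by decide
  have s2 : (Equiv.swap (0 : Fin 3) 1 * Equiv.swap 1 2 : Equiv.Perm (Fin 3)) 1 = 2 := by decide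
  have s3 : (Equiv.swap (0 : Fin 3) 1 * Equiv.swap 1 2 : Equiv.Perm (Fin 3)) 2 = 0 := by decide
  have s4 : (Equiv.swap (1 : Fin 3) 2 * Equiv.swap 0 1 : Equiv.Perm (Fin 3)) 0 = 2 := by decide
  have s5 : (Equiv.swap (1 : Fin 3) 2 * Equiv.swap 0 1 : Equiv.Perm (Fin 3)) 1 = 0 := by decide
  have s6 : (Equiv.swap (1 : Fin 3) 2 * Equiv.swap 0 1 : Equiv.Perm (Fin 3)) 2 = 1 := by decide
  have t1 : (Equiv.swap (1 : Fin 3) 2) 0 = 0 := by decide
  have t2 : (Equiv.swap (1 : Fin 3) 2) 1 = 2 := by decide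
  have t3 : (Equiv.swap (1 : Fin 3) 2) 2 = 1 := by decide
  have t4 : (Equiv.swap (0 : Fin 3) 1) 0 = 1 := by decide
  have t5 : (Equiv.swap (0 : Fin 3) 1) 1 = 0 := by decide
  have t6 : (Equiv.swap (0 : Fin 3) 1) 2 = 2 := by decide
  have t7 : (Equiv.swap (0 : Fin 3) 2) 0 = 2 := by decide
  have t8 : (Equiv.swap (0 : Fin 3) 2) 1 = 1 := by decide
  have t9 : (Equiv.swap (0 : Fin 3) 2) 2 = 0 := by decide
  rw [s1, s2, s3] at h4
  rw [s4, s5, s6] at h5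
  rw [t1, t2, t3] at h2
  rw [t4, t5, t6] at h3
  rw [t7, t8, t9] at h6
  simp at h1 h2 h3 h4 h5 h6
  fin_cases j <;> fin_cases k
  · exact absurd rfl hjk
  · show Y 0 - Y 1 ≤ 1; linarith
  · show Y 0 - Y 2 ≤ 1; linarith
  · show Y 1 - Y 0 ≤ 1; linarith
  · exact absurd rfl hjk
  · show Y 1 - Y 2 ≤ 1; linarith
  · show Y 2 - Y 0 ≤ 1; linarith
  · show Y 2 - Y 1 ≤ 1; linarith
  · exact absurd rfl hjk

/-- the ball condition -/
theorem ball_of_P {Y : E3} (h : Y ∈ MS iP) : 1 / 2 * ‖Y‖ ^ 2 - 7723 / 9075 ≤ 52 / 165 * |zz Y| := by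
  have h1 := h.1 iT
  rw [val_pt iP Y h.2, Vf_P] at h1
  have : val iT (pt Y) = 52 / 165 * |zz Y| := valT _ _ _
  rw [this] at h1
  exact h1

end Pool.Agent.J6H64.KU
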