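import Pool.Agent.J6H64.KU.Ev1

set_option autoImplicit false
set_option maxHeartbeats 4000000

open MeasureTheory Set Filter Topology

namespace Pool.Agent.J6H64.KU

/-! ### Elementary inequalities -/

theorem el1 {N z : ℝ} (hN : N = 2 * (7723 / 9075) + 2 * (52 / 165) * z) (h : z ^ 2 / 3 ≤ N) :
    z ≤ 3.4 := by
  by_contra hn
  push Not at hn
  nlinarith

theorem el2 {y0 y1 y2 z N : ℝ} (hsum : y0 + y1 + y2 = z) (hsq : y0 ^ 2 + y1 ^ 2 + y2 ^ 2 = N) :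
    N - z ^ 2 / 3 = 3 / 2 * (y0 - z / 3) ^ 2 + 1 / 2 * (y1 - y2) ^ 2 := by
  rw [← hsq, ← hsum]; ring

theorem el3 {y0 y1 y2 z N : ℝ} (hsum : y0 + y1 + y2 = z) (hsq : y0 ^ 2 + y1 ^ 2 + y2 ^ 2 = N)
    (h1 : y1 ≤ y0) (h2 : y2 ≤ y1) (h3 : y0 - y2 ≤ 1) : N - z ^ 2 / 3 ≤ 2 / 3 := by
  have e : N - z ^ 2 / 3 = ((y0 - y1) ^ 2 + (y1 - y2) ^ 2 + (y0 - y2) ^ 2) / 3 := by
    rw [← hsq, ← hsum]; ring
  rw [e]
  have a : 0 ≤ y0 - y1 := by linarith
  have b : 0 ≤ y1 - y2 := by linarith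
  have c : y0 - y2 = (y0 - y1) + (y1 - y2) := by ring
  rw [c] at h3 ⊢
  generalize y0 - y1 = p at *
  generalize y1 - y2 = q at *
  nlinarith [mul_nonneg a b]

theorem el4 {N z : ℝ} (hN : N = 2 * (7723 / 9075) + 2 * (52 / 165) * z) (h : N - z ^ 2 / 3 ≤ 2 / 3)
    (hz : 0 < z) : 2 ≤ z - 52 / 55 := by
  by_contra hn
  push Not at hn
  nlinarith

theorem el5 {q Y : ℝ} (h1 : 2 ≤ q) (h2 : q ^ 2 + 9 / 2 * Y ^ 2 ≤ 6) :
    1.03938 * q + 4.01191 * Y ≤ 4.9992 := by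
  nlinarith [sq_nonneg (q - 2), sq_nonneg (Y - 2 / 3)]

theorem el6 {N z : ℝ} (hN : 7723 / 114244 * N = 57122 / 9075 - 52 / 165 * z)
    (hr : N - z ^ 2 / 3 ≤ 29 / 5) (hz : 0 < z) : 10.63 ≤ z := by
  by_contra hn
  push Not at hn
  nlinarith

theorem el7 {N z : ℝ} (hN : 7723 / 114244 * N = 57122 / 9075 - 52 / 165 * z)
    (hr : 0 ≤ N - z ^ 2 / 3) : z ≤ 11.13 := by
  by_contra hn
  push Not at hn
  nlinarith

theorem el8 {y : ℝ} (h : 3 / 2 * y ^ 2 ≤ 29 / 5) : |y| ≤ 1.97 := by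
  refine abs_le_of_sq_le_sq ?_ (by norm_num)
  nlinarith

theorem el9 {N z : ℝ} (hN : 7723 / 114244 * N = 57122 / 9075 - 52 / 165 * z)
    (hz : 10.63 ≤ z) (hN1 : 41 ≤ N) {d : ℝ}
    (hd : d ^ 2 ≤ 2 * (N - z ^ 2 / 3)) : d ≤ 55 / 338 * (165 / 338) * N := by
  have hN' : N = 114244 / 7723 * (57122 / 9075 - 52 / 165 * z) := by linarith
  have h : 2 * (N - z ^ 2 / 3) ≤ (55 / 338 * (165 / 338) * N) ^ 2 := by
    rw [hN']
    nlinarith [mul_nonneg (sub_nonneg.2 hz) (sub_nonneg.2 hz)]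
  exact (abs_le.1 (abs_le_of_sq_le_sq (hd.trans h) (by linarith))).2

theorem el10 {N L : ℝ} (h : (55 / 338 * (165 / 338) * N) ^ 2 ≤ 2 * (29 / 5)) (hN : 0 ≤ N) :
    N ≤ 42.88 := by
  by_contra hn
  push Not at hn
  nlinarith

theorem el11 {N w : ℝ} (hN0 : 0 ≤ N) (hN1 : N ≤ 42.88)
    (h2 : (57122 / 9075 - 7723 / 114244 * N) ^ 2 ≤ (52 / 165 * w) ^ 2)
    (h3 : w ^ 2 ≤ 3 * N - 3 / 2 * (55 / 338 * (165 / 338) * N) ^ 2) : False := by
  have h4 : (52 / 165 * w) ^ 2 ≤ (52 / 165) ^ 2 *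
      (3 * N - 3 / 2 * (55 / 338 * (165 / 338) * N) ^ 2) := by
    rw [mul_pow]; exact mul_le_mul_of_nonneg_left h3 (by positivity)
  have h5 := h2.trans h4
  nlinarith

/-- a criterion for minimality -/
theorem chamber_min {P : Pt} (hP : Cone P) (q : Up) (h : ∀ (g : SP) (a b c : ℝ),
    g.actP P = (P.1, ![a, b, c], P.2.2) → SC P.1 a b c P.2.2 →
      val q P ≤ 173 / 165 * P.1 - (2 * a + b) ∧
      val q P ≤ (173 / 165 - 55 / 338) * P.1 - (1 + 55 / 338) * (a + b + c) ∧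
      val q P ≤ (173 / 165 + 39 / 71) * P.1 - 240 / 71 * a ∧
      val q P ≤ (173 / 165 + 91 / 54) * P.1 - 337 / 84 * a - 1021 / 756 * P.2.2 ∧
      val q P ≤ 52 / 165 * P.2.2) : Mn q P := by
  obtain ⟨g, a, b, c, hg, hs⟩ := exists_chamber hP
  obtain ⟨h1, h2, h3, h4, h5⟩ := h g a b c hg hs
  obtain ⟨r, hr⟩ := exists_mn P
  have hr' := g.mn_act hr
  rw [hg] at hr'
  have hle : val q P ≤ val r P := by
    rw [← g.val_act r P, hg]
    rcases chamber hs _ hr' with e | ⟨e, e'⟩ | ⟨e, e'⟩ | e | e | e | e <;> rw [e]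
    · rw [iE, val_mk]; simp; linarith
    · rw [iE1, val_mk]; simp; linarith
    · rw [iE2, val_mk]; simp; linarith
    · rw [iF, val_mk]; simp; linarith
    · rw [iM, val_mk]; simp; linarith
    · rw [iU, val_mk]; simp; linarith
    · rw [iT, val_mk]; simp; linarith
  exact fun k => hle.trans (hr k)

theorem perm_sum (e : Equiv.Perm (Fin 3)) (f : Fin 3 → ℝ) :
    f (e 0) + f (e 1) + f (e 2) = f 0 + f 1 + f 2 := by
  have := Equiv.sum_comp e f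
  rwa [Fin.sum_univ_three, Fin.sum_univ_three] at this

theorem act_comp {g : SP} {x : Fin 3 → ℝ} {S w a b c : ℝ} {w' : ℝ}
    (h : g.actP (S, x, w) = (S, ![a, b, c], w')) :
    a = g.s 0 * x (g.e 0) ∧ b = g.s 1 * x (g.e 1) ∧ c = g.s 2 * x (g.e 2) := by
  have h1 : g.actR x = ![a, b, c] := congrArg (fun P : Pt => P.2.1) h
  refine ⟨?_, ?_, ?_⟩
  · have := congrFun h1 0; exact this.symm
  · have := congrFun h1 1; exact this.symm
  · have := congrFun h1 2; exact this.symm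

theorem s_pm (g : SP) (j : Fin 3) : (g.s j : ℝ) = 1 ∨ (g.s j : ℝ) = -1 := by
  have := g.hsR j
  have h : ((g.s j : ℝ) - 1) * ((g.s j : ℝ) + 1) = 0 := by linarith
  rcases mul_eq_zero.1 h with h | h
  · left; linarith
  · right; linarith

/-- The domes belong to `P`. -/
theorem dome_mem {Y : E3} (hhex : ∀ j k, Y j - Y k ≤ 1) (hz : 0 < zz Y)
    (hd : 1 / 2 * ‖Y‖ ^ 2 - 7723 / 9075 = 52 / 165 * zz Y) : Y ∈ MS iP := by
  refine ⟨chamber_min (cone_pt Y) iP.q ?_, Or.inl rfl⟩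
  intro g a b c hg hs
  have hv : val iP.q (pt Y) = 52 / 165 * zz Y := by
    rw [val_pt iP Y (Or.inl rfl), Vf_P, hd]
  obtain ⟨ha, hb, hc⟩ := act_comp (S := SS Y) (w := |zz Y|) (w' := |zz Y|) hg
  have hsc : SC (SS Y) a b c |zz Y| := hs
  have hw : |zz Y| = zz Y := abs_of_pos hz
  -- coordinates
  have hsum : Y (g.e 0) + Y (g.e 1) + Y (g.e 2) = zz Y := perm_sum g.e (fun j => Y j)
  have hsq : Y (g.e 0) ^ 2 + Y (g.e 1) ^ 2 + Y (g.e 2) ^ 2 = ‖Y‖ ^ 2 := by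
    rw [nsq]; exact perm_sum g.e (fun j => Y j ^ 2)
  have k1 := hhex (g.e 0) (g.e 1)
  have k2 := hhex (g.e 1) (g.e 0)
  have k3 := hhex (g.e 1) (g.e 2)
  have k4 := hhex (g.e 2) (g.e 1)
  have k5 := hhex (g.e 0) (g.e 2)
  have k6 := hhex (g.e 2) (g.e 0)
  have ex : ∀ j, xx Y j = (169 / 165 - 55 / 676 * ‖Y‖ ^ 2) + Y j - zz Y / 3 := fun j => rfl
  have eS : SS Y = 169 / 55 + 165 / 676 * ‖Y‖ ^ 2 := rfl
  rw [ex] at ha hb hc
  obtain ⟨S0, w0, ab, bc, c0, q⟩ := hsc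
  show val iP.q (pt Y) ≤ 173 / 165 * SS Y - (2 * a + b) ∧
      val iP.q (pt Y) ≤ (173 / 165 - 55 / 338) * SS Y - (1 + 55 / 338) * (a + b + c) ∧
      val iP.q (pt Y) ≤ (173 / 165 + 39 / 71) * SS Y - 240 / 71 * a ∧
      val iP.q (pt Y) ≤ (173 / 165 + 91 / 54) * SS Y - 337 / 84 * a - 1021 / 756 * |zz Y| ∧
      val iP.q (pt Y) ≤ 52 / 165 * |zz Y|
  rw [hv, hw]
  generalize Y (g.e 0) = y0 at *
  generalize Y (g.e 1) = y1 at *
  generalize Y (g.e 2) = y2 at *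
  generalize zz Y = z at *
  generalize ‖Y‖ ^ 2 = N at *
  have hN : N = 2 * (7723 / 9075) + 2 * (52 / 165) * z := by linarith
  -- the height
  have hel2 := el2 hsum hsq
  have hz1 : z ≤ 3.4 := by
    refine el1 hN ?_
    have : 0 ≤ N - z ^ 2 / 3 := by rw [hel2]; positivity
    linarith
  have hxi : (0.6667 : ℝ) < 169 / 165 - 55 / 676 * N := by rw [hN]; linarith
  have hy0 : -(2 / 3) ≤ y0 - z / 3 := by linarith
  have hy1 : -(2 / 3) ≤ y1 - z / 3 := by linarith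
  have hy2 : -(2 / 3) ≤ y2 - z / 3 := by linarith
  have a0 : 0 ≤ a := (c0.trans bc).trans ab
  have b0 : 0 ≤ b := c0.trans bc
  have ha' : a = (169 / 165 - 55 / 676 * N) + y0 - z / 3 := by
    rcases s_pm g 0 with h | h
    · rw [ha, h, one_mul]
    · exfalso; rw [h] at ha; linarith
  have hb' : b = (169 / 165 - 55 / 676 * N) + y1 - z / 3 := by
    rcases s_pm g 1 with h | h
    · rw [hb, h, one_mul]
    · exfalso; rw [h] at hb; linarith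
  have hc' : c = (169 / 165 - 55 / 676 * N) + y2 - z / 3 := by
    rcases s_pm g 2 with h | h
    · rw [hc, h, one_mul]
    · exfalso; rw [h] at hc; linarith
  have y01 : y1 ≤ y0 := by linarith
  have y12 : y2 ≤ y1 := by linarith
  -- `q = z - 3 K`
  have hr : 3 / 2 * (y0 - z / 3) ^ 2 ≤ N - z ^ 2 / 3 := by
    rw [hel2]; linarith [sq_nonneg (y1 - y2)]
  have hr2 : N - z ^ 2 / 3 ≤ 2 / 3 := el3 hsum hsq y01 y12 k5
  have hq2 : 2 ≤ z - 52 / 55 := el4 hN hr2 hz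
  have hq3 : (z - 52 / 55) ^ 2 + 9 / 2 * (y0 - z / 3) ^ 2 ≤ 6 := by
    have e : (z - 52 / 55) ^ 2 = z ^ 2 - 104 / 55 * z + 2704 / 3025 := by ring
    rw [e]; linarith
  have hq4 := el5 hq2 hq3
  refine ⟨?_, ?_, ?_, ?_, le_rfl⟩
  · rw [ha', hb', eS, hN]; linarith
  · rw [ha', hb', hc', eS, hN]; linarith
  · rw [ha', eS, hN]; linarith
  · rw [ha', eS, hN]
    linarith

noncomputable def rr (Y : E3) : ℝ := ‖Y‖ ^ 2 - zz Y ^ 2 / 3

/-- The caps belong to the exterior. -/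
theorem cap_mem {Y : E3} (hr : rr Y ≤ 29 / 5) (hz : 0 < zz Y)
    (hd : -(7723 / 114244) * ‖Y‖ ^ 2 + 57122 / 9075 = 52 / 165 * zz Y) : Y ∈ MS i0 := by
  refine ⟨chamber_min (cone_pt Y) i0.q ?_, Or.inl rfl⟩
  intro g a b c hg hs
  have hv : val i0.q (pt Y) = 52 / 165 * zz Y := by
    rw [val_pt i0 Y (Or.inl rfl), Vf_0, hd]
  obtain ⟨ha, hb, hc⟩ := act_comp (S := SS Y) (w := |zz Y|) (w' := |zz Y|) hg
  have hsc : SC (SS Y) a b c |zz Y| := hs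
  have hw : |zz Y| = zz Y := abs_of_pos hz
  have hsum : Y (g.e 0) + Y (g.e 1) + Y (g.e 2) = zz Y := perm_sum g.e (fun j => Y j)
  have hsq : Y (g.e 0) ^ 2 + Y (g.e 1) ^ 2 + Y (g.e 2) ^ 2 = ‖Y‖ ^ 2 := by
    rw [nsq]; exact perm_sum g.e (fun j => Y j ^ 2)
  have ex : ∀ j, xx Y j = (169 / 165 - 55 / 676 * ‖Y‖ ^ 2) + Y j - zz Y / 3 := fun j => rfl
  have eS : SS Y = 169 / 55 + 165 / 676 * ‖Y‖ ^ 2 := rfl
  rw [ex] at ha hb hc
  unfold rr at hr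
  obtain ⟨S0, w0, ab, bc, c0, q⟩ := hsc
  show val i0.q (pt Y) ≤ 173 / 165 * SS Y - (2 * a + b) ∧
      val i0.q (pt Y) ≤ (173 / 165 - 55 / 338) * SS Y - (1 + 55 / 338) * (a + b + c) ∧
      val i0.q (pt Y) ≤ (173 / 165 + 39 / 71) * SS Y - 240 / 71 * a ∧
      val i0.q (pt Y) ≤ (173 / 165 + 91 / 54) * SS Y - 337 / 84 * a - 1021 / 756 * |zz Y| ∧
      val i0.q (pt Y) ≤ 52 / 165 * |zz Y|
  rw [hv, hw]
  generalize Y (g.e 0) = y0 at *
  generalize Y (g.e 1) = y1 at *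
  generalize Y (g.e 2) = y2 at *
  generalize zz Y = z at *
  generalize ‖Y‖ ^ 2 = N at *
  have hN : 7723 / 114244 * N = 57122 / 9075 - 52 / 165 * z := by linarith
  -- bounds for the height
  have hz1 : 10.63 ≤ z := el6 hN hr hz
  have hr0 : 0 ≤ N - z ^ 2 / 3 := by rw [el2 hsum hsq]; positivity
  have hz2 : z ≤ 11.13 := el7 hN hr0
  have hN1 : 41 ≤ N := by linarith
  have hN2 : N ≤ 43.6 := by linarith
  have hb1 : ∀ u v w : ℝ, u + v + w = z → u ^ 2 + v ^ 2 + w ^ 2 = N → |u - z / 3| ≤ 1.97 := by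
    intro u v w h1 h2
    refine el8 ?_
    have := el2 h1 h2
    have h4 : 0 ≤ 1 / 2 * (v - w) ^ 2 := by positivity
    linarith
  have u0 := abs_le.1 (hb1 y0 y1 y2 hsum hsq)
  have u1 := abs_le.1 (hb1 y1 y0 y2 (by linarith) (by linarith))
  have u2 := abs_le.1 (hb1 y2 y1 y0 (by linarith) (by linarith))
  have a0 : 0 ≤ a := (c0.trans bc).trans ab
  have b0 : 0 ≤ b := c0.trans bc
  have ha' : a = -((169 / 165 - 55 / 676 * N) + y0 - z / 3) := by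
    rcases s_pm g 0 with h | h
    · exfalso; rw [h] at ha; linarith
    · rw [ha, h]; ring
  have hb' : b = -((169 / 165 - 55 / 676 * N) + y1 - z / 3) := by
    rcases s_pm g 1 with h | h
    · exfalso; rw [h] at hb; linarith
    · rw [hb, h]; ring
  have hc' : c = -((169 / 165 - 55 / 676 * N) + y2 - z / 3) := by
    rcases s_pm g 2 with h | h
    · exfalso; rw [h] at hc; linarith
    · rw [hc, h]; ring
  refine ⟨?_, ?_, ?_, ?_, le_rfl⟩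
  · -- the walls of the exterior
    have hac : (y2 - y0) ^ 2 ≤ 2 * (N - z ^ 2 / 3) := by
      have := el2 (y0 := y1) (y1 := y2) (y2 := y0) (z := z) (N := N) (by linarith) (by linarith)
      have h4 : 0 ≤ 3 / 2 * (y1 - z / 3) ^ 2 := by positivity
      linarith
    have hac2 := el9 hN hz1 hN1 hac
    rw [ha', hb', eS]; linarith
  · rw [ha', hb', hc', eS]; linarith
  · rw [ha', eS]; linarith
  · rw [ha', eS]; linarith

/-- The walls of the exterior are far from the axis. -/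
theorem ext_wall {Y : E3} {j : Idx} (h0 : Y ∈ MS i0) (hj : Y ∈ MS j) (ht : j.q.t = 0)
    (hp : j.q.p 0 + j.q.p 1 + j.q.p 2 = -3) : 29 / 5 ≤ rr Y := by
  have hv : val i0.q (pt Y) = val j.q (pt Y) := le_antisymm (h0.1 _) (hj.1 _)
  have hT := h0.1 iT
  rw [val_pt i0 Y h0.2, Vf_0] at hT
  have hT' : val iT (pt Y) = 52 / 165 * |zz Y| := valT _ _ _
  rw [hT'] at hT
  have e1 : val j.q (pt Y) = 173 / 165 * SS Y - (j.q.p 0 * xx Y 0 + j.q.p 1 * xx Y 1 +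
      j.q.p 2 * xx Y 2) := by
    show val j.q (SS Y, xx Y, |zz Y|) = _
    rw [val_eq, ht]; simp
  have hok : (j.q.p 0 : ℝ) ^ 2 + (j.q.p 1 : ℝ) ^ 2 + (j.q.p 2 : ℝ) ^ 2 = 5 := by
    have := j.q.ok
    rw [ht] at this
    exact_mod_cast this
  have hp' : (j.q.p 0 : ℝ) + j.q.p 1 + j.q.p 2 = -3 := by exact_mod_cast hp
  rw [e1, val_pt i0 Y h0.2, Vf_0] at hv
  have ex : ∀ j, xx Y j = (169 / 165 - 55 / 676 * ‖Y‖ ^ 2) + Y j - zz Y / 3 := fun j => rfl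
  have eS : SS Y = 169 / 55 + 165 / 676 * ‖Y‖ ^ 2 := rfl
  rw [ex, ex, ex, eS] at hv
  have hz : zz Y = Y 0 + Y 1 + Y 2 := rfl
  have hn := nsq Y
  unfold rr
  generalize (j.q.p 0 : ℝ) = p0 at *
  generalize (j.q.p 1 : ℝ) = p1 at *
  generalize (j.q.p 2 : ℝ) = p2 at *
  have hzsq : |zz Y| ^ 2 = zz Y ^ 2 := sq_abs _
  have hz0 : 0 ≤ |zz Y| := abs_nonneg _
  generalize |zz Y| = w at *
  generalize ‖Y‖ ^ 2 = N at *
  generalize Y 0 = y0 at *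
  generalize Y 1 = y1 at *
  generalize Y 2 = y2 at *
  generalize zz Y = z at *
  -- the linear function
  set L := (p0 + 1) * (y0 - z / 3) + (p1 + 1) * (y1 - z / 3) + (p2 + 1) * (y2 - z / 3) with hL
  have hLN : L = 55 / 338 * (165 / 338) * N := by
    rw [hL]
    have h3 : (y0 - z / 3) + (y1 - z / 3) + (y2 - z / 3) = 0 := by rw [hz]; ring
    linear_combination hv + h3 - (169 / 165 - 55 / 676 * N) * hp'
  have hL2 : L ^ 2 ≤ 2 * (N - z ^ 2 / 3) := by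
    have hc : (p0 + 1) ^ 2 + (p1 + 1) ^ 2 + (p2 + 1) ^ 2 = 2 := by linarith
    have hr : (y0 - z / 3) ^ 2 + (y1 - z / 3) ^ 2 + (y2 - z / 3) ^ 2 = N - z ^ 2 / 3 := by
      rw [hn, hz]; ring
    rw [← hr, ← hc, hL]
    nlinarith [sq_nonneg ((p0 + 1) * (y1 - z / 3) - (p1 + 1) * (y0 - z / 3)),
      sq_nonneg ((p0 + 1) * (y2 - z / 3) - (p2 + 1) * (y0 - z / 3)),
      sq_nonneg ((p1 + 1) * (y2 - z / 3) - (p2 + 1) * (y1 - z / 3))]
  rw [hLN] at hL2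
  by_contra hcon
  push Not at hcon
  have hN0 : 0 ≤ N := by rw [hn]; positivity
  have hN1 : N ≤ 42.88 := by
    refine el10 (L := L) ?_ hN0
    linarith
  have h1 : 0 ≤ 57122 / 9075 - 7723 / 114244 * N := by linarith
  have h2 : (57122 / 9075 - 7723 / 114244 * N) ^ 2 ≤ (52 / 165 * w) ^ 2 :=
    pow_le_pow_left₀ h1 (by linarith) 2
  have h3 : w ^ 2 ≤ 3 * N - 3 / 2 * (55 / 338 * (165 / 338) * N) ^ 2 := by
    rw [hzsq]; linarith
  exact el11 hN0 hN1 h2 h3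

end Pool.Agent.J6H64.KU
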