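import Pool.Agent.J6H64.KU.Ev2
import Pool.Agent.J6H64.KU.Area2

set_option autoImplicit false
set_option maxHeartbeats 4000000

open MeasureTheory Set Filter Topology
open scoped ENNReal NNReal

namespace Pool.Agent.J6H64.KU

open Pool.Agent.H934R3.NP (P2 Gr)
open Pool.Agent.H784R3.NPA1 (J cont_J one_le_J nsq2)

/-! ### Coordinates -/

theorem zz_Rot (X : E3) : zz (Rot X) = √3 * X 2 := by
  have h : zz (Rot X) = Rot X 0 + Rot X 1 + Rot X 2 := rfl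
  rw [h, rot0, rot1, rot2]
  have := p2.ne'; have := p3.ne'; have := p6.ne'
  have h3 : √3 * √3 = 3 := Real.mul_self_sqrt (by norm_num)
  field_simp
  rw [r3]; ring

theorem norm_Rot (X : E3) : ‖Rot X‖ ^ 2 = X 0 ^ 2 + X 1 ^ 2 + X 2 ^ 2 := by
  rw [nsq, rot0, rot1, rot2]
  have := p2.ne'; have := p3.ne'; have := p6.ne'
  field_simp
  ring_nf
  simp only [r2, r3, r6]
  ring

theorem d01 (X : E3) : Rot X 0 - Rot X 1 = √2 * X 0 := by
  rw [rot0, rot1]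
  have := p2.ne'; have := p3.ne'; have := p6.ne'
  field_simp
  rw [r2]; ring

theorem d02 (X : E3) : Rot X 0 - Rot X 2 = (√2 * X 0 + √6 * X 1) / 2 := by
  rw [rot0, rot2]
  have := p2.ne'; have := p3.ne'; have := p6.ne'
  field_simp
  ring_nf
  simp only [r2, r6]
  ring

theorem d12 (X : E3) : Rot X 1 - Rot X 2 = (-(√2 * X 0) + √6 * X 1) / 2 := by
  rw [rot1, rot2]
  have := p2.ne'; have := p3.ne'; have := p6.ne'
  field_simp
  ring_nf
  simp only [r2, r6]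
  ring

theorem rr_Rot (X : E3) : rr (Rot X) = X 0 ^ 2 + X 1 ^ 2 := by
  unfold rr
  rw [norm_Rot, zz_Rot, mul_pow, r3]; ring

/-- the first two coordinates -/
noncomputable def pu (X : E3) : P2 := !₂[X 0, X 1]

theorem pu_sq (X : E3) : ‖pu X‖ ^ 2 = X 0 ^ 2 + X 1 ^ 2 := by
  rw [nsq2]; rfl

theorem Gr_pu {f : P2 → ℝ} {X : E3} (h : X 2 = f (pu X)) : Gr f (pu X) = X := by
  ext j
  fin_cases j
  · rfl
  · rfl
  · exact h.symm

/-! ### The hexagon -/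

theorem hx_iff (X : E3) : pu X ∈ Hx ↔ ∀ j k, Rot X j - Rot X k ≤ 1 := by
  have h2 := p2
  have h6 := p6
  have e1 : pu X ∈ Hx ↔ |X 0| ≤ 1 / √2 ∧ |X 1| ≤ (2 - √2 * |X 0|) / √6 := Iff.rfl
  have e2 : |X 0| ≤ 1 / √2 ↔ |√2 * X 0| ≤ 1 := by
    rw [le_div_iff₀ h2, abs_mul, abs_of_pos h2, mul_comm]
  have e3 : |X 1| ≤ (2 - √2 * |X 0|) / √6 ↔ |√6 * X 1| ≤ 2 - |√2 * X 0| := by
    rw [le_div_iff₀ h6, abs_mul, abs_of_pos h6, abs_mul, abs_of_pos h2, mul_comm]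
  rw [e1, e2, e3]
  have a1 := d01 X
  have a2 := d02 X
  have a3 := d12 X
  generalize √2 * X 0 = p at *
  generalize √6 * X 1 = s at *
  constructor
  · rintro ⟨h1, h2⟩
    have b1 := abs_le.1 h1
    have b2 := abs_le.1 h2
    have b3 := le_abs_self p
    have b4 := neg_abs_le p
    intro j k
    fin_cases j <;> fin_cases k
    · show Rot X 0 - Rot X 0 ≤ 1; linarith
    · show Rot X 0 - Rot X 1 ≤ 1; linarith
    · show Rot X 0 - Rot X 2 ≤ 1; linarith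
    · show Rot X 1 - Rot X 0 ≤ 1; linarith
    · show Rot X 1 - Rot X 1 ≤ 1; linarith
    · show Rot X 1 - Rot X 2 ≤ 1; linarith
    · show Rot X 2 - Rot X 0 ≤ 1; linarith
    · show Rot X 2 - Rot X 1 ≤ 1; linarith
    · show Rot X 2 - Rot X 2 ≤ 1; linarith
  · intro h
    have b1 := h 0 1
    have b2 := h 1 0
    have b3 := h 0 2
    have b4 := h 2 0
    have b5 := h 1 2
    have b6 := h 2 1
    refine ⟨abs_le.2 ⟨by linarith, by linarith⟩, abs_le.2 ⟨?_, ?_⟩⟩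
    · have : |p| ≤ 2 + s := abs_le.2 ⟨by linarith, by linarith⟩
      linarith
    · have : |p| ≤ 2 - s := abs_le.2 ⟨by linarith, by linarith⟩
      linarith

theorem hx_norm {u : P2} (h : u ∈ Hx) : ‖u‖ ^ 2 ≤ 2 / 3 := by
  obtain ⟨h1, h2⟩ := h
  have hp2 := p2
  have hp6 := p6
  have e2 : √2 * |u 0| ≤ 1 := by
    have := (le_div_iff₀ hp2).1 h1
    linarith
  have e3 : √6 * |u 1| ≤ 2 - √2 * |u 0| := by
    have := (le_div_iff₀ hp6).1 h2
    linarith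
  have e4 : ‖u‖ ^ 2 = (√2 * |u 0|) ^ 2 / 2 + (√6 * |u 1|) ^ 2 / 6 := by
    rw [nsq2, mul_pow, mul_pow, r2, r6, sq_abs, sq_abs]; ring
  have e5 : 0 ≤ √2 * |u 0| := by positivity
  have e6 : 0 ≤ √6 * |u 1| := by positivity
  rw [e4]
  generalize √2 * |u 0| = p at *
  generalize √6 * |u 1| = s at *
  have : s ^ 2 ≤ (2 - p) ^ 2 := pow_le_pow_left₀ e6 e3 2
  nlinarith

/-! ### The dome -/

noncomputable def χD : ContDiffBump (0 : P2) := ⟨0.9, 1.2, by norm_num, by norm_num⟩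
noncomputable def χC : ContDiffBump (0 : P2) := ⟨2.5, 3, by norm_num, by norm_num⟩

noncomputable def lam : ℝ := 7723 / 57122
theorem lam_pos : 0 < lam := by unfold lam; norm_num

noncomputable def gD : P2 → ℝ := capf (√3 * (52 / 165)) 1 1 χD
noncomputable def gC : P2 → ℝ := capf (-(√3 * (52 / 165)) / lam) (1 / lam) (lam ^ 2) χC

theorem gD_cont : ContDiff ℝ 1 gD :=
  capf_contDiff one_pos (by show (1 : ℝ) * (1.2 : ℝ) ^ 2 < 2; norm_num)

theorem gC_cont : ContDiff ℝ 1 gC :=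
  capf_contDiff (by have := lam_pos; positivity)
    (by show lam ^ 2 * (3 : ℝ) ^ 2 < 2; unfold lam; norm_num)

theorem norm_lt_of_sq {u : P2} {a b : ℝ} (h : ‖u‖ ^ 2 ≤ a) (hb : 0 ≤ b) (hab : a < b ^ 2) :
    ‖u‖ < b := by
  by_contra hn
  push Not at hn
  have := pow_le_pow_left₀ hb hn 2
  linarith

theorem gD_eq {u : P2} (h : ‖u‖ ^ 2 ≤ 2 / 3) : gD u = √3 * (52 / 165) + √(2 - ‖u‖ ^ 2) := by
  have h1 : ‖u‖ ≤ χD.rIn :=
    (norm_lt_of_sq h (by norm_num) (by norm_num) : ‖u‖ < (0.9 : ℝ)).le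
  unfold gD
  rw [capf_eq h1]; simp

theorem gD_J {u : P2} (h : ‖u‖ ^ 2 ≤ 2 / 3) : J gD u = √(2 / (2 - ‖u‖ ^ 2)) := by
  have h1 : ‖u‖ < χD.rIn := (norm_lt_of_sq h (by norm_num) (by norm_num) : ‖u‖ < (0.9 : ℝ))
  unfold gD
  rw [capf_J one_pos (by show (1 : ℝ) * (1.2 : ℝ) ^ 2 < 2; norm_num) (by norm_num) h1, one_mul]

theorem gC_eq {u : P2} (h : ‖u‖ ^ 2 ≤ 29 / 5) :
    gC u = (√(2 - lam ^ 2 * ‖u‖ ^ 2) - √3 * (52 / 165)) / lam := by
  have h1 : ‖u‖ ≤ χC.rIn :=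
    (norm_lt_of_sq h (by norm_num) (by norm_num) : ‖u‖ < (2.5 : ℝ)).le
  unfold gC
  rw [capf_eq h1]
  have := lam_pos.ne'
  field_simp
  ring

theorem gC_J {u : P2} (h : ‖u‖ ^ 2 ≤ 29 / 5) : J gC u = √(2 / (2 - lam ^ 2 * ‖u‖ ^ 2)) := by
  have h1 : ‖u‖ < χC.rIn := (norm_lt_of_sq h (by norm_num) (by norm_num) : ‖u‖ < (2.5 : ℝ))
  unfold gC
  have := lam_pos
  rw [capf_J (by positivity) (by show lam ^ 2 * (3 : ℝ) ^ 2 < 2; unfold lam; norm_num)
    (by field_simp) h1]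

theorem s3K : √3 * (52 / 165) < 0.55 := by have := s3u; linarith
theorem s3Kp : 0 < √3 * (52 / 165) := by have := p3; positivity

theorem zz_pos_of_Tp {Y : E3} (h : Y ∈ MS iTp) : 0 < zz Y := by
  have h1 := h.2.resolve_left (show iTp.s ≠ 0 by decide)
  have h2 : iTp.s = 1 := rfl
  rw [h2] at h1
  exact sign_eq_one_iff.1 h1

theorem mem_Tp {Y : E3} {i : Idx} (hz : 0 < zz Y) (h : Y ∈ MS i) (he : Vf i Y = Vf iTp Y) :
    Y ∈ MS iTp := by
  have hs : Sg iTp Y := Or.inr (by rw [sign_pos hz]; rfl)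
  refine ⟨?_, hs⟩
  intro k
  rw [val_pt iTp Y hs, ← he, ← val_pt i Y h.2]
  exact h.1 k

theorem dome_eq : MS iP ∩ MS iTp = Rot '' (Gr gD '' Hx) := by
  have hK := s3K
  have hKp := s3Kp
  ext Y
  constructor
  · rintro ⟨hP, hT⟩
    set X := Rot.symm Y with hX
    have hY : Rot X = Y := Rot.apply_symm_apply Y
    have hz := zz_pos_of_Tp hT
    have hv := Vf_eq hP hT
    rw [Vf_P, Vf_Tp, ← hY, norm_Rot, zz_Rot] at hv
    rw [← hY, zz_Rot] at hz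
    have hx : pu X ∈ Hx := by
      rw [hx_iff, hY]
      exact fun j k => hex_of_P hP j k
    have hn := hx_norm hx
    have hX2 : 0 < X 2 := by
      have := p3
      exact (mul_pos_iff_of_pos_left this).1 hz
    have hsq : (X 2 - √3 * (52 / 165)) ^ 2 = 2 - ‖pu X‖ ^ 2 := by
      rw [pu_sq]
      have : (X 2 - √3 * (52 / 165)) ^ 2 = X 2 ^ 2 - 2 * (52 / 165) * (√3 * X 2) +
          √3 ^ 2 * (52 / 165) ^ 2 := by ring
      rw [this, r3]
      linarith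
    have hge : 0 ≤ X 2 - √3 * (52 / 165) := by
      by_contra hn'
      push Not at hn'
      have h1 : (X 2 - √3 * (52 / 165)) ^ 2 ≤ 0.55 ^ 2 := by
        rw [sq_le_sq, abs_of_neg hn', abs_of_pos (by norm_num)]
        linarith
      rw [hsq] at h1
      norm_num at h1
      linarith
    refine ⟨X, ⟨pu X, hx, ?_⟩, hY⟩
    refine Gr_pu ?_
    rw [gD_eq hn, ← hsq, Real.sqrt_sq hge]
    ring
  · rintro ⟨_, ⟨u, hu, rfl⟩, rfl⟩
    have hn := hx_norm hu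
    set X := Gr gD u with hX
    have hpu : pu X = u := by
      ext j; fin_cases j <;> rfl
    have hX2 : X 2 = √3 * (52 / 165) + √(2 - ‖u‖ ^ 2) := by
      have : X 2 = gD u := rfl
      rw [this, gD_eq hn]
    have hs : 0 < √(2 - ‖u‖ ^ 2) := Real.sqrt_pos.2 (by linarith)
    have hz : 0 < zz (Rot X) := by
      rw [zz_Rot, hX2]
      have := p3
      positivity
    have hd : 1 / 2 * ‖Rot X‖ ^ 2 - 7723 / 9075 = 52 / 165 * zz (Rot X) := by
      rw [norm_Rot, zz_Rot, ← pu_sq, hpu, hX2]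
      have h1 : √(2 - ‖u‖ ^ 2) ^ 2 = 2 - ‖u‖ ^ 2 := Real.sq_sqrt (by linarith)
      have h2 := r3
      linear_combination (1 / 2) * h1 - (1 / 2) * (52 / 165) ^ 2 * h2
    have hP : Rot X ∈ MS iP := by
      refine dome_mem ?_ hz hd
      rw [← hx_iff, hpu]; exact hu
    refine ⟨hP, mem_Tp hz hP ?_⟩
    rw [Vf_P, Vf_Tp, hd]

/-- the disc -/
def Dc : Set P2 := {u | ‖u‖ ^ 2 < 29 / 5}

theorem cap_eq : (MS i0 ∩ MS iTp) ∩ {Y | rr Y < 29 / 5} = Rot '' (Gr gC '' Dc) := by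
  have hKp := s3Kp
  have hl := lam_pos
  ext Y
  constructor
  · rintro ⟨⟨h0, hT⟩, hr⟩
    set X := Rot.symm Y with hX
    have hY : Rot X = Y := Rot.apply_symm_apply Y
    have hz := zz_pos_of_Tp hT
    have hv := Vf_eq h0 hT
    rw [Vf_0, Vf_Tp, ← hY, norm_Rot, zz_Rot] at hv
    rw [← hY, zz_Rot] at hz
    have hr' : ‖pu X‖ ^ 2 < 29 / 5 := by
      rw [pu_sq, ← rr_Rot, hY]; exact hr
    have hX2 : 0 < X 2 := by
      have := p3
      exact (mul_pos_iff_of_pos_left this).1 hz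
    have hsq : (lam * X 2 + √3 * (52 / 165)) ^ 2 = 2 - lam ^ 2 * ‖pu X‖ ^ 2 := by
      rw [pu_sq]
      have : (lam * X 2 + √3 * (52 / 165)) ^ 2 = lam ^ 2 * X 2 ^ 2 + 2 * lam * (52 / 165) *
          (√3 * X 2) + √3 ^ 2 * (52 / 165) ^ 2 := by ring
      rw [this, r3]
      unfold lam
      linear_combination (-2 * (7723 / 57122)) * hv
    refine ⟨X, ⟨pu X, hr', ?_⟩, hY⟩
    refine Gr_pu ?_
    rw [gC_eq hr'.le, ← hsq, Real.sqrt_sq (by positivity)]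
    field_simp
    ring
  · rintro ⟨_, ⟨u, hu, rfl⟩, rfl⟩
    have hu' : ‖u‖ ^ 2 < 29 / 5 := hu
    set X := Gr gC u with hX
    have hpu : pu X = u := by
      ext j; fin_cases j <;> rfl
    have hX2 : lam * X 2 = √(2 - lam ^ 2 * ‖u‖ ^ 2) - √3 * (52 / 165) := by
      have : X 2 = gC u := rfl
      rw [this, gC_eq hu'.le]
      field_simp
    have hl2 : lam ^ 2 < 0.0183 := by unfold lam; norm_num
    have hpos : 0 < 2 - lam ^ 2 * ‖u‖ ^ 2 := by nlinarith [sq_nonneg ‖u‖]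
    have hs1 : (1 : ℝ) ≤ √(2 - lam ^ 2 * ‖u‖ ^ 2) := by
      rw [Real.one_le_sqrt]; nlinarith [sq_nonneg ‖u‖]
    have hX2p : 0 < X 2 := by
      have h1 : 0 < lam * X 2 := by rw [hX2]; have := s3K; linarith
      exact (mul_pos_iff_of_pos_left hl).1 h1
    have hz : 0 < zz (Rot X) := by
      rw [zz_Rot]
      have := p3
      positivity
    have hr : rr (Rot X) < 29 / 5 := by rw [rr_Rot, ← pu_sq, hpu]; exact hu'
    have hd : -(7723 / 114244) * ‖Rot X‖ ^ 2 + 57122 / 9075 = 52 / 165 * zz (Rot X) := by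
      rw [norm_Rot, zz_Rot, ← pu_sq, hpu]
      have h1 : √(2 - lam ^ 2 * ‖u‖ ^ 2) ^ 2 = 2 - lam ^ 2 * ‖u‖ ^ 2 := Real.sq_sqrt hpos.le
      have h2 := r3
      have h3 : √(2 - lam ^ 2 * ‖u‖ ^ 2) = lam * X 2 + √3 * (52 / 165) := by linarith
      rw [h3] at h1
      have h4 : lam * (-(7723 / 114244) * (‖u‖ ^ 2 + X 2 ^ 2) + 57122 / 9075) =
          lam * (52 / 165 * (√3 * X 2)) := by
        unfold lam at h1 ⊢
        linear_combination (-1 / 2) * h1 + (1 / 2) * (52 / 165) ^ 2 * h2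
      exact mul_left_cancel₀ hl.ne' h4
    have h0 : Rot X ∈ MS i0 := cap_mem hr.le hz hd
    refine ⟨⟨h0, mem_Tp hz h0 ?_⟩, hr⟩
    rw [Vf_0, Vf_Tp, hd]

/-! ### The wall -/

/-- an isometry onto the plane of the wall -/
noncomputable def Ps (u : P2) : E3 :=
  !₂[1 / 2 + u 0 / √6 + u 1 / √3, -(2 * u 0 / √6) + u 1 / √3, -(1 / 2) + u 0 / √6 + u 1 / √3]

theorem Ps_isom : Isometry Ps := by
  apply Isometry.of_dist_eq
  intro X Y
  have := r3; have := r6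
  have := p3.ne'; have := p6.ne'
  rw [EuclideanSpace.dist_eq, EuclideanSpace.dist_eq]
  congr 1
  rw [Fin.sum_univ_three, Fin.sum_univ_two]
  simp only [Real.dist_eq, sq_abs]
  simp [Ps]
  field_simp
  ring_nf
  simp only [r3, r6]
  ring

theorem wall_height {Y : E3} (hP : Y ∈ MS iP) (hE : Y ∈ MS iE0) : |zz Y| ≤ 52 / 55 + 3 / √2 := by
  have h1 := ball_of_P hP
  have h2 := Vf_eq hP hE
  have h3 := Vf_E0 Y
  have h4 : Y 0 - Y 2 = 1 := by linarith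
  have h5 := nsq Y
  have h6 : ‖Y‖ ^ 2 - zz Y ^ 2 / 3 = 1 / 2 + (Y 0 - 2 * Y 1 + Y 2) ^ 2 / 6 := by
    rw [h5]; unfold zz
    have e : Y 0 = Y 2 + 1 := by linarith
    rw [e]; ring
  have h7 : 1 / 2 ≤ ‖Y‖ ^ 2 - zz Y ^ 2 / 3 := by
    rw [h6]; nlinarith [sq_nonneg (Y 0 - 2 * Y 1 + Y 2)]
  have h8 : |zz Y| ^ 2 = zz Y ^ 2 := sq_abs _
  have h9 : (|zz Y| - 52 / 55) ^ 2 ≤ (3 / √2) ^ 2 := by
    rw [div_pow, r2]
    nlinarith
  have := abs_le_of_sq_le_sq h9 (by positivity)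
  have := (abs_le.1 this).2
  linarith

theorem wall_sub : MS iP ∩ MS iE0 ⊆
    Ps '' {u : P2 | |u 0| ≤ 1 / √6 ∧ |u 1| ≤ (52 / 55 + 3 / √2) / √3} := by
  rintro Y ⟨hP, hE⟩
  have h0 := wall_height hP hE
  have h2 := Vf_eq hP hE
  have h3 := Vf_E0 Y
  have h4 : Y 0 - Y 2 = 1 := by linarith
  have p3 := p3
  have p6 := p6
  refine ⟨!₂[(Y 0 - 2 * Y 1 + Y 2) / √6, zz Y / √3], ⟨?_, ?_⟩, ?_⟩
  · show |(Y 0 - 2 * Y 1 + Y 2) / √6| ≤ 1 / √6
    rw [abs_div, abs_of_pos p6]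
    refine div_le_div_of_nonneg_right ?_ p6.le
    have a1 := hex_of_P hP 0 1
    have a2 := hex_of_P hP 1 2
    rw [abs_le]
    constructor <;> linarith
  · show |zz Y / √3| ≤ (52 / 55 + 3 / √2) / √3
    rw [abs_div, abs_of_pos p3]
    exact div_le_div_of_nonneg_right h0 p3.le
  · have r3' : √3 * √3 = 3 := Real.mul_self_sqrt (by norm_num)
    have r6' : √6 * √6 = 6 := Real.mul_self_sqrt (by norm_num)
    have e1 : (Y 0 - 2 * Y 1 + Y 2) / √6 / √6 = (Y 0 - 2 * Y 1 + Y 2) / 6 := by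
      rw [div_div, r6']
    have e2 : zz Y / √3 / √3 = zz Y / 3 := by rw [div_div, r3']
    ext j
    fin_cases j
    · simp [Ps]
      rw [e1, e2]; unfold zz; linarith
    · simp [Ps]
      rw [mul_div_assoc, e1, e2]; unfold zz; linarith
    · simp [Ps]
      rw [e1, e2]; unfold zz; linarith

theorem wall_area : (μHE[2] : Measure E3).real (MS iP ∩ MS iE0) ≤
    4 * (1 / √6) * ((52 / 55 + 3 / √2) / √3) := by
  have p2 := p2
  have p3 := p3
  have p6 := p6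
  have h1 : (μHE[2] : Measure E3) (Ps '' {u : P2 | |u 0| ≤ 1 / √6 ∧
      |u 1| ≤ (52 / 55 + 3 / √2) / √3}) =
      volume {u : P2 | |u 0| ≤ 1 / √6 ∧ |u 1| ≤ (52 / 55 + 3 / √2) / √3} := by
    rw [Ps_isom.euclideanHausdorffMeasure_image,
      EuclideanSpace.euclideanHausdorffMeasure_eq_volume]
  have h2 := vol_rect (a := 1 / √6) (b := (52 / 55 + 3 / √2) / √3) (by positivity) (by positivity)
  have h3 : volume {u : P2 | |u 0| ≤ 1 / √6 ∧ |u 1| ≤ (52 / 55 + 3 / √2) / √3} ≠ ⊤ := by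
    intro h
    rw [Measure.real, h] at h2
    simp at h2
    have : 0 < 4 * (1 / √6) * ((52 / 55 + 3 / √2) / √3) := by positivity
    simp at this
    linarith
  rw [← h2, Measure.real, Measure.real, ← h1]
  refine ENNReal.toReal_mono (by rw [h1]; exact h3) (measure_mono wall_sub)

/-! ### The arc -/

/-- the arc -/
def Arc : Set E3 := (MS iP ∩ MS iTp) ∩ MS iE0

/-- its parametrisation -/
noncomputable def ga (τ : ℝ) : E3 :=
  !₂[(52 / 55 + √(9 / 2 - 2 * τ ^ 2) - τ) / 3 + 1 / 2,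
    (52 / 55 + √(9 / 2 - 2 * τ ^ 2) - τ) / 3 + τ,
    (52 / 55 + √(9 / 2 - 2 * τ ^ 2) - τ) / 3 - 1 / 2]

theorem arc_z {Y : E3} (hP : Y ∈ MS iP) (hT : Y ∈ MS iTp) : 162 / 55 ≤ zz Y := by
  have hz := zz_pos_of_Tp hT
  have hv := Vf_eq hP hT
  rw [Vf_P, Vf_Tp] at hv
  have hr : ‖Y‖ ^ 2 - zz Y ^ 2 / 3 ≤ 2 / 3 := by
    have h1 : Rot (Rot.symm Y) = Y := Rot.apply_symm_apply Y
    have h2 : pu (Rot.symm Y) ∈ Hx := by
      rw [hx_iff, h1]
      exact fun j k => hex_of_P hP j k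
    have h3 := hx_norm h2
    rw [pu_sq, ← rr_Rot, h1] at h3
    exact h3
  have := el4 (N := ‖Y‖ ^ 2) (z := zz Y) (by linarith) hr hz
  linarith

theorem arc_eq : Arc = ga '' Icc (-(1 / 2)) (1 / 2) := by
  ext Y
  constructor
  · rintro ⟨⟨hP, hT⟩, hE⟩
    have hz := arc_z hP hT
    have hv := Vf_eq hP hT
    rw [Vf_P, Vf_Tp, nsq] at hv
    have h2 := Vf_eq hP hE
    have h3 := Vf_E0 Y
    have h4 : Y 0 = Y 2 + 1 := by linarith
    have a1 := hex_of_P hP 0 1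
    have a2 := hex_of_P hP 1 2
    refine ⟨Y 1 - (Y 0 + Y 2) / 2, ⟨by linarith, by linarith⟩, ?_⟩
    have hs : √(9 / 2 - 2 * (Y 1 - (Y 0 + Y 2) / 2) ^ 2) = zz Y - 52 / 55 := by
      rw [← Real.sqrt_sq (show (0 : ℝ) ≤ zz Y - 52 / 55 by linarith)]
      congr 1
      unfold zz at hv ⊢
      rw [h4] at hv ⊢
      linear_combination (-6) * hv
    ext j
    fin_cases j
    · show (52 / 55 + √(9 / 2 - 2 * (Y 1 - (Y 0 + Y 2) / 2) ^ 2) - (Y 1 - (Y 0 + Y 2) / 2)) / 3 +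
        1 / 2 = Y 0
      rw [hs]; unfold zz; linarith
    · show (52 / 55 + √(9 / 2 - 2 * (Y 1 - (Y 0 + Y 2) / 2) ^ 2) - (Y 1 - (Y 0 + Y 2) / 2)) / 3 +
        (Y 1 - (Y 0 + Y 2) / 2) = Y 1
      rw [hs]; unfold zz; linarith
    · show (52 / 55 + √(9 / 2 - 2 * (Y 1 - (Y 0 + Y 2) / 2) ^ 2) - (Y 1 - (Y 0 + Y 2) / 2)) / 3 -
        1 / 2 = Y 2
      rw [hs]; unfold zz; linarith
  · rintro ⟨τ, ⟨ht1, ht2⟩, rfl⟩
    have hτ : τ ^ 2 ≤ 1 / 4 := by nlinarith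
    set σ := √(9 / 2 - 2 * τ ^ 2) with hσ
    have hσ2 : σ ^ 2 = 9 / 2 - 2 * τ ^ 2 := Real.sq_sqrt (by linarith)
    have hσ0 : 0 ≤ σ := Real.sqrt_nonneg _
    have e0 : ga τ 0 = (52 / 55 + σ - τ) / 3 + 1 / 2 := rfl
    have e1 : ga τ 1 = (52 / 55 + σ - τ) / 3 + τ := rfl
    have e2 : ga τ 2 = (52 / 55 + σ - τ) / 3 - 1 / 2 := rfl
    have ez : zz (ga τ) = 52 / 55 + σ := by unfold zz; rw [e0, e1, e2]; ring
    have hz : 0 < zz (ga τ) := by rw [ez]; linarith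
    have hd : 1 / 2 * ‖ga τ‖ ^ 2 - 7723 / 9075 = 52 / 165 * zz (ga τ) := by
      rw [nsq, ez, e0, e1, e2]
      linear_combination (1 / 6) * hσ2
    have hP : ga τ ∈ MS iP := by
      refine dome_mem ?_ hz hd
      intro j k
      fin_cases j <;> fin_cases k
      · show ga τ 0 - ga τ 0 ≤ 1; linarith
      · show ga τ 0 - ga τ 1 ≤ 1; linarith
      · show ga τ 0 - ga τ 2 ≤ 1; linarith
      · show ga τ 1 - ga τ 0 ≤ 1; linarith
      · show ga τ 1 - ga τ 1 ≤ 1; linarith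
      · show ga τ 1 - ga τ 2 ≤ 1; linarith
      · show ga τ 2 - ga τ 0 ≤ 1; linarith
      · show ga τ 2 - ga τ 1 ≤ 1; linarith
      · show ga τ 2 - ga τ 2 ≤ 1; linarith
    have hT : ga τ ∈ MS iTp := mem_Tp hz hP (by rw [Vf_P, Vf_Tp, hd])
    refine ⟨⟨hP, hT⟩, ?_, Or.inl rfl⟩
    intro k
    have h1 : val iE0.q (pt (ga τ)) = val iP.q (pt (ga τ)) := by
      rw [val_pt iE0 _ (Or.inl rfl), val_pt iP _ (Or.inl rfl)]
      have := Vf_E0 (ga τ)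
      rw [e0, e2] at this
      linarith
    rw [h1]
    exact hP.1 k

theorem ga_lip : LipschitzOnWith 6 ga (Icc (-(1 / 2)) (1 / 2)) := by
  refine LipschitzOnWith.of_dist_le_mul ?_
  rintro s ⟨hs1, hs2⟩ t ⟨ht1, ht2⟩
  have hσ : ∀ τ : ℝ, -(1 / 2) ≤ τ → τ ≤ 1 / 2 → 2 ≤ √(9 / 2 - 2 * τ ^ 2) ∧
      √(9 / 2 - 2 * τ ^ 2) ^ 2 = 9 / 2 - 2 * τ ^ 2 := by
    intro τ h1 h2
    have hτ : τ ^ 2 ≤ 1 / 4 := by nlinarith
    refine ⟨Real.le_sqrt_of_sq_le (by linarith), Real.sq_sqrt (by linarith)⟩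
  obtain ⟨a1, a2⟩ := hσ s hs1 hs2
  obtain ⟨b1, b2⟩ := hσ t ht1 ht2
  have key : |√(9 / 2 - 2 * s ^ 2) - √(9 / 2 - 2 * t ^ 2)| ≤ |s - t| := by
    have e : (√(9 / 2 - 2 * s ^ 2) - √(9 / 2 - 2 * t ^ 2)) *
        (√(9 / 2 - 2 * s ^ 2) + √(9 / 2 - 2 * t ^ 2)) = -2 * (s + t) * (s - t) := by
      linear_combination a2 - b2
    have e2 : |√(9 / 2 - 2 * s ^ 2) - √(9 / 2 - 2 * t ^ 2)| *
        |√(9 / 2 - 2 * s ^ 2) + √(9 / 2 - 2 * t ^ 2)| = 2 * |s + t| * |s - t| := by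
      rw [← abs_mul, e, abs_mul, abs_mul]; norm_num
    have e3 : 4 ≤ |√(9 / 2 - 2 * s ^ 2) + √(9 / 2 - 2 * t ^ 2)| := by
      rw [abs_of_nonneg (by linarith)]; linarith
    have e4 : |s + t| ≤ 1 := abs_le.2 ⟨by linarith, by linarith⟩
    have e5 := abs_nonneg (√(9 / 2 - 2 * s ^ 2) - √(9 / 2 - 2 * t ^ 2))
    have e6 := abs_nonneg (s - t)
    nlinarith
  rw [EuclideanSpace.dist_eq, Real.dist_eq]
  refine Real.sqrt_le_iff.2 ⟨by positivity, ?_⟩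
  rw [Fin.sum_univ_three]
  simp only [Real.dist_eq, sq_abs]
  have k1 := abs_le.1 key
  simp only [ga]
  simp
  set A := √(9 / 2 - 2 * s ^ 2) with hA
  set B := √(9 / 2 - 2 * t ^ 2) with hB
  have hAB : (A - B) ^ 2 ≤ (s - t) ^ 2 := by
    rw [sq_le_sq]; exact key
  have h36 : (6 * |s - t|) ^ 2 = 36 * (s - t) ^ 2 := by rw [mul_pow, sq_abs]; norm_num
  rw [h36]
  nlinarith [sq_nonneg ((A - B) - (s - t)), sq_nonneg ((A - B) + (s - t))]

theorem arc_finite : (μHE[1] : Measure E3) Arc < ⊤ := by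
  rw [arc_eq]; exact muHE_finite ga_lip

/-- the projection to the direction of the arc -/
noncomputable def pj (Y : E3) : ℝ := (Y 0 - 2 * Y 1 + Y 2) / √6

theorem pj_lip : LipschitzWith 1 pj := by
  refine LipschitzWith.of_dist_le_mul ?_
  intro X Y
  have p6 := p6
  rw [EuclideanSpace.dist_eq, Real.dist_eq]
  simp only [NNReal.coe_one, one_mul]
  refine Real.le_sqrt_of_sq_le ?_
  rw [sq_abs, Fin.sum_univ_three]
  simp only [Real.dist_eq, sq_abs]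
  unfold pj
  rw [← sub_div, div_pow, r6, div_le_iff₀ (by norm_num)]
  nlinarith [sq_nonneg ((X 0 - Y 0) * 2 + (X 1 - Y 1)), sq_nonneg ((X 2 - Y 2) * 2 + (X 1 - Y 1)),
    sq_nonneg ((X 0 - Y 0) - (X 2 - Y 2))]

theorem arc_length : 2 / √6 ≤ (μHE[1] : Measure E3).real Arc := by
  have p6 := p6
  have h1 : Icc (-(1 / √6)) (1 / √6) ⊆ pj '' Arc := by
    rintro x ⟨hx1, hx2⟩
    have e1 : √6 * (1 / √6) = 1 := by field_simp
    have hx3 : √6 * x ≤ 1 := by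
      have := mul_le_mul_of_nonneg_left hx2 p6.le
      linarith
    have hx4 : -1 ≤ √6 * x := by
      have := mul_le_mul_of_nonneg_left hx1 p6.le
      linarith
    rw [arc_eq]
    refine ⟨ga (-(√6 * x) / 2), ⟨_, ⟨by linarith, by linarith⟩, rfl⟩, ?_⟩
    unfold pj ga
    simp
    field_simp
    ring
  have h2 : ENNReal.ofReal (2 / √6) ≤ (μHE[1] : Measure E3) Arc := by
    calc ENNReal.ofReal (2 / √6) = volume (Icc (-(1 / √6)) (1 / √6)) := by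
          rw [Real.volume_Icc]; congr 1; ring
      _ = (μHE[1] : Measure ℝ) (Icc (-(1 / √6)) (1 / √6)) := by rw [muHE_real]
      _ ≤ (μHE[1] : Measure ℝ) (pj '' Arc) := measure_mono h1
      _ ≤ _ := muHE_lip_le pj_lip
  rw [Measure.real, ← ENNReal.ofReal_le_iff_le_toReal arc_finite.ne]
  exact h2

theorem arc_int : (162 / 55) ^ 2 * (2 / √6) ≤ ∫ x in Arc, zz x ^ 2 ∂μHE[1] := by
  have hm : MeasurableSet Arc :=
    (((isClosed_ms _).inter (isClosed_ms _)).inter (isClosed_ms _)).measurableSet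
  have hub : ∀ x ∈ Arc, zz x ≤ 3.4 := by
    rintro x ⟨⟨hP, hT⟩, _⟩
    have hv := Vf_eq hP hT
    rw [Vf_P, Vf_Tp] at hv
    refine el1 (N := ‖x‖ ^ 2) (by linarith) ?_
    have := nsq x
    rw [this]; unfold zz
    nlinarith [sq_nonneg (x 0 - x 1), sq_nonneg (x 1 - x 2), sq_nonneg (x 0 - x 2)]
  have hint : IntegrableOn (fun x => zz x ^ 2) Arc (μHE[1] : Measure E3) := by
    refine Measure.integrableOn_of_bounded (M := 3.4 ^ 2) arc_finite.ne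
      (continuous_zz.pow 2).aestronglyMeasurable ?_
    rw [ae_restrict_iff' hm]
    refine Eventually.of_forall fun x hx => ?_
    rw [Real.norm_of_nonneg (sq_nonneg _)]
    have h1 := hub x hx
    have h2 := arc_z hx.1.1 hx.1.2
    exact pow_le_pow_left₀ (by linarith) h1 2
  have hc : ∫ _ in Arc, ((162 / 55 : ℝ)) ^ 2 ∂(μHE[1] : Measure E3) =
      (162 / 55) ^ 2 * (μHE[1] : Measure E3).real Arc := by
    rw [setIntegral_const, smul_eq_mul, mul_comm]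
  calc (162 / 55) ^ 2 * (2 / √6) ≤ (162 / 55) ^ 2 * (μHE[1] : Measure E3).real Arc :=
        mul_le_mul_of_nonneg_left arc_length (by positivity)
    _ = ∫ _ in Arc, ((162 / 55 : ℝ)) ^ 2 ∂(μHE[1] : Measure E3) := hc.symm
    _ ≤ _ := by
      refine setIntegral_mono_on ?_ hint hm ?_
      · exact integrableOn_const arc_finite.ne
      · intro x hx
        have h2 := arc_z hx.1.1 hx.1.2
        exact pow_le_pow_left₀ (by norm_num) h2 2

end Pool.Agent.J6H64.KU
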