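import Pool.Agent.J6H64.KU.Ev3

set_option autoImplicit false
set_option maxHeartbeats 4000000

open MeasureTheory Set Filter Topology
open scoped ENNReal NNReal ContDiff

namespace Pool.Agent.J6H64.KU

open Pool.Agent.H934R3.NP (P2 Gr)
open Pool.Agent.H784R3.NPA1 (J cont_J one_le_J nsq2 contDiff_Gr)

/-! ### Gradients -/

noncomputable def one : E3 := !₂[1, 1, 1]

theorem zz_inner (Y : E3) : zz Y = inner ℝ one Y := by
  rw [inn]; simp [one, zz]

theorem one_sq : ‖one‖ ^ 2 = 3 := by rw [nsq]; simp [one]; norm_num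

theorem grad_of {f : E3 → ℝ} {v Y : E3} (h : HasFDerivAt f (innerSL ℝ v) Y) : gradient f Y = v := by
  unfold gradient
  rw [h.fderiv, LinearIsometryEquiv.symm_apply_eq]
  rfl

theorem hasFDerivAt_zz (Y : E3) : HasFDerivAt zz (innerSL ℝ one) Y := by
  have h : zz = fun Y => innerSL ℝ one Y := by funext Y; exact zz_inner Y
  rw [h]
  exact (innerSL ℝ one).hasFDerivAt

theorem hasFDerivAt_rr (Y : E3) :
    HasFDerivAt rr (innerSL ℝ ((2 : ℝ) • Y - (2 / 3 * zz Y) • one)) Y := by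
  have h1 : HasFDerivAt (fun v : E3 => ‖v‖ ^ 2) (2 • (innerSL ℝ Y)) Y := by
    have := (hasFDerivAt_id (𝕜 := ℝ) Y).norm_sq
    refine this.congr_fderiv ?_
    ext z; simp
  have h2 := (hasFDerivAt_zz Y).pow 2
  have h3 := h1.sub (h2.const_mul (1 / 3))
  have e : rr = fun Y => ‖Y‖ ^ 2 - 1 / 3 * zz Y ^ 2 := by funext Y; unfold rr; ring
  rw [e]
  refine h3.congr_fderiv ?_
  ext z
  simp
  ring

theorem contDiff_zz : ContDiff ℝ ∞ zz := by unfold zz; fun_prop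
theorem contDiff_rr : ContDiff ℝ ∞ rr := by
  unfold rr
  have h : ContDiff ℝ ∞ (fun Y : E3 => ‖Y‖ ^ 2) := contDiff_id.norm_sq ℝ
  exact h.sub ((contDiff_zz.pow 2).div_const 3)

/-- the function of the exterior -/
noncomputable def hh (Y : E3) : ℝ := gg (rr Y) * zz Y

theorem contDiff_hh : ContDiff ℝ ∞ hh := (contDiff_gg.comp contDiff_rr).mul contDiff_zz

noncomputable def gv (Y : E3) : E3 :=
  (zz Y * dg (rr Y)) • ((2 : ℝ) • Y - (2 / 3 * zz Y) • one) + gg (rr Y) • one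

theorem hasFDerivAt_hh (Y : E3) : HasFDerivAt hh (innerSL ℝ (gv Y)) Y := by
  have h1 : HasFDerivAt (fun Y => gg (rr Y))
      (dg (rr Y) • innerSL ℝ ((2 : ℝ) • Y - (2 / 3 * zz Y) • one)) Y := by
    have := (hasDerivAt_gg (rr Y)).comp_hasFDerivAt Y (hasFDerivAt_rr Y)
    exact this
  have h2 := h1.mul (hasFDerivAt_zz Y)
  refine h2.congr_fderiv ?_
  unfold gv
  ext z
  simp
  ring

theorem gv_sq (Y : E3) : ‖gv Y‖ ^ 2 = 4 * (rr Y * dg (rr Y) ^ 2) * zz Y ^ 2 + 3 * gg (rr Y) ^ 2 := by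
  have e : rr Y = ‖Y‖ ^ 2 - zz Y ^ 2 / 3 := rfl
  have key : ∀ d g : ℝ, ‖(zz Y * d) • ((2 : ℝ) • Y - (2 / 3 * zz Y) • one) + g • one‖ ^ 2 =
      4 * ((‖Y‖ ^ 2 - zz Y ^ 2 / 3) * d ^ 2) * zz Y ^ 2 + 3 * g ^ 2 := by
    intro d g
    rw [nsq, nsq]
    simp only [PiLp.add_apply, PiLp.smul_apply, PiLp.sub_apply, smul_eq_mul, one]
    simp
    unfold zz
    ring
  have := key (dg (rr Y)) (gg (rr Y))
  rw [← e] at this
  exact this

/-! ### The potentials -/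

/-- the potentials -/
noncomputable def ps (α0 : ℝ) (i : Idx) (Y : E3) : ℝ :=
  if i = iP then (√2)⁻¹ * zz Y else if i = i0 then -α0 * hh Y else 0

theorem ps_cont (α0 : ℝ) (i : Idx) : ContDiff ℝ ∞ (ps α0 i) := by
  unfold ps
  by_cases h : i = iP
  · simp only [h, if_true]
    exact contDiff_const.mul contDiff_zz
  · by_cases h0 : i = i0
    · simp only [h0]
      by_cases h1 : i0 = iP
      · exact absurd (h0.trans h1) h
      · simp only [h1, if_false, if_true]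
        exact contDiff_const.mul contDiff_hh
    · simp only [h, h0, if_false]
      exact contDiff_const

theorem P_ne_0 : iP ≠ i0 := by
  intro h
  have := congrArg (fun i : Idx => i.q.p 0) h
  exact absurd this (by decide)
theorem Tp_ne_P : iTp ≠ iP := by
  intro h
  have := congrArg (fun i : Idx => i.q.t) h
  exact absurd this (by decide)
theorem Tm_ne_P : iTm ≠ iP := by
  intro h
  have := congrArg (fun i : Idx => i.q.t) h
  exact absurd this (by decide)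
theorem Tp_ne_0 : iTp ≠ i0 := by
  intro h
  have := congrArg (fun i : Idx => i.q.t) h
  exact absurd this (by decide)
theorem Tm_ne_0 : iTm ≠ i0 := by
  intro h
  have := congrArg (fun i : Idx => i.q.t) h
  exact absurd this (by decide)
theorem Tp_ne_Tm : iTp ≠ iTm := by
  intro h
  have := congrArg (fun i : Idx => i.s) h
  exact absurd this (by decide)
theorem E_ne_P (e) : iE' e ≠ iP := by
  intro h
  have : (iE' e).q.t = iP.q.t := by rw [h]
  exact absurd this (by show ¬ ((0 : Fin 5) = 1); decide)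
theorem E_ne_0 (e) : iE' e ≠ i0 := by
  intro h
  have : (iE' e).q.t = i0.q.t := by rw [h]
  exact absurd this (by show ¬ ((0 : Fin 5) = 1); decide)
theorem E_ne_Tp (e) : iE' e ≠ iTp := by
  intro h
  have : (iE' e).q.t = iTp.q.t := by rw [h]
  exact absurd this (by show ¬ ((0 : Fin 5) = 4); decide)
theorem E_ne_Tm (e) : iE' e ≠ iTm := by
  intro h
  have : (iE' e).q.t = iTm.q.t := by rw [h]
  exact absurd this (by show ¬ ((0 : Fin 5) = 4); decide)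

theorem ps_P (α0 : ℝ) (Y : E3) : ps α0 iP Y = (√2)⁻¹ * zz Y := by simp [ps]
theorem ps_0 (α0 : ℝ) (Y : E3) : ps α0 i0 Y = -α0 * hh Y := by
  simp [ps, P_ne_0.symm]
theorem ps_o (α0 : ℝ) {i : Idx} (h : i ≠ iP) (h0 : i ≠ i0) (Y : E3) : ps α0 i Y = 0 := by
  simp [ps, h, h0]

/-- the square of the tangential gradient -/
noncomputable def gsq (α0 : ℝ) (i j : Idx) (Y : E3) : ℝ :=
  ‖gradient (fun Y => ps α0 i Y - ps α0 j Y) Y‖ ^ 2 -
    inner ℝ (gradient (fun Y => ps α0 i Y - ps α0 j Y) Y) ((√2)⁻¹ • (G i Y - G j Y)) ^ 2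

noncomputable def al (i j : Idx) : ℝ := √2 * (aa i - aa j)

noncomputable def W (α0 : ℝ) (i j : Idx) : ℝ :=
  ∫ x in MS i ∩ MS j, (gsq α0 i j x - 2 * al i j ^ 2 * (ps α0 i x - ps α0 j x) ^ 2) ∂μHE[2]

noncomputable def V (α0 : ℝ) (i j l : Idx) : ℝ :=
  ∫ x in (MS i ∩ MS j) ∩ (MS j ∩ MS l), (al i l + al j l) / √3 * (ps α0 i x - ps α0 j x) ^ 2
    ∂μHE[1]

theorem i2 : (√2)⁻¹ * (√2)⁻¹ = (1 / 2 : ℝ) := by
  rw [← mul_inv, ← sq, r2]; norm_num

theorem gradP (α0 : ℝ) {j : Idx} (hj : j ≠ iP) (hj0 : j ≠ i0) (Y : E3) :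
    gradient (fun Y => ps α0 iP Y - ps α0 j Y) Y = (√2)⁻¹ • one := by
  refine grad_of ?_
  have h1 := (hasFDerivAt_zz Y).const_mul (√2)⁻¹
  have e : (fun Y => ps α0 iP Y - ps α0 j Y) = fun Y => (√2)⁻¹ * zz Y := by
    funext Y; rw [ps_P, ps_o α0 hj hj0, sub_zero]
  rw [e]
  refine h1.congr_fderiv ?_
  ext z; simp

theorem grad0 (α0 : ℝ) {j : Idx} (hj : j ≠ iP) (hj0 : j ≠ i0) (Y : E3) :
    gradient (fun Y => ps α0 i0 Y - ps α0 j Y) Y = (-α0) • gv Y := by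
  refine grad_of ?_
  have h1 := (hasFDerivAt_hh Y).const_mul (-α0)
  have e : (fun Y => ps α0 i0 Y - ps α0 j Y) = fun Y => -α0 * hh Y := by
    funext Y; rw [ps_0, ps_o α0 hj hj0, sub_zero]
  rw [e]
  refine h1.congr_fderiv ?_
  ext z; simp

theorem gsqP (α0 : ℝ) {j : Idx} (hj : j ≠ iP) (hj0 : j ≠ i0) (Y : E3) :
    gsq α0 iP j Y = 3 / 2 - (1 / 2 * inner ℝ one (G iP Y - G j Y)) ^ 2 := by
  unfold gsq
  rw [gradP α0 hj hj0, norm_smul, mul_pow, one_sq, inner_smul_left, inner_smul_right]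
  have h1 : ‖((√2)⁻¹ : ℝ)‖ ^ 2 = 1 / 2 := by
    rw [Real.norm_of_nonneg (by positivity), sq, i2]
  have h2 : (starRingEnd ℝ) (√2)⁻¹ * ((√2)⁻¹ * inner ℝ one (G iP Y - G j Y)) =
      1 / 2 * inner ℝ one (G iP Y - G j Y) := by
    rw [RCLike.conj_to_real, ← mul_assoc, i2]
  rw [h1, h2]
  ring

/-- the sum of the coordinates of the gradient of `P` minus the gradient of a neighbour -/
theorem GP_E (e : Equiv.Perm (Fin 3)) (Y : E3) : inner ℝ one (G iP Y - G (iE' e) Y) = 0 := by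
  have e1 : (iE' e).q.t = 0 := rfl
  have e2 : ∀ l, (((iE' e).q.p l : ℤ) : ℝ) = (![2, 1, 0] : Fin 3 → ℝ) (e l) := by
    intro l
    have e1 : (iE' e).q.p l = (1 : ℤ) * (![2, 1, 0] : Fin 3 → ℤ) (e l) := rfl
    rw [e1, one_mul]
    generalize e l = k
    fin_cases k <;> simp
  have e3 : (iE' e).s = 0 := rfl
  have e4 : (![2, 1, 0] : Fin 3 → ℝ) (e 0) + (![2, 1, 0] : Fin 3 → ℝ) (e 1) +
      (![2, 1, 0] : Fin 3 → ℝ) (e 2) = 3 := by
    have := perm_sum e (![2, 1, 0] : Fin 3 → ℝ)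
    rw [this]; simp; norm_num
  have f1 : iP.q.t = 1 := rfl
  have f2 : iP.q.p = ![1, 1, 1] := rfl
  have f3 : iP.s = 0 := rfl
  rw [inn]
  unfold G
  simp only [PiLp.sub_apply, PiLp.add_apply, PiLp.smul_apply, bb0, bb1, bb2, smul_eq_mul, one]
  unfold aa bv sp
  rw [e1, e3, e2, e2, e2, e4, f1, f2, f3]
  simp
  linear_combination e4

theorem GP_Tp (Y : E3) : inner ℝ one (G iP Y - G iTp Y) = zz Y - 52 / 55 := by
  have e1 : iTp.q.t = 4 := rfl
  have e2 : iTp.q.p = ![0, 0, 0] := rfl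
  have e3 : iTp.s = 1 := rfl
  have f1 : iP.q.t = 1 := rfl
  have f2 : iP.q.p = ![1, 1, 1] := rfl
  have f3 : iP.s = 0 := rfl
  rw [inn]
  unfold G zz
  simp only [PiLp.sub_apply, PiLp.add_apply, PiLp.smul_apply, bb0, bb1, bb2, smul_eq_mul, one]
  unfold aa bv sp
  rw [e1, e2, e3, f1, f2, f3]
  simp
  ring

theorem GP_Tm (Y : E3) : inner ℝ one (G iP Y - G iTm Y) = zz Y + 52 / 55 := by
  have e1 : iTm.q.t = 4 := rfl
  have e2 : iTm.q.p = ![0, 0, 0] := rfl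
  have e3 : iTm.s = -1 := rfl
  have f1 : iP.q.t = 1 := rfl
  have f2 : iP.q.p = ![1, 1, 1] := rfl
  have f3 : iP.s = 0 := rfl
  rw [inn]
  unfold G zz
  simp only [PiLp.sub_apply, PiLp.add_apply, PiLp.smul_apply, bb0, bb1, bb2, smul_eq_mul, one]
  unfold aa bv sp
  rw [e1, e2, e3, f1, f2, f3]
  simp
  ring

theorem aaP : aa iP = 1 / 2 := by
  have f1 : iP.q.t = 1 := rfl
  have f2 : iP.q.p = ![1, 1, 1] := rfl
  unfold aa sp
  rw [f1, f2]
  simp
  norm_num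

theorem aaE (e : Equiv.Perm (Fin 3)) : aa (iE' e) = 1 / 2 := by
  have e1 : (iE' e).q.t = 0 := rfl
  have e2 : ∀ l, (((iE' e).q.p l : ℤ) : ℝ) = (![2, 1, 0] : Fin 3 → ℝ) (e l) := by
    intro l
    have e1 : (iE' e).q.p l = (1 : ℤ) * (![2, 1, 0] : Fin 3 → ℤ) (e l) := rfl
    rw [e1, one_mul]
    generalize e l = k
    fin_cases k <;> simp
  have e4 : (![2, 1, 0] : Fin 3 → ℝ) (e 0) + (![2, 1, 0] : Fin 3 → ℝ) (e 1) +
      (![2, 1, 0] : Fin 3 → ℝ) (e 2) = 3 := by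
    have := perm_sum e (![2, 1, 0] : Fin 3 → ℝ)
    rw [this]; simp; norm_num
  unfold aa sp
  rw [e1, e2, e2, e2, e4]
  simp
  norm_num

theorem aaTp : aa iTp = 0 := by
  have e1 : iTp.q.t = 4 := rfl
  unfold aa
  rw [e1]; simp

theorem aaTm : aa iTm = 0 := by
  have e1 : iTm.q.t = 4 := rfl
  unfold aa
  rw [e1]; simp

/-! ### The walls -/

theorem W_E (α0 : ℝ) (e : Equiv.Perm (Fin 3)) :
    W α0 iP (iE' e) ≤ 3 / 2 * (4 * (1 / √6) * ((52 / 55 + 3 / √2) / √3)) := by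
  have h1 : W α0 iP (iE' e) = ∫ x in MS iP ∩ MS (iE' e), (3 / 2 : ℝ) ∂(μHE[2] : Measure E3) := by
    unfold W
    congr 1
    funext x
    rw [gsqP α0 (E_ne_P e) (E_ne_0 e), GP_E]
    unfold al
    rw [aaP, aaE]
    ring
  have h2 := int_PE e iP iE0 (fun _ => (3 / 2 : ℝ))
  rw [act_P] at h2
  rw [h1]
  have h3 : (∫ x in MS iP ∩ MS (iE' e), (3 / 2 : ℝ) ∂(μHE[2] : Measure E3)) =
      ∫ x in MS iP ∩ MS iE0, (3 / 2 : ℝ) ∂(μHE[2] : Measure E3) := h2
  rw [h3, setIntegral_const, smul_eq_mul, mul_comm]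
  exact mul_le_mul_of_nonneg_left wall_area (by norm_num)

/-! ### The domes -/

/-- the integrand on the dome -/
noncomputable def Fd (Y : E3) : ℝ := 3 / 2 - (zz Y - 52 / 55) ^ 2 / 4 - zz Y ^ 2 / 2

theorem W_Tp_eq (α0 : ℝ) : W α0 iP iTp = ∫ x in MS iP ∩ MS iTp, Fd x ∂μHE[2] := by
  unfold W
  congr 1
  funext x
  rw [gsqP α0 Tp_ne_P Tp_ne_0, GP_Tp, ps_P, ps_o α0 Tp_ne_P Tp_ne_0]
  unfold al Fd
  rw [aaP, aaTp]
  have h1 : (√2 * (1 / 2 - 0)) ^ 2 = 1 / 2 := by rw [mul_pow, r2]; norm_num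
  have h5 : ((√2)⁻¹ * zz x) ^ 2 = zz x ^ 2 / 2 := by rw [mul_pow, inv_pow, r2]; ring
  rw [h1, sub_zero, h5]
  ring

theorem W_Tm_eq (α0 : ℝ) : W α0 iP iTm = W α0 iP iTp := by
  have h1 : W α0 iP iTm = ∫ x in MS (neg iP) ∩ MS (neg iTp),
      (3 / 2 - (zz x + 52 / 55) ^ 2 / 4 - zz x ^ 2 / 2) ∂μHE[2] := by
    rw [neg_P, neg_Tp]
    unfold W
    congr 1
    funext x
    rw [gsqP α0 Tm_ne_P Tm_ne_0, GP_Tm, ps_P, ps_o α0 Tm_ne_P Tm_ne_0]
    unfold al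
    rw [aaP, aaTm]
    have h1 : (√2 * (1 / 2 - 0)) ^ 2 = 1 / 2 := by rw [mul_pow, r2]; norm_num
    have h5 : ((√2)⁻¹ * zz x) ^ 2 = zz x ^ 2 / 2 := by rw [mul_pow, inv_pow, r2]; ring
    rw [h1, sub_zero, h5]
    ring
  rw [h1, int_RE, W_Tp_eq]
  congr 1
  funext x
  rw [zz_RE]
  unfold Fd
  ring

theorem int_dome (F : E3 → ℝ) : ∫ x in MS iP ∩ MS iTp, F x ∂μHE[2] =
    ∫ u in Hx, F (Rot (Gr gD u)) * J gD u := by
  rw [dome_eq, int_isom, int_graph gD_cont (fun x => F (Rot x)) isClosed_Hx.measurableSet]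

theorem Hx_finite : (volume : Measure P2) Hx ≠ ⊤ := by
  intro h
  have := vol_Hx
  rw [Measure.real, h, ENNReal.toReal_top] at this
  exact absurd this.symm p3.ne'

theorem Hx_bdd : Hx ⊆ Metric.closedBall 0 1 := by
  intro u hu
  have := hx_norm hu
  rw [mem_closedBall_zero_iff]
  nlinarith [norm_nonneg u]

theorem cont_Rot_Gr {f : P2 → ℝ} (hf : ContDiff ℝ 1 f) : Continuous fun u => Rot (Gr f u) :=
  Rot.continuous.comp (contDiff_Gr hf).continuous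

theorem dome_int {F : E3 → ℝ} (hF : Continuous F) :
    IntegrableOn (fun u => F (Rot (Gr gD u)) * J gD u) Hx := by
  refine IntegrableOn.mono_set ?_ Hx_bdd
  refine ContinuousOn.integrableOn_compact (isCompact_closedBall _ _) ?_
  exact ((hF.comp (cont_Rot_Gr gD_cont)).mul (cont_J gD_cont)).continuousOn

/-- values on the dome -/
theorem dome_val {u : P2} (hu : u ∈ Hx) : ∃ q : ℝ, 2 ≤ q ∧ q ≤ √6 ∧
    zz (Rot (Gr gD u)) = 52 / 55 + q ∧ J gD u = √6 / q := by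
  have hn := hx_norm hu
  have r3' : √3 * √3 = 3 := Real.mul_self_sqrt (by norm_num)
  refine ⟨√(6 - 3 * ‖u‖ ^ 2), ?_, ?_, ?_, ?_⟩
  · exact Real.le_sqrt_of_sq_le (by linarith)
  · exact Real.sqrt_le_sqrt (by nlinarith [sq_nonneg ‖u‖])
  · rw [zz_Rot]
    have h1 : Gr gD u 2 = gD u := rfl
    rw [h1, gD_eq hn]
    have h2 : √(6 - 3 * ‖u‖ ^ 2) = √3 * √(2 - ‖u‖ ^ 2) := by
      rw [← Real.sqrt_mul (by norm_num)]; congr 1; ring
    rw [h2]
    linear_combination (52 / 165) * r3'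
  · rw [gD_J hn]
    rw [← Real.sqrt_div (by norm_num)]
    congr 1
    have h4 : 0 < 2 - ‖u‖ ^ 2 := by linarith
    have h3 : 0 < 6 - 3 * ‖u‖ ^ 2 := by linarith
    rw [div_eq_div_iff h4.ne' h3.ne']
    ring

theorem s6l : (2.4494 : ℝ) < √6 := by
  rw [Real.lt_sqrt (by norm_num)]; norm_num
theorem s6u : √6 < (2.4495 : ℝ) := by
  rw [Real.sqrt_lt' (by norm_num)]; norm_num

theorem W_Tp_le (α0 : ℝ) : W α0 iP iTp ≤ -4.69 * √3 := by
  rw [W_Tp_eq, int_dome]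
  have hF : Continuous Fd := by
    unfold Fd
    have := continuous_zz
    fun_prop
  have h1 : ∫ u in Hx, (-4.69 : ℝ) = -4.69 * √3 := by
    rw [setIntegral_const, smul_eq_mul, vol_Hx, mul_comm]
  rw [← h1]
  refine setIntegral_mono_on (dome_int hF) (integrableOn_const Hx_finite)
    isClosed_Hx.measurableSet ?_
  intro u hu
  obtain ⟨q, hq1, hq2, hz, hJ⟩ := dome_val hu
  rw [hJ]
  unfold Fd
  rw [hz]
  have hl := s6l
  rw [mul_div_assoc', div_le_iff₀ (by linarith)]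
  have e : 3 / 2 - (52 / 55 + q - 52 / 55) ^ 2 / 4 - (52 / 55 + q) ^ 2 / 2 ≤
      -(0.75 * q ^ 2 + 0.9454 * q - 1.0531) := by nlinarith
  have h2 : 0 ≤ 0.75 * q ^ 2 + 0.9454 * q - 1.0531 := by nlinarith
  have h3 : (3 / 2 - (52 / 55 + q - 52 / 55) ^ 2 / 4 - (52 / 55 + q) ^ 2 / 2) * √6 ≤
      -(0.75 * q ^ 2 + 0.9454 * q - 1.0531) * √6 := mul_le_mul_of_nonneg_right e (by positivity)
  have h4 : (0.75 * q ^ 2 + 0.9454 * q - 1.0531) * 2.4494 ≤
      (0.75 * q ^ 2 + 0.9454 * q - 1.0531) * √6 := mul_le_mul_of_nonneg_left hl.le h2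
  nlinarith

/-- the volume which is pushed through the dome -/
noncomputable def ID : ℝ := ∫ x in MS iP ∩ MS iTp, (√2)⁻¹ * zz x ∂μHE[2]

theorem ID_le : ID ≤ 243 / 55 := by
  unfold ID
  rw [int_dome]
  have r3' : √3 * √3 = 3 := Real.mul_self_sqrt (by norm_num)
  have h1 : ∫ u in Hx, (√3 * (81 / 55) : ℝ) = 243 / 55 := by
    rw [setIntegral_const, smul_eq_mul, vol_Hx]
    linear_combination (81 / 55) * r3'
  rw [← h1]
  refine setIntegral_mono_on (dome_int (F := fun x => (√2)⁻¹ * zz x)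
    (continuous_const.mul continuous_zz)) (integrableOn_const Hx_finite)
    isClosed_Hx.measurableSet ?_
  intro u hu
  obtain ⟨q, hq1, hq2, hz, hJ⟩ := dome_val hu
  rw [hJ, hz]
  have h6 : √6 = √2 * √3 := by rw [← Real.sqrt_mul (by norm_num)]; norm_num
  have p2 := p2
  have p3 := p3
  have hq0 : 0 < q := by linarith
  have e : (√2)⁻¹ * (52 / 55 + q) * (√6 / q) = √3 * ((52 / 55 + q) / q) := by
    rw [h6]; field_simp
  rw [e]
  refine mul_le_mul_of_nonneg_left ?_ p3.le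
  rw [div_le_iff₀ hq0]
  linarith

theorem ID_nonneg : 0 ≤ ID := by
  unfold ID
  refine setIntegral_nonneg ((isClosed_ms _).inter (isClosed_ms _)).measurableSet ?_
  rintro x ⟨_, hT⟩
  have := zz_pos_of_Tp hT
  positivity

end Pool.Agent.J6H64.KU
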