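import Pool.Agent.J6H64.KU.Ev4

set_option autoImplicit false
set_option maxHeartbeats 4000000

open MeasureTheory Set Filter Topology
open scoped ENNReal NNReal ContDiff

namespace Pool.Agent.J6H64.KU

open Pool.Agent.H934R3.NP (P2 Gr)
open Pool.Agent.H784R3.NPA1 (J cont_J one_le_J nsq2 contDiff_Gr)

/-! ### The caps -/

theorem continuous_rr : Continuous rr := contDiff_rr.continuous
theorem continuous_hh : Continuous hh := contDiff_hh.continuous

theorem continuous_G (i : Idx) : Continuous (G i) := by unfold G; fun_prop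

theorem continuous_gv : Continuous gv := by
  unfold gv
  have h1 := continuous_zz
  have h2 : Continuous fun Y => dg (rr Y) := continuous_dg.comp continuous_rr
  have h3 : Continuous fun Y => gg (rr Y) := contDiff_gg.continuous.comp continuous_rr
  fun_prop

theorem isOpen_Dc : IsOpen Dc := by
  have : Continuous fun u : P2 => ‖u‖ ^ 2 := by fun_prop
  exact isOpen_lt this continuous_const

theorem Dc_bdd : Dc ⊆ Metric.closedBall 0 3 := by
  intro u hu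
  have : ‖u‖ ^ 2 < 29 / 5 := hu
  rw [mem_closedBall_zero_iff]
  nlinarith [norm_nonneg u]

/-- only the part of the caps near the axis contributes -/
theorem int_cap {F : E3 → ℝ} (hF : ∀ Y, 29 / 5 ≤ rr Y → F Y = 0) :
    ∫ x in MS i0 ∩ MS iTp, F x ∂μHE[2] = ∫ u in Dc, F (Rot (Gr gC u)) * J gC u := by
  have h1 : ∫ x in (MS i0 ∩ MS iTp) ∩ {Y | rr Y < 29 / 5}, F x ∂μHE[2] =
      ∫ x in MS i0 ∩ MS iTp, F x ∂(μHE[2] : Measure E3) := by
    refine (setIntegral_eq_of_subset_of_forall_sdiff_eq_zero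
      ((isClosed_ms _).inter (isClosed_ms _)).measurableSet inter_subset_left ?_).symm
    rintro x ⟨hx1, hx2⟩
    refine hF x ?_
    by_contra hn
    exact hx2 ⟨hx1, not_le.1 hn⟩
  rw [← h1, cap_eq, int_isom, int_graph gC_cont (fun x => F (Rot x)) isOpen_Dc.measurableSet]

theorem cap_int {F : E3 → ℝ} (hF : Continuous F) :
    IntegrableOn (fun u => F (Rot (Gr gC u)) * J gC u) Dc := by
  refine IntegrableOn.mono_set ?_ Dc_bdd
  refine ContinuousOn.integrableOn_compact (isCompact_closedBall _ _) ?_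
  exact ((hF.comp (cont_Rot_Gr gC_cont)).mul (cont_J gC_cont)).continuousOn

theorem plane_int {F : P2 → ℝ} (hF : Continuous F) : IntegrableOn F Dc := by
  refine IntegrableOn.mono_set ?_ Dc_bdd
  exact ContinuousOn.integrableOn_compact (isCompact_closedBall _ _) hF.continuousOn

/-- values on the cap -/
theorem cap_val {u : P2} (hu : u ∈ Dc) : rr (Rot (Gr gC u)) = ‖u‖ ^ 2 ∧
    10.63 ≤ zz (Rot (Gr gC u)) ∧ zz (Rot (Gr gC u)) ≤ 11.13 ∧ 1 ≤ J gC u ∧ J gC u ≤ 1.028 := by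
  have hu' : ‖u‖ ^ 2 < 29 / 5 := hu
  have hmem : Rot (Gr gC u) ∈ (MS i0 ∩ MS iTp) ∩ {Y | rr Y < 29 / 5} := by
    rw [cap_eq]
    exact ⟨_, ⟨u, hu, rfl⟩, rfl⟩
  have hr : rr (Rot (Gr gC u)) = ‖u‖ ^ 2 := by
    rw [rr_Rot, nsq2]
    rfl
  obtain ⟨⟨h0, hT⟩, hr'⟩ := hmem
  have hz := zz_pos_of_Tp hT
  have hv := Vf_eq h0 hT
  rw [Vf_0, Vf_Tp] at hv
  have hN : 7723 / 114244 * ‖Rot (Gr gC u)‖ ^ 2 = 57122 / 9075 - 52 / 165 * zz (Rot (Gr gC u)) := by
    linarith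
  refine ⟨hr, ?_, ?_, one_le_J _ _, ?_⟩
  · refine el6 hN ?_ hz
    have := hr'
    unfold rr at this
    exact le_of_lt this
  · refine el7 hN ?_
    have : 0 ≤ rr (Rot (Gr gC u)) := by rw [hr]; positivity
    exact this
  · rw [gC_J hu'.le]
    rw [Real.sqrt_le_left (by norm_num)]
    have hl2 : lam ^ 2 < 0.01828 := by unfold lam; norm_num
    have h1 : lam ^ 2 * ‖u‖ ^ 2 ≤ 0.10603 := by nlinarith [sq_nonneg ‖u‖]
    rw [div_le_iff₀ (by linarith)]
    linarith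

/-- the volume pushed through the caps -/
noncomputable def IC : ℝ := ∫ x in MS i0 ∩ MS iTp, hh x ∂μHE[2]

theorem hh_zero {Y : E3} (h : 29 / 5 ≤ rr Y) : hh Y = 0 := by
  unfold hh; rw [gg_zero h, zero_mul]

theorem gv_zero {Y : E3} (h : 29 / 5 ≤ rr Y) : gv Y = 0 := by
  unfold gv; rw [gg_zero h, dg_zero h]; simp

theorem Dc_compl {F : ℝ → ℝ} (hF : ∀ s, 29 / 5 ≤ s → F s = 0) :
    ∫ u in Dc, F (‖u‖ ^ 2) = ∫ u : P2, F (‖u‖ ^ 2) := by
  refine setIntegral_eq_integral_of_forall_compl_eq_zero ?_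
  intro u hu
  exact hF _ (not_lt.1 hu)

theorem IC_ge : 10.63 * (2 * Real.pi * (29 / 5 * Real.exp (-2))) ≤ IC := by
  unfold IC
  rw [int_cap (fun Y hY => hh_zero hY), ← int_gg,
    ← Dc_compl (F := gg) (fun s hs => gg_zero hs), ← integral_const_mul]
  refine setIntegral_mono_on ?_ (cap_int continuous_hh) isOpen_Dc.measurableSet ?_
  · refine plane_int ?_
    have h : Continuous fun u : P2 => gg (‖u‖ ^ 2) :=
      contDiff_gg.continuous.comp (by fun_prop)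
    exact continuous_const.mul h
  · intro u hu
    obtain ⟨hr, hz1, hz2, hJ1, hJ2⟩ := cap_val hu
    unfold hh
    rw [hr]
    have hg := gg_nonneg (‖u‖ ^ 2)
    generalize gg (‖u‖ ^ 2) = g at *
    generalize zz (Rot (Gr gC u)) = z at *
    generalize J gC u = j at *
    have h1 : 10.63 ≤ z * j := by nlinarith
    nlinarith [mul_le_mul_of_nonneg_left h1 hg]

theorem IC_pos : 0 < IC := by
  refine lt_of_lt_of_le ?_ IC_ge
  have := Real.pi_pos
  positivity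

theorem aaC : 2 * al i0 iTp ^ 2 = lam ^ 2 := by
  unfold al lam
  rw [aa0, aaTp, mul_pow, r2]
  norm_num

/-- the integrand of the cap -/
theorem W_cap_eq (α0 : ℝ) : W α0 i0 iTp = ∫ u in Dc, (‖(-α0) • gv (Rot (Gr gC u))‖ ^ 2 -
    inner ℝ ((-α0) • gv (Rot (Gr gC u))) ((√2)⁻¹ • (G i0 (Rot (Gr gC u)) - G iTp (Rot (Gr gC u)))) ^ 2 -
    lam ^ 2 * (-α0 * hh (Rot (Gr gC u))) ^ 2) * J gC u := by
  have h := int_cap (F := fun Y => ‖(-α0) • gv Y‖ ^ 2 -
    inner ℝ ((-α0) • gv Y) ((√2)⁻¹ • (G i0 Y - G iTp Y)) ^ 2 -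
    lam ^ 2 * (-α0 * hh Y) ^ 2) ?_
  · rw [← h]
    unfold W
    congr 1
    funext x
    unfold gsq
    rw [grad0 α0 Tp_ne_P Tp_ne_0, ps_0, ps_o α0 Tp_ne_P Tp_ne_0, aaC, sub_zero]
  · intro Y hY
    rw [gv_zero hY, hh_zero hY]
    simp

theorem W_cap_le (α0 : ℝ) : W α0 i0 iTp ≤
    α0 ^ 2 * (1.028 * (3599 * (2 * Real.pi * Real.exp (-4)))) := by
  rw [W_cap_eq]
  have hint : IntegrableOn (fun u => (‖(-α0) • gv (Rot (Gr gC u))‖ ^ 2 -
      inner ℝ ((-α0) • gv (Rot (Gr gC u)))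
        ((√2)⁻¹ • (G i0 (Rot (Gr gC u)) - G iTp (Rot (Gr gC u)))) ^ 2 -
      lam ^ 2 * (-α0 * hh (Rot (Gr gC u))) ^ 2) * J gC u) Dc := by
    refine cap_int (F := fun Y => ‖(-α0) • gv Y‖ ^ 2 -
      inner ℝ ((-α0) • gv Y) ((√2)⁻¹ • (G i0 Y - G iTp Y)) ^ 2 -
      lam ^ 2 * (-α0 * hh Y) ^ 2) ?_
    have h1 := continuous_gv
    have h2 := continuous_hh
    have h3 := continuous_G i0
    have h4 := continuous_G iTp
    fun_prop
  have hcg : Continuous fun u : P2 => gg (‖u‖ ^ 2) := contDiff_gg.continuous.comp (by fun_prop)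
  have hcd : Continuous fun u : P2 => ‖u‖ ^ 2 * dg (‖u‖ ^ 2) ^ 2 := by
    have : Continuous fun u : P2 => dg (‖u‖ ^ 2) := continuous_dg.comp (by fun_prop)
    fun_prop
  have h1 : ∫ u in Dc, (‖(-α0) • gv (Rot (Gr gC u))‖ ^ 2 -
      inner ℝ ((-α0) • gv (Rot (Gr gC u)))
        ((√2)⁻¹ • (G i0 (Rot (Gr gC u)) - G iTp (Rot (Gr gC u)))) ^ 2 -
      lam ^ 2 * (-α0 * hh (Rot (Gr gC u))) ^ 2) * J gC u ≤
      ∫ u in Dc, (α0 ^ 2 * 1.028) * (495.508 * (‖u‖ ^ 2 * dg (‖u‖ ^ 2) ^ 2) +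
        (0.94 * (4 * Real.exp (-2))) * gg (‖u‖ ^ 2)) := by
    refine setIntegral_mono_on hint ?_ isOpen_Dc.measurableSet ?_
    · refine plane_int ?_
      fun_prop
    · intro u hu
      obtain ⟨hr, hz1, hz2, hJ1, hJ2⟩ := cap_val hu
      have e1 : ‖(-α0) • gv (Rot (Gr gC u))‖ ^ 2 = α0 ^ 2 * ‖gv (Rot (Gr gC u))‖ ^ 2 := by
        rw [norm_smul, mul_pow, Real.norm_eq_abs, sq_abs, neg_sq]
      rw [e1, gv_sq]
      unfold hh
      rw [hr]
      have hg := gg_nonneg (‖u‖ ^ 2)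
      have hg2 := gg_le (‖u‖ ^ 2) (sq_nonneg _)
      have hn : 0 ≤ ‖u‖ ^ 2 * dg (‖u‖ ^ 2) ^ 2 := by positivity
      generalize inner ℝ ((-α0) • gv (Rot (Gr gC u)))
        ((√2)⁻¹ • (G i0 (Rot (Gr gC u)) - G iTp (Rot (Gr gC u)))) = I at *
      generalize ‖u‖ ^ 2 * dg (‖u‖ ^ 2) ^ 2 = d at *
      generalize gg (‖u‖ ^ 2) = g at *
      generalize zz (Rot (Gr gC u)) = z at *
      generalize J gC u = j at *
      have hl2 : 0.018279 < lam ^ 2 := by unfold lam; norm_num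
      have hz3 : z ^ 2 ≤ 123.877 := by nlinarith
      have hz4 : 112.99 ≤ z ^ 2 := by nlinarith
      have hz5 : 2.06 ≤ lam ^ 2 * z ^ 2 := by nlinarith
      have hgsq : g ^ 2 ≤ 4 * Real.exp (-2) * g := by nlinarith
      have hα : 0 ≤ α0 ^ 2 := sq_nonneg _
      have k1 : 4 * d * z ^ 2 + 3 * g ^ 2 - lam ^ 2 * z ^ 2 * g ^ 2 ≤
          495.508 * d + 0.94 * (4 * Real.exp (-2)) * g := by
        have a1 : 4 * d * z ^ 2 ≤ 4 * d * 123.877 :=
          mul_le_mul_of_nonneg_left hz3 (by positivity)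
        have a2 : 2.06 * g ^ 2 ≤ lam ^ 2 * z ^ 2 * g ^ 2 :=
          mul_le_mul_of_nonneg_right hz5 (sq_nonneg _)
        linarith
      have hR : 0 ≤ 495.508 * d + 0.94 * (4 * Real.exp (-2)) * g := by
        have := Real.exp_pos (-2)
        positivity
      have k2 : α0 ^ 2 * (4 * d * z ^ 2 + 3 * g ^ 2) - I ^ 2 -
          lam ^ 2 * (-α0 * (g * z)) ^ 2 ≤
          α0 ^ 2 * (495.508 * d + 0.94 * (4 * Real.exp (-2)) * g) := by
        have := mul_le_mul_of_nonneg_left k1 hα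
        nlinarith [sq_nonneg I]
      calc _ ≤ (α0 ^ 2 * (495.508 * d + 0.94 * (4 * Real.exp (-2)) * g)) * j :=
            mul_le_mul_of_nonneg_right k2 (by linarith)
        _ ≤ (α0 ^ 2 * (495.508 * d + 0.94 * (4 * Real.exp (-2)) * g)) * 1.028 :=
            mul_le_mul_of_nonneg_left hJ2 (by positivity)
        _ = _ := by ring
  refine h1.trans ?_
  rw [integral_const_mul, integral_add ((plane_int hcd).const_mul _)
    ((plane_int hcg).const_mul _), integral_const_mul, integral_const_mul,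
    Dc_compl (F := gg) (fun s hs => gg_zero hs),
    Dc_compl (F := fun s => s * dg s ^ 2) (fun s hs => by rw [dg_zero hs]; ring),
    int_gg, int_dg]
  have e4 : Real.exp (-4) = Real.exp (-2) * Real.exp (-2) := by
    rw [← Real.exp_add]; norm_num
  rw [e4]
  have hpi := Real.pi_pos
  set e := Real.exp (-2) with he
  have he0 : 0 < e := Real.exp_pos _
  have hα : 0 ≤ α0 ^ 2 := sq_nonneg _
  have : 0 ≤ α0 ^ 2 * (Real.pi * (e * e)) := by positivity
  nlinarith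

theorem cap_num {α0 : ℝ} (hα : α0 * IC = ID) : W α0 i0 iTp ≤ 3.03 := by
  refine (W_cap_le α0).trans ?_
  have h1 := IC_ge
  have h2 := ID_le
  have h3 := ID_nonneg
  have h4 := IC_pos
  have hpi := Real.pi_pos
  have hpi2 := Real.pi_gt_d2
  have e4 : Real.exp (-4) = Real.exp (-2) * Real.exp (-2) := by
    rw [← Real.exp_add]; norm_num
  rw [e4]
  set e := Real.exp (-2) with he
  have he0 : 0 < e := Real.exp_pos _
  have h5 : (10.63 * (2 * Real.pi * (29 / 5 * e))) ^ 2 ≤ IC ^ 2 :=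
    pow_le_pow_left₀ (by positivity) h1 2
  have h6 : ID ^ 2 ≤ (243 / 55) ^ 2 := pow_le_pow_left₀ h3 h2 2
  have h7 : α0 ^ 2 * IC ^ 2 ≤ (243 / 55) ^ 2 := by rw [← mul_pow, hα]; exact h6
  have h8 : α0 ^ 2 * (10.63 * (2 * Real.pi * (29 / 5 * e))) ^ 2 ≤ (243 / 55) ^ 2 :=
    (mul_le_mul_of_nonneg_left h5 (sq_nonneg _)).trans h7
  have h9 : 1.028 * (3599 * (2 * Real.pi * (e * e))) ≤
      0.1552 * (10.63 * (2 * Real.pi * (29 / 5 * e))) ^ 2 := by
    have : 0 < Real.pi * (e * e) := by positivity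
    nlinarith
  calc α0 ^ 2 * (1.028 * (3599 * (2 * Real.pi * (e * e)))) ≤
        α0 ^ 2 * (0.1552 * (10.63 * (2 * Real.pi * (29 / 5 * e))) ^ 2) :=
        mul_le_mul_of_nonneg_left h9 (sq_nonneg _)
    _ = 0.1552 * (α0 ^ 2 * (10.63 * (2 * Real.pi * (29 / 5 * e))) ^ 2) := by ring
    _ ≤ 0.1552 * (243 / 55) ^ 2 := mul_le_mul_of_nonneg_left h8 (by norm_num)
    _ ≤ 3.03 := by norm_num

end Pool.Agent.J6H64.KU
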