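import Pool.Agent.J6H64.KU.Ev5

set_option autoImplicit false
set_option maxHeartbeats 4000000

open MeasureTheory Set Filter Topology
open scoped ENNReal NNReal ContDiff

namespace Pool.Agent.J6H64.KU

/-! ### Sums -/

open Classical in
theorem sum_nb {h : Idx → ℝ} (hh : ∀ j, j ≠ iTp → j ≠ iTm → (∀ e, j ≠ iE' e) → h j = 0) :
    ∑ j, h j = h iTp + h iTm + ∑ e, h (iE' e) := by
  have key : ∀ j, h j = (if j = iTp then h iTp else 0) + (if j = iTm then h iTm else 0) +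
      ∑ e, (if j = iE' e then h (iE' e) else 0) := by
    intro j
    by_cases h1 : j = iTp
    · subst h1
      rw [if_pos rfl, if_neg Tp_ne_Tm, Finset.sum_eq_zero]
      · ring
      · intro e _
        rw [if_neg (E_ne_Tp e).symm]
    · by_cases h2 : j = iTm
      · subst h2
        rw [if_neg h1, if_pos rfl, Finset.sum_eq_zero]
        · ring
        · intro e _
          rw [if_neg (E_ne_Tm e).symm]
      · rw [if_neg h1, if_neg h2]
        by_cases h3 : ∃ e, j = iE' e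
        · obtain ⟨e0, he0⟩ := h3
          subst he0
          have : ∀ e, (if iE' e0 = iE' e then h (iE' e) else 0) =
              if e0 = e then h (iE' e) else 0 := by
            intro e
            by_cases he : e0 = e
            · subst he; simp
            · rw [if_neg he, if_neg (fun h => he (iE'_inj h))]
          simp_rw [this]
          rw [Finset.sum_ite_eq]
          simp
        · push Not at h3
          rw [hh j h1 h2 h3, Finset.sum_eq_zero]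
          · ring
          · intro e _
            rw [if_neg (h3 e)]
  rw [Finset.sum_congr rfl (fun j _ => key j), Finset.sum_add_distrib, Finset.sum_add_distrib,
    Finset.sum_ite_eq', Finset.sum_ite_eq', Finset.sum_comm]
  simp only [Finset.mem_univ, if_true]
  congr 1
  refine Finset.sum_congr rfl fun e _ => ?_
  rw [Finset.sum_ite_eq']
  simp

open Classical in
theorem sum_PQ {w : Idx → Idx → ℝ} {P Q : Idx} (hPQ : P ≠ Q)
    (h0 : ∀ i j, i ≠ P → i ≠ Q → j ≠ P → j ≠ Q → w i j = 0)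
    (h1 : w P P = 0) (h2 : w P Q = 0) (h3 : w Q P = 0) (h4 : w Q Q = 0) :
    ∑ i, ∑ j, w i j = ∑ j, w P j + ∑ j, w Q j + ∑ i, w i P + ∑ i, w i Q := by
  have key : ∀ i j, w i j = (if i = P then w P j else 0) + (if i = Q then w Q j else 0) +
      (if j = P then w i P else 0) + (if j = Q then w i Q else 0) := by
    intro i j
    by_cases a : i = P
    · subst a
      by_cases b : j = i
      · subst b; simp [h1, hPQ]
      · by_cases c : j = Q
        · subst c; simp [h2, hPQ, hPQ.symm]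
        · simp [b, c, hPQ]
    · by_cases a' : i = Q
      · subst a'
        by_cases b : j = P
        · subst b; simp [h3, hPQ, hPQ.symm]
        · by_cases c : j = i
          · subst c; simp [h4, hPQ.symm]
          · simp [b, c, a]
      · by_cases b : j = P
        · subst b; simp [a, a', hPQ]
        · by_cases c : j = Q
          · subst c; simp [a, a', hPQ.symm]
          · simp [a, a', b, c, h0 i j a a' b c]
  have e1 : ∀ i, ∑ j, w i j = (if i = P then ∑ j, w P j else 0) +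
      (if i = Q then ∑ j, w Q j else 0) + w i P + w i Q := by
    intro i
    rw [Finset.sum_congr rfl (fun j _ => key i j), Finset.sum_add_distrib, Finset.sum_add_distrib,
      Finset.sum_add_distrib, Finset.sum_ite_eq', Finset.sum_ite_eq']
    simp only [Finset.mem_univ, if_true]
    congr 2
    congr 1
    · by_cases h : i = P <;> simp [h]
    · by_cases h : i = Q <;> simp [h]
  rw [Finset.sum_congr rfl (fun i _ => e1 i), Finset.sum_add_distrib, Finset.sum_add_distrib,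
      Finset.sum_add_distrib, Finset.sum_ite_eq', Finset.sum_ite_eq']
  simp

/-! ### Symmetry and vanishing -/

theorem ps_sub_neg (α0 : ℝ) (i j : Idx) : (fun Y => ps α0 j Y - ps α0 i Y) =
    -(fun Y => ps α0 i Y - ps α0 j Y) := by
  funext Y; simp

theorem gradient_neg' (f : E3 → ℝ) (x : E3) : gradient (-f) x = -gradient f x := by
  unfold gradient
  rw [fderiv_neg, map_neg]

theorem gsq_symm (α0 : ℝ) (i j : Idx) (Y : E3) : gsq α0 j i Y = gsq α0 i j Y := by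
  unfold gsq
  rw [ps_sub_neg, gradient_neg', norm_neg]
  congr 2
  have : G j Y - G i Y = -(G i Y - G j Y) := (neg_sub _ _).symm
  rw [this, smul_neg, inner_neg_neg]

theorem W_symm (α0 : ℝ) (i j : Idx) : W α0 j i = W α0 i j := by
  unfold W
  rw [inter_comm]
  congr 1
  funext x
  rw [gsq_symm]
  unfold al
  ring

theorem grad_zero' {i j : Idx} (α0 : ℝ) (hi : ∀ Y, ps α0 i Y = 0) (hj : ∀ Y, ps α0 j Y = 0) (Y : E3) :
    gsq α0 i j Y = 0 := by
  unfold gsq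
  have : (fun Y => ps α0 i Y - ps α0 j Y) = fun _ => (0 : ℝ) := by
    funext Y; rw [hi, hj, sub_zero]
  rw [this]
  have h2 : gradient (fun _ : E3 => (0 : ℝ)) Y = 0 := by
    refine grad_of ?_
    refine (hasFDerivAt_const (0 : ℝ) Y).congr_fderiv ?_
    ext z; simp
  rw [h2]; simp

theorem W_zero (α0 : ℝ) {i j : Idx} (h1 : i ≠ iP) (h2 : i ≠ i0) (h3 : j ≠ iP) (h4 : j ≠ i0) :
    W α0 i j = 0 := by
  unfold W
  have : ∀ x, (gsq α0 i j x - 2 * al i j ^ 2 * (ps α0 i x - ps α0 j x) ^ 2) = 0 := by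
    intro x
    rw [grad_zero' α0 (ps_o α0 h1 h2) (ps_o α0 h3 h4), ps_o α0 h1 h2, ps_o α0 h3 h4]
    ring
  simp_rw [this]
  simp

theorem W_empty (α0 : ℝ) {i j : Idx} (h : MS i ∩ MS j = ∅) : W α0 i j = 0 := by
  unfold W; rw [h]; simp

theorem P_nb {j : Idx} (h1 : j ≠ iP) (h2 : j ≠ iTp) (h3 : j ≠ iTm) (h4 : ∀ e, j ≠ iE' e) :
    MS iP ∩ MS j = ∅ := by
  ext Y
  simp only [mem_inter_iff, mem_empty_iff_false, iff_false, not_and]
  intro hP hj
  rcases nbP hP hj h1 with h | h | ⟨e, h⟩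
  · exact h2 h
  · exact h3 h
  · exact h4 e h

/-- away from the caps the function vanishes -/
theorem ext_rr {j : Idx} {Y : E3} (h0 : Y ∈ MS i0) (hj : Y ∈ MS j) (h1 : j ≠ i0) (h2 : j ≠ iTp)
    (h3 : j ≠ iTm) : 29 / 5 ≤ rr Y := by
  rcases nb0 h0 hj h1 with h | h | ⟨h, h'⟩
  · exact absurd h h2
  · exact absurd h h3
  · exact ext_wall h0 hj h h'

theorem W_ext (α0 : ℝ) {j : Idx} (h1 : j ≠ i0) (h2 : j ≠ iTp) (h3 : j ≠ iTm) :
    W α0 i0 j = 0 := by
  by_cases hP : j = iP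
  · subst hP
    refine W_empty α0 ?_
    rw [inter_comm]; exact P0_empty
  · unfold W
    refine setIntegral_eq_zero_of_forall_eq_zero ?_
    rintro x ⟨h0, hj⟩
    have hr := ext_rr h0 hj h1 h2 h3
    unfold gsq
    rw [grad0 α0 hP h1, ps_0, ps_o α0 hP h1, gv_zero hr, hh_zero hr]
    simp

/-! ### The lower cap -/

theorem G0_comp (Y : E3) (l : Fin 3) : G i0 Y l = -lam * Y l := by
  have f1 : i0.q.t = 1 := rfl
  have f2 : i0.q.p = ![-1, -1, -1] := rfl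
  have f3 : i0.s = 0 := rfl
  unfold G
  fin_cases l
  all_goals
    simp
    unfold aa bv sp lam
    rw [f1, f2, f3]
    simp
    ring

theorem GT_comp (Y : E3) (l : Fin 3) : G iTp Y l = 52 / 165 := by
  have f1 : iTp.q.t = 4 := rfl
  have f2 : iTp.q.p = ![0, 0, 0] := rfl
  have f3 : iTp.s = 1 := rfl
  unfold G
  fin_cases l
  all_goals
    simp
    unfold aa bv sp
    rw [f1, f2, f3]
    simp

theorem GTm_comp (Y : E3) (l : Fin 3) : G iTm Y l = -(52 / 165) := by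
  have f1 : iTm.q.t = 4 := rfl
  have f2 : iTm.q.p = ![0, 0, 0] := rfl
  have f3 : iTm.s = -1 := rfl
  unfold G
  fin_cases l
  all_goals
    simp
    unfold aa bv sp
    rw [f1, f2, f3]
    simp

theorem gv_inner (Y v : E3) (c : ℝ) (hv : ∀ l, v l = -lam * Y l - c) :
    inner ℝ (gv Y) v = -lam * zz Y * (2 * (rr Y * dg (rr Y)) + gg (rr Y)) - 3 * c * gg (rr Y) := by
  have e : rr Y = ‖Y‖ ^ 2 - zz Y ^ 2 / 3 := rfl
  have key : ∀ d g : ℝ, inner ℝ ((zz Y * d) • ((2 : ℝ) • Y - (2 / 3 * zz Y) • one) + g • one) v =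
      -lam * zz Y * (2 * ((‖Y‖ ^ 2 - zz Y ^ 2 / 3) * d) + g) - 3 * c * g := by
    intro d g
    rw [inn, nsq, hv, hv, hv]
    simp only [PiLp.add_apply, PiLp.smul_apply, PiLp.sub_apply, smul_eq_mul, one]
    simp
    unfold zz
    ring
  have := key (dg (rr Y)) (gg (rr Y))
  rw [← e] at this
  exact this

theorem rr_RE (Y : E3) : rr (RE Y) = rr Y := by
  unfold rr
  rw [norm_RE, zz_RE]; ring

theorem hh_RE (Y : E3) : hh (RE Y) = -hh Y := by
  unfold hh; rw [rr_RE, zz_RE]; ring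

/-- the explicit integrand on the caps -/
theorem cap_expl (α0 : ℝ) (j : Idx) (c : ℝ) (hj : j ≠ iP) (hj0 : j ≠ i0)
    (hc : ∀ Y l, G j Y l = c) (haa : aa j = 0) (x : E3) :
    gsq α0 i0 j x - 2 * al i0 j ^ 2 * (ps α0 i0 x - ps α0 j x) ^ 2 =
    α0 ^ 2 * (4 * (rr x * dg (rr x) ^ 2) * zz x ^ 2 + 3 * gg (rr x) ^ 2) - α0 ^ 2 / 2 *
      (-lam * zz x * (2 * (rr x * dg (rr x)) + gg (rr x)) - 3 * c * gg (rr x)) ^ 2 -
      lam ^ 2 * (α0 ^ 2 * hh x ^ 2) := by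
  have h1 : 2 * al i0 j ^ 2 = lam ^ 2 := by
    unfold al lam
    rw [aa0, haa, mul_pow, r2]
    norm_num
  have h2 := gv_inner x (G i0 x - G j x) c (fun l => by
    rw [PiLp.sub_apply, G0_comp, hc])
  unfold gsq
  rw [grad0 α0 hj hj0, ps_0, ps_o α0 hj hj0, h1, sub_zero, norm_smul, mul_pow, gv_sq,
    inner_smul_left, inner_smul_right, h2]
  simp only [RCLike.conj_to_real, Real.norm_eq_abs, sq_abs]
  have h3 : ((√2)⁻¹) ^ 2 = (1 / 2 : ℝ) := by rw [inv_pow, r2]; norm_num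
  have h4 : ∀ I : ℝ, (-α0 * ((√2)⁻¹ * I)) ^ 2 = α0 ^ 2 / 2 * I ^ 2 := by
    intro I
    calc _ = α0 ^ 2 * ((√2)⁻¹) ^ 2 * I ^ 2 := by ring
      _ = _ := by rw [h3]; ring
  rw [h4]
  ring

theorem W_cap_symm (α0 : ℝ) : W α0 i0 iTm = W α0 i0 iTp := by
  have h1 : W α0 i0 iTm = ∫ x in MS (neg i0) ∩ MS (neg iTp),
      (α0 ^ 2 * (4 * (rr x * dg (rr x) ^ 2) * zz x ^ 2 + 3 * gg (rr x) ^ 2) - α0 ^ 2 / 2 *
      (-lam * zz x * (2 * (rr x * dg (rr x)) + gg (rr x)) - 3 * (-(52 / 165)) * gg (rr x)) ^ 2 -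
      lam ^ 2 * (α0 ^ 2 * hh x ^ 2)) ∂μHE[2] := by
    rw [neg_0, neg_Tp]
    unfold W
    congr 1
    funext x
    exact cap_expl α0 iTm _ Tm_ne_P Tm_ne_0 GTm_comp aaTm x
  have h2 : W α0 i0 iTp = ∫ x in MS i0 ∩ MS iTp,
      (α0 ^ 2 * (4 * (rr x * dg (rr x) ^ 2) * zz x ^ 2 + 3 * gg (rr x) ^ 2) - α0 ^ 2 / 2 *
      (-lam * zz x * (2 * (rr x * dg (rr x)) + gg (rr x)) - 3 * (52 / 165) * gg (rr x)) ^ 2 -
      lam ^ 2 * (α0 ^ 2 * hh x ^ 2)) ∂μHE[2] := by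
    unfold W
    congr 1
    funext x
    exact cap_expl α0 iTp _ Tp_ne_P Tp_ne_0 GT_comp aaTp x
  rw [h1, int_RE, h2]
  congr 1
  funext x
  rw [rr_RE, zz_RE, hh_RE]
  ring

/-! ### The sums of the surface terms -/

open Classical in
noncomputable def w2 (α0 : ℝ) (i j : Idx) : ℝ := if i = j then 0 else W α0 i j

theorem w2_symm (α0 : ℝ) (i j : Idx) : w2 α0 j i = w2 α0 i j := by
  unfold w2
  by_cases h : i = j
  · rw [if_pos h, if_pos h.symm]
  · rw [if_neg h, if_neg (Ne.symm h), W_symm]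

theorem sum_w2 (α0 : ℝ) : ∑ i, ∑ j, w2 α0 i j = 2 * ∑ j, w2 α0 iP j + 2 * ∑ j, w2 α0 i0 j := by
  rw [sum_PQ P_ne_0]
  · have h1 : ∑ i, w2 α0 i iP = ∑ j, w2 α0 iP j := Finset.sum_congr rfl fun i _ => w2_symm _ _ _
    have h2 : ∑ i, w2 α0 i i0 = ∑ j, w2 α0 i0 j := Finset.sum_congr rfl fun i _ => w2_symm _ _ _
    rw [h1, h2]; ring
  · intro i j h1 h2 h3 h4
    unfold w2
    split_ifs
    · rfl
    · exact W_zero α0 h1 h2 h3 h4
  · simp [w2]
  · unfold w2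
    rw [if_neg P_ne_0]
    exact W_empty α0 P0_empty
  · unfold w2
    rw [if_neg P_ne_0.symm]
    refine W_empty α0 ?_
    rw [inter_comm]; exact P0_empty
  · simp [w2]

theorem sum_w2P (α0 : ℝ) : ∑ j, w2 α0 iP j = W α0 iP iTp + W α0 iP iTm + ∑ e, W α0 iP (iE' e) := by
  rw [sum_nb]
  · unfold w2
    rw [if_neg Tp_ne_P.symm, if_neg Tm_ne_P.symm]
    congr 1
    refine Finset.sum_congr rfl fun e _ => ?_
    rw [if_neg (E_ne_P e).symm]
  · intro j h2 h3 h4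
    unfold w2
    split_ifs with h
    · rfl
    · exact W_empty α0 (P_nb (Ne.symm h) h2 h3 h4)

theorem sum_w20 (α0 : ℝ) : ∑ j, w2 α0 i0 j = W α0 i0 iTp + W α0 i0 iTm := by
  rw [sum_nb]
  · unfold w2
    rw [if_neg Tp_ne_0.symm, if_neg Tm_ne_0.symm, Finset.sum_eq_zero]
    · ring
    · intro e _
      rw [if_neg (E_ne_0 e).symm]
      exact W_ext α0 (E_ne_0 e) (E_ne_Tp e) (E_ne_Tm e)
  · intro j h2 h3 h4
    unfold w2
    split_ifs with h
    · rfl
    · exact W_ext α0 (Ne.symm h) h2 h3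

theorem surf_le {α0 : ℝ} (hα : α0 * IC = ID) : 1 / 2 * ∑ i, ∑ j, w2 α0 i j ≤
    6 * (3 / 2 * (4 * (1 / √6) * ((52 / 55 + 3 / √2) / √3))) + 2 * (-4.69 * √3) + 2 * 3.03 := by
  rw [sum_w2, sum_w2P, sum_w20, W_cap_symm, W_Tm_eq]
  have h1 := W_Tp_le α0
  have h2 := cap_num hα
  have h3 : ∑ e : Equiv.Perm (Fin 3), W α0 iP (iE' e) ≤
      6 * (3 / 2 * (4 * (1 / √6) * ((52 / 55 + 3 / √2) / √3))) := by
    refine (Finset.sum_le_sum fun e _ => W_E α0 e).trans ?_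
    rw [Finset.sum_const, Finset.card_univ, Fintype.card_perm, Fintype.card_fin]
    simp [Nat.factorial]
  linarith

/-! ### The curves -/

theorem V_symm (α0 : ℝ) (i j l : Idx) : V α0 j i l = V α0 i j l := by
  unfold V
  have : (MS j ∩ MS i) ∩ (MS i ∩ MS l) = (MS i ∩ MS j) ∩ (MS j ∩ MS l) := by
    ext Y; simp only [mem_inter_iff]; tauto
  rw [this]
  congr 1
  funext x
  ring

theorem V_zero (α0 : ℝ) {i j : Idx} (l : Idx) (h1 : i ≠ iP) (h2 : i ≠ i0) (h3 : j ≠ iP)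
    (h4 : j ≠ i0) : V α0 i j l = 0 := by
  unfold V
  have : ∀ x, ((al i l + al j l) / √3 * (ps α0 i x - ps α0 j x) ^ 2) = 0 := by
    intro x
    rw [ps_o α0 h1 h2, ps_o α0 h3 h4]
    ring
  simp_rw [this]
  simp

theorem V_empty (α0 : ℝ) {i j l : Idx} (h : (MS i ∩ MS j) ∩ (MS j ∩ MS l) = ∅) :
    V α0 i j l = 0 := by
  unfold V; rw [h]; simp

theorem V_e1 (α0 : ℝ) {i j l : Idx} (h : MS i ∩ MS j = ∅) : V α0 i j l = 0 :=
  V_empty α0 (by rw [h, empty_inter])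
theorem V_e2 (α0 : ℝ) {i j l : Idx} (h : MS j ∩ MS l = ∅) : V α0 i j l = 0 :=
  V_empty α0 (by rw [h, inter_empty])
theorem V_e3 (α0 : ℝ) {i j l : Idx} (h : MS i ∩ MS l = ∅) : V α0 i j l = 0 := by
  refine V_empty α0 ?_
  rw [eq_empty_iff_forall_notMem] at h ⊢
  rintro x ⟨⟨h1, _⟩, _, h2⟩
  exact h x ⟨h1, h2⟩

/-- there is no contribution of the exterior -/
theorem V_ext (α0 : ℝ) {j l : Idx} (hj : j ≠ i0) (hl : l ≠ i0) (hjl : j ≠ l) :
    V α0 i0 j l = 0 := by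
  by_cases hP : j = iP
  · subst hP
    refine V_e1 α0 ?_
    rw [inter_comm]; exact P0_empty
  · by_cases hT : (j = iTp ∨ j = iTm) ∧ (l = iTp ∨ l = iTm)
    · refine V_e2 α0 ?_
      rcases hT with ⟨h1 | h1, h2 | h2⟩
      · exact absurd (h1.trans h2.symm) hjl
      · rw [h1, h2]; exact TT_empty
      · rw [h1, h2, inter_comm]; exact TT_empty
      · exact absurd (h1.trans h2.symm) hjl
    · unfold V
      refine setIntegral_eq_zero_of_forall_eq_zero ?_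
      rintro x ⟨⟨h0, hj'⟩, _, hl'⟩
      have hr : 29 / 5 ≤ rr x := by
        by_cases h : j = iTp ∨ j = iTm
        · have h2 : ¬ (l = iTp ∨ l = iTm) := fun h2 => hT ⟨h, h2⟩
          push Not at h2
          exact ext_rr h0 hl' hl h2.1 h2.2
        · push Not at h
          exact ext_rr h0 hj' hj h.1 h.2
      rw [ps_0, ps_o α0 hP hj, hh_zero hr]
      ring

noncomputable def J0 : ℝ := ∫ x in Arc, zz x ^ 2 ∂μHE[1]

theorem arc_PTE (e : Equiv.Perm (Fin 3)) :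
    ∫ x in (MS iP ∩ MS iTp) ∩ MS (iE' e), zz x ^ 2 ∂(μHE[1] : Measure E3) = J0 := by
  have h := int_PE1 e iP iTp iE0 (fun x => zz x ^ 2)
  rw [act_P, act_Tp] at h
  have h2 : ∫ x in (MS iP ∩ MS iTp) ∩ MS (iE' e), zz x ^ 2 ∂(μHE[1] : Measure E3) =
      ∫ x in (MS iP ∩ MS iTp) ∩ MS iE0, zz (PE e x) ^ 2 ∂(μHE[1] : Measure E3) := h
  rw [h2]
  simp_rw [zz_PE]
  rfl

theorem arc_PTmE (e : Equiv.Perm (Fin 3)) :
    ∫ x in (MS iP ∩ MS iTm) ∩ MS (iE' e), zz x ^ 2 ∂(μHE[1] : Measure E3) = J0 := by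
  have h := int_RE1 iP iTp (iE' e) (fun x => zz x ^ 2)
  have h2 : neg (iE' e) = iE' e := neg_act e
  rw [neg_P, neg_Tp, h2] at h
  rw [h, ← arc_PTE e]
  simp_rw [zz_RE, neg_sq]

theorem V_val (α0 : ℝ) {j l : Idx} {c : ℝ} (hj : j ≠ iP) (hj0 : j ≠ i0)
    (hc : al iP l + al j l = c) (hJ : ∫ x in (MS iP ∩ MS j) ∩ (MS j ∩ MS l), zz x ^ 2 ∂μHE[1] = J0) :
    V α0 iP j l = c / √3 * (1 / 2) * J0 := by
  unfold V
  rw [← hJ, ← integral_const_mul]
  congr 1
  funext x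
  rw [hc, ps_P, ps_o α0 hj hj0, sub_zero, mul_pow, inv_pow, r2]
  ring

theorem set1 (i j l : Idx) : (MS i ∩ MS j) ∩ (MS j ∩ MS l) = (MS i ∩ MS j) ∩ MS l := by
  ext Y; simp only [mem_inter_iff]; tauto
theorem set2 (i j l : Idx) : (MS i ∩ MS j) ∩ (MS j ∩ MS l) = (MS i ∩ MS l) ∩ MS j := by
  ext Y; simp only [mem_inter_iff]; tauto

theorem V_PTE (α0 : ℝ) (e : Equiv.Perm (Fin 3)) :
    V α0 iP iTp (iE' e) = -(√2 / 2) / √3 * (1 / 2) * J0 := by
  refine V_val α0 Tp_ne_P Tp_ne_0 ?_ ?_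
  · unfold al; rw [aaP, aaE, aaTp]; ring
  · rw [set1]; exact arc_PTE e

theorem V_PTmE (α0 : ℝ) (e : Equiv.Perm (Fin 3)) :
    V α0 iP iTm (iE' e) = -(√2 / 2) / √3 * (1 / 2) * J0 := by
  refine V_val α0 Tm_ne_P Tm_ne_0 ?_ ?_
  · unfold al; rw [aaP, aaE, aaTm]; ring
  · rw [set1]; exact arc_PTmE e

theorem V_PET (α0 : ℝ) (e : Equiv.Perm (Fin 3)) :
    V α0 iP (iE' e) iTp = √2 / √3 * (1 / 2) * J0 := by
  refine V_val α0 (E_ne_P e) (E_ne_0 e) ?_ ?_
  · unfold al; rw [aaP, aaE, aaTp]; ring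
  · rw [set2]; exact arc_PTE e

theorem V_PETm (α0 : ℝ) (e : Equiv.Perm (Fin 3)) :
    V α0 iP (iE' e) iTm = √2 / √3 * (1 / 2) * J0 := by
  refine V_val α0 (E_ne_P e) (E_ne_0 e) ?_ ?_
  · unfold al; rw [aaP, aaE, aaTm]; ring
  · rw [set2]; exact arc_PTmE e

theorem V_PEE (α0 : ℝ) (e e' : Equiv.Perm (Fin 3)) :
    V α0 iP (iE' e) (iE' e') = 0 := by
  unfold V
  have : al iP (iE' e') + al (iE' e) (iE' e') = 0 := by
    unfold al; rw [aaP, aaE, aaE]; ring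
  rw [this]
  simp

open Classical in
noncomputable def v3 (α0 : ℝ) (i j l : Idx) : ℝ :=
  if i = j ∨ j = l ∨ l = i then 0 else V α0 i j l

theorem v3_symm (α0 : ℝ) (i j l : Idx) : v3 α0 j i l = v3 α0 i j l := by
  unfold v3
  by_cases h : i = j ∨ j = l ∨ l = i
  · have h' : j = i ∨ i = l ∨ l = j := by
      rcases h with h | h | h
      · exact Or.inl h.symm
      · exact Or.inr (Or.inr h.symm)
      · exact Or.inr (Or.inl h.symm)
    rw [if_pos h, if_pos h']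
  · have h' : ¬ (j = i ∨ i = l ∨ l = j) := by
      rintro (h' | h' | h')
      · exact h (Or.inl h'.symm)
      · exact h (Or.inr (Or.inr h'.symm))
      · exact h (Or.inr (Or.inl h'.symm))
    rw [if_neg h, if_neg h', V_symm]

theorem v3_ext (α0 : ℝ) (j l : Idx) : v3 α0 i0 j l = 0 := by
  unfold v3
  split_ifs with h
  · rfl
  · push Not at h
    exact V_ext α0 (Ne.symm h.1) h.2.2 h.2.1

theorem v3_ne (α0 : ℝ) {i j l : Idx} (h1 : i ≠ j) (h2 : j ≠ l) (h3 : l ≠ i) :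
    v3 α0 i j l = V α0 i j l := by
  unfold v3
  rw [if_neg]
  rintro (h | h | h)
  · exact h1 h
  · exact h2 h
  · exact h3 h

/-- the terms with `P` and `j` -/
noncomputable def sP (α0 : ℝ) (j : Idx) : ℝ := ∑ l, v3 α0 iP j l

theorem v3_far (α0 : ℝ) (j : Idx) {l : Idx} (h2 : l ≠ iTp) (h3 : l ≠ iTm) (h4 : ∀ e, l ≠ iE' e) :
    v3 α0 iP j l = 0 := by
  unfold v3
  split_ifs with h
  · rfl
  · push Not at h
    exact V_e3 α0 (P_nb h.2.2 h2 h3 h4)

theorem sP_Tp (α0 : ℝ) : sP α0 iTp = 6 * (-(√2 / 2) / √3 * (1 / 2) * J0) := by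
  unfold sP
  rw [sum_nb (fun l h2 h3 h4 => v3_far α0 iTp h2 h3 h4)]
  have h1 : v3 α0 iP iTp iTp = 0 := by simp [v3]
  have h2 : v3 α0 iP iTp iTm = 0 := by
    rw [v3_ne α0 Tp_ne_P.symm Tp_ne_Tm Tm_ne_P]
    exact V_e2 α0 TT_empty
  have h3 : ∀ e, v3 α0 iP iTp (iE' e) = -(√2 / 2) / √3 * (1 / 2) * J0 := by
    intro e
    rw [v3_ne α0 Tp_ne_P.symm (E_ne_Tp e).symm (E_ne_P e)]
    exact V_PTE α0 e
  rw [h1, h2, Finset.sum_congr rfl (fun e _ => h3 e), Finset.sum_const, Finset.card_univ,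
    Fintype.card_perm, Fintype.card_fin]
  simp [Nat.factorial]

theorem sP_Tm (α0 : ℝ) : sP α0 iTm = 6 * (-(√2 / 2) / √3 * (1 / 2) * J0) := by
  unfold sP
  rw [sum_nb (fun l h2 h3 h4 => v3_far α0 iTm h2 h3 h4)]
  have h1 : v3 α0 iP iTm iTm = 0 := by simp [v3]
  have h2 : v3 α0 iP iTm iTp = 0 := by
    rw [v3_ne α0 Tm_ne_P.symm Tp_ne_Tm.symm Tp_ne_P]
    exact V_e2 α0 (by rw [inter_comm]; exact TT_empty)
  have h3 : ∀ e, v3 α0 iP iTm (iE' e) = -(√2 / 2) / √3 * (1 / 2) * J0 := by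
    intro e
    rw [v3_ne α0 Tm_ne_P.symm (E_ne_Tm e).symm (E_ne_P e)]
    exact V_PTmE α0 e
  rw [h1, h2, Finset.sum_congr rfl (fun e _ => h3 e), Finset.sum_const, Finset.card_univ,
    Fintype.card_perm, Fintype.card_fin]
  simp [Nat.factorial]

theorem sP_E (α0 : ℝ) (e : Equiv.Perm (Fin 3)) :
    sP α0 (iE' e) = 2 * (√2 / √3 * (1 / 2) * J0) := by
  unfold sP
  rw [sum_nb (fun l h2 h3 h4 => v3_far α0 (iE' e) h2 h3 h4)]
  have h1 : v3 α0 iP (iE' e) iTp = √2 / √3 * (1 / 2) * J0 := by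
    rw [v3_ne α0 (E_ne_P e).symm (E_ne_Tp e) Tp_ne_P]
    exact V_PET α0 e
  have h2 : v3 α0 iP (iE' e) iTm = √2 / √3 * (1 / 2) * J0 := by
    rw [v3_ne α0 (E_ne_P e).symm (E_ne_Tm e) Tm_ne_P]
    exact V_PETm α0 e
  have h3 : ∀ e', v3 α0 iP (iE' e) (iE' e') = 0 := by
    intro e'
    unfold v3
    split_ifs
    · rfl
    · exact V_PEE α0 e e'
  rw [h1, h2, Finset.sum_congr rfl (fun e _ => h3 e), Finset.sum_const_zero]
  ring

theorem sum_sP (α0 : ℝ) : ∑ j, sP α0 j = √6 * J0 := by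
  rw [sum_nb]
  · rw [sP_Tp, sP_Tm, Finset.sum_congr rfl (fun e _ => sP_E α0 e), Finset.sum_const,
      Finset.card_univ, Fintype.card_perm, Fintype.card_fin]
    have h6 : √6 = √2 * √3 := by rw [← Real.sqrt_mul (by norm_num)]; norm_num
    have := p3
    rw [h6]
    simp [Nat.factorial]
    have h3 : √3 * √3 = 3 := Real.mul_self_sqrt (by norm_num)
    field_simp
    rw [r3]
    ring
  · intro j h2 h3 h4
    unfold sP
    refine Finset.sum_eq_zero fun l _ => ?_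
    unfold v3
    split_ifs with h
    · rfl
    · push Not at h
      exact V_e1 α0 (P_nb (Ne.symm h.1) h2 h3 h4)

theorem sum_v3 (α0 : ℝ) : ∑ i, ∑ j, ∑ l, v3 α0 i j l = 2 * (√6 * J0) := by
  have h0 : ∀ j, ∑ l, v3 α0 i0 j l = 0 := fun j => Finset.sum_eq_zero fun l _ => v3_ext α0 j l
  have h0' : ∀ j, ∑ l, v3 α0 j i0 l = 0 := by
    intro j
    rw [← h0 j]
    exact Finset.sum_congr rfl fun l _ => v3_symm _ _ _ _
  have h1 : ∀ j, ∑ l, v3 α0 j iP l = sP α0 j := by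
    intro j
    exact Finset.sum_congr rfl fun l _ => v3_symm _ _ _ _
  rw [sum_PQ (w := fun i j => ∑ l, v3 α0 i j l) P_ne_0]
  · rw [Finset.sum_congr rfl (fun j _ => h0 j), Finset.sum_congr rfl (fun j _ => h0' j),
      Finset.sum_congr rfl (fun j _ => h1 j)]
    have : ∑ j, ∑ l, v3 α0 iP j l = √6 * J0 := sum_sP α0
    rw [this, sum_sP]
    simp
    ring
  · intro i j h1 h2 h3 h4
    refine Finset.sum_eq_zero fun l _ => ?_
    unfold v3
    split_ifs
    · rfl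
    · exact V_zero α0 l h1 h2 h3 h4
  · refine Finset.sum_eq_zero fun l _ => ?_
    simp [v3]
  · exact h0' iP
  · exact h0 iP
  · exact h0 i0

theorem curve_ge (α0 : ℝ) : 2 * (162 / 55) ^ 2 ≤ 1 / 2 * ∑ i, ∑ j, ∑ l, v3 α0 i j l := by
  rw [sum_v3]
  have h := arc_int
  have p6 := p6
  have h2 : √6 * ((162 / 55) ^ 2 * (2 / √6)) ≤ √6 * J0 := mul_le_mul_of_nonneg_left h p6.le
  have h3 : √6 * ((162 / 55) ^ 2 * (2 / √6)) = 2 * (162 / 55) ^ 2 := by
    field_simp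
  linarith

end Pool.Agent.J6H64.KU
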