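import Pool.Agent.J6H64.KU.Cells

set_option autoImplicit false
set_option maxHeartbeats 4000000

open Set Filter Topology
open scoped Manifold ContDiff

namespace Pool.Agent.J6H64.KU

theorem contDiff_nG (i : Idx) : ContDiff ℝ ∞ (nG i) := by
  unfold nG G
  fun_prop

/-- the operator -/
noncomputable def opA (S : Finset (Option Bd)) (v : Option Bd → E3) (D : Option Bd → E3) :
    E3 →L[ℝ] E3 :=
  ContinuousLinearMap.id ℝ E3 + ∑ k ∈ S,
    ((2 : ℝ) • (innerSL ℝ (D k) - ((S.card : ℝ)⁻¹) • ∑ l ∈ S, innerSL ℝ (D l))).smulRight (v k)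

theorem opA_apply (S : Finset (Option Bd)) (v D : Option Bd → E3) (u : E3) :
    opA S v D u = u + dual S v (fun a => inner ℝ (D a) u) := by
  unfold opA dual
  simp only [_root_.add_apply, ContinuousLinearMap.id_apply,
    _root_.sum_apply, ContinuousLinearMap.smulRight_apply,
    _root_.smul_apply, _root_.sub_apply, innerSL_apply_apply, smul_eq_mul]
  congr 1
  refine Finset.sum_congr rfl fun k _ => ?_
  congr 1
  ring

theorem exists_field (φ : Option Bd → E3 → ℝ) (hφ : ∀ a, ContDiff ℝ ∞ (φ a)) :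
    ∃ X : E3 → E3, ContDiff ℝ ∞ X ∧ HasCompactSupport X ∧
      ∀ a b, a ≠ b → ∀ x ∈ iface Om a b, φ a x - φ b x = inner ℝ (X x) (rd.n a b x) := by
  classical
  set t : E3 → Set E3 := fun x => {v | ∀ a b : Option Bd, x ∈ MS (ix a) → x ∈ MS (ix b) →
    inner ℝ v (nG (ix a) x - nG (ix b) x) = φ a x - φ b x} with ht
  have hconv : ∀ x, Convex ℝ (t x) := by
    intro x v hv w hw p q hp hq hpq a b ha hb
    rw [inner_add_left, inner_smul_left, inner_smul_left, hv a b ha hb, hw a b ha hb]
    simp only [RCLike.conj_to_real]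
    rw [← add_mul, hpq, one_mul]
  have hloc : ∀ Y : E3, ∃ U ∈ 𝓝 Y, ∃ g : E3 → E3, ContMDiffOn 𝓘(ℝ, E3) 𝓘(ℝ, E3) ∞ g U ∧
      ∀ y ∈ U, g y ∈ t y := by
    intro Y
    obtain ⟨U, hU, hU1, hU2⟩ := local_nhds Y
    set S : Finset (Option Bd) := Finset.univ.filter (fun a => Y ∈ MS (ix a)) with hS
    have hmem : ∀ a, a ∈ S ↔ Y ∈ MS (ix a) := by intro a; simp [hS]
    set v : Option Bd → E3 := fun a => nG (ix a) Y with hv
    have hd : ∀ i ∈ S, ∀ j ∈ S, i ≠ j → ‖v i - v j‖ = 1 := fun i hi j hj hij =>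
      nG_dist ((hmem i).1 hi) ((hmem j).1 hj) (ix_ne hij)
    set A : E3 → (E3 →L[ℝ] E3) := fun y => opA S v (fun a => nG (ix a) y - v a) with hA
    have hAc : ContDiff ℝ ∞ A := by
      simp only [hA, opA]
      have hD : ∀ a : Option Bd, ContDiff ℝ ∞ fun y => innerSL ℝ (nG (ix a) y - v a) := fun a =>
        (innerSL ℝ).contDiff.comp ((contDiff_nG _).sub contDiff_const)
      refine contDiff_const.add (ContDiff.sum fun k _ => ?_)
      refine ContDiff.smulRight ?_ contDiff_const
      exact ((hD k).sub ((ContDiff.sum fun l _ => hD l).const_smul _)).const_smul _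
    have hAY : A Y = 1 := by
      ext u
      simp only [hA]
      rw [opA_apply]
      simp [hv, dual]
    set V : Set E3 := {y | IsUnit (A y)} with hV
    have hVo : IsOpen V := Units.isOpen.preimage hAc.continuous
    have hYV : Y ∈ V := by
      show IsUnit (A Y)
      rw [hAY]; exact isUnit_one
    set g : E3 → E3 := fun y => (Ring.inverse (A y)) (dual S v (fun a => φ a y)) with hg
    refine ⟨U ∩ V, inter_mem hU (hVo.mem_nhds hYV), g, ?_, ?_⟩
    · rw [contMDiffOn_iff_contDiffOn]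
      intro y hy
      obtain ⟨u, hu⟩ := hy.2
      have h1 : ContDiffAt ℝ ∞ (fun y => Ring.inverse (A y)) y := by
        have h2 : ContDiffAt ℝ ∞ Ring.inverse (A y) := by
          rw [← hu]; exact contDiffAt_ringInverse ℝ u
        exact h2.comp y hAc.contDiffAt
      have h3 : ContDiff ℝ ∞ (fun y => dual S v (fun a => φ a y)) := by
        unfold dual
        refine ContDiff.sum fun k _ => ?_
        have hs : ContDiff ℝ ∞ (fun x => 2 * (φ k x - (∑ l ∈ S, φ l x) / (S.card : ℝ))) :=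
          contDiff_const.mul ((hφ k).sub ((ContDiff.sum fun l _ => hφ l).div_const _))
        have hvk : ContDiff ℝ ∞ (fun _ : E3 => v k) := contDiff_const
        exact hs.smul hvk
      exact (h1.clm_apply h3.contDiffAt).contDiffWithinAt
    · rintro y ⟨hyU, hyV⟩ a b ha hb
      have ha' := (hmem a).2 (hU1 y hyU _ ha)
      have hb' := (hmem b).2 (hU1 y hyU _ hb)
      have h1 : A y (g y) = dual S v (fun a => φ a y) := by
        have h2 : A y * Ring.inverse (A y) = 1 := Ring.mul_inverse_cancel _ hyV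
        have h3 := congrArg (fun L : E3 →L[ℝ] E3 => L (dual S v (fun a => φ a y))) h2
        exact h3
      have h4 := dual_spec S v (fun a => φ a y) hd ha' hb'
      have h5 := dual_spec S v (fun a => inner ℝ (nG (ix a) y - v a) (g y)) hd ha' hb'
      rw [← h1] at h4
      simp only [hA] at h4
      rw [opA_apply, inner_add_right, h5] at h4
      rw [real_inner_comm, ← h4]
      simp only [inner_sub_left, hv]
      ring
  obtain ⟨X0, hX0⟩ := exists_contMDiffMap_forall_mem_convex_of_local (n := ⊤) 𝓘(ℝ, E3) hconv hloc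
  have hX0s : ContDiff ℝ ∞ X0 := X0.contMDiff.contDiff
  -- a common bound
  have hb : ∃ R : ℝ, 0 < R ∧ ∀ i : Idx, i ≠ i0 → ∀ Y ∈ MS i, ‖Y‖ ≤ R := by
    have h1 : ∀ i : Idx, ∃ R : ℝ, i ≠ i0 → ∀ Y ∈ MS i, ‖Y‖ ≤ R := by
      intro i
      by_cases hi : i = i0
      · exact ⟨0, fun h => absurd hi h⟩
      · obtain ⟨R, hR⟩ := isBounded_iff_forall_norm_le.1 (ms_bdd i hi)
        exact ⟨R, fun _ => hR⟩
    choose R hR using h1
    refine ⟨∑ i, |R i| + 1, by positivity, fun i hi Y hY => ?_⟩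
    have h2 := hR i hi Y hY
    have h3 : |R i| ≤ ∑ i, |R i| := Finset.single_le_sum (f := fun i => |R i|)
      (fun _ _ => abs_nonneg _) (Finset.mem_univ i)
    have h4 := le_abs_self (R i)
    linarith
  obtain ⟨R, hR0, hR⟩ := hb
  let χ : ContDiffBump (0 : E3) := ⟨R, R + 1, hR0, by linarith⟩
  refine ⟨fun y => χ y • X0 y, χ.contDiff.smul hX0s, χ.hasCompactSupport.smul_right, ?_⟩
  intro a b hab x hx
  rw [iface_eq hab] at hx
  have h1 : χ x = 1 := by
    apply χ.one_of_mem_closedBall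
    rw [mem_closedBall_zero_iff]
    by_cases ha : ix a = i0
    · have hb : ix b ≠ i0 := fun h => ix_ne hab (ha.trans h.symm)
      exact hR _ hb x hx.2
    · exact hR _ ha x hx.1
  have h2 := hX0 x a b hx.1 hx.2
  simp only [h1, one_smul]
  rw [← h2, rd_n]
  unfold nG
  rw [← smul_sub]

end Pool.Agent.J6H64.KU
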