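import Pool.Agent.J6H64.KU.Ev6
import Pool.Agent.J6H64.KU.XF

set_option autoImplicit false
set_option maxHeartbeats 4000000

open MeasureTheory Set Filter Topology
open scoped ENNReal NNReal ContDiff

namespace Pool.Agent.J6H64.KU

theorem ix_bij : Function.Bijective ix := ⟨ix_inj, ix_surj⟩

theorem sum_ix (h : Idx → ℝ) : ∑ a : Option Bd, h (ix a) = ∑ i, h i := ix_bij.sum_comp h

/-- the normal components -/
noncomputable def ff (α0 : ℝ) (a b : Option Bd) : E3 → ℝ :=
  fun x => ps α0 (ix a) x - ps α0 (ix b) x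

theorem ff_cont (α0 : ℝ) (a b : Option Bd) : ContDiff ℝ ∞ (ff α0 a b) :=
  (ps_cont α0 _).sub (ps_cont α0 _)

theorem gradSq_eq (α0 : ℝ) (a b : Option Bd) (x : E3) :
    rd.gradSq (ff α0) a b x = gsq α0 (ix a) (ix b) x := by
  unfold RoundData.gradSq gsq
  rw [rd_n]
  rfl

theorem alpha_eq (a b : Option Bd) : rd.α a b = al (ix a) (ix b) := rfl

theorem ix_eq_iff {a b : Option Bd} : ix a = ix b ↔ a = b := ix_inj.eq_iff

theorem index_eq (α0 : ℝ) : rd.index (ff α0) =
    1 / 2 * ∑ i, ∑ j, w2 α0 i j - 1 / 2 * ∑ i, ∑ j, ∑ l, v3 α0 i j l := by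
  classical
  unfold RoundData.index
  congr 1
  · congr 1
    rw [← sum_ix]
    refine Finset.sum_congr rfl fun a _ => ?_
    rw [← sum_ix]
    refine Finset.sum_congr rfl fun b _ => ?_
    unfold w2
    by_cases h : a = b
    · rw [if_pos h, if_pos (by rw [h])]
    · rw [if_neg h, if_neg (ix_ne h), iface_eq h]
      unfold W
      congr 1
      funext x
      rw [gradSq_eq, alpha_eq]
      rfl
  · congr 1
    rw [← sum_ix]
    refine Finset.sum_congr rfl fun a _ => ?_
    rw [← sum_ix]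
    refine Finset.sum_congr rfl fun b _ => ?_
    rw [← sum_ix]
    refine Finset.sum_congr rfl fun c _ => ?_
    unfold v3
    by_cases h : a = b ∨ b = c ∨ c = a
    · have h' : ix a = ix b ∨ ix b = ix c ∨ ix c = ix a := by
        rw [ix_eq_iff, ix_eq_iff, ix_eq_iff]; exact h
      rw [if_pos h, if_pos h']
    · have h' : ¬ (ix a = ix b ∨ ix b = ix c ∨ ix c = ix a) := by
        rw [ix_eq_iff, ix_eq_iff, ix_eq_iff]; exact h
      rw [if_neg h, if_neg h']
      push Not at h
      rw [iface_eq h.1, iface_eq h.2.1]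
      unfold V
      congr 1

theorem wall_num : 6 * (3 / 2 * (4 * (1 / √6) * ((52 / 55 + 3 / √2) / √3))) =
    6 * √2 * (52 / 55) + 18 := by
  have h6 : √6 = √2 * √3 := by rw [← Real.sqrt_mul (by norm_num)]; norm_num
  have p2 := p2
  have p3 := p3
  rw [h6]
  field_simp
  have h2 := r2
  have h3 := r3
  have h4 : √2 ^ 3 = 2 * √2 := by rw [pow_succ, h2]
  ring_nf
  try rw [h4]
  try simp only [h2, h3]
  ring

theorem index_neg {α0 : ℝ} (hα : α0 * IC = ID) : rd.index (ff α0) < 0 := by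
  rw [index_eq]
  have h1 := surf_le hα
  have h2 := curve_ge α0
  rw [wall_num] at h1
  have h3 : √2 < 1.41422 := by rw [Real.sqrt_lt' (by norm_num)]; norm_num
  have h4 : 1.732 < √3 := by rw [Real.lt_sqrt (by norm_num)]; norm_num
  have h5 : (2 : ℝ) * (162 / 55) ^ 2 = 52488 / 3025 := by norm_num
  rw [h5] at h2
  linarith

/-! ### The fluxes -/

noncomputable def Fl (α0 : ℝ) (i j : Idx) : ℝ :=
  ∫ x in MS i ∩ MS j, (ps α0 i x - ps α0 j x) ∂μHE[2]

open Classical in
noncomputable def fl (α0 : ℝ) (i : Idx) : ℝ := ∑ j, if i = j then 0 else Fl α0 i j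

theorem flux_eq (α0 : ℝ) (a : Option Bd) : flux Om (ff α0) a = fl α0 (ix a) := by
  classical
  unfold flux fl
  rw [← sum_ix]
  refine Finset.sum_congr rfl fun b _ => ?_
  by_cases h : a = b
  · rw [if_pos h, if_pos (by rw [h])]
  · rw [if_neg h, if_neg (ix_ne h), iface_eq h]
    rfl

theorem ps_neg (α0 : ℝ) (i : Idx) (Y : E3) : ps α0 (neg i) (RE Y) = -ps α0 i Y := by
  by_cases h : i = iP
  · subst h
    rw [neg_P, ps_P, ps_P, zz_RE]; ring
  · by_cases h0 : i = i0
    · subst h0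
      rw [neg_0, ps_0, ps_0, hh_RE]; ring
    · rw [ps_o α0 h h0, ps_o α0]
      · ring
      · intro h'
        apply h
        rw [← neg_neg' i, h', neg_P]
      · intro h'
        apply h0
        rw [← neg_neg' i, h', neg_0]

theorem Fl_neg (α0 : ℝ) (i j : Idx) : Fl α0 (neg i) (neg j) = -Fl α0 i j := by
  unfold Fl
  rw [int_RE, ← integral_neg]
  congr 1
  funext x
  rw [ps_neg, ps_neg]
  ring

def negE : Idx ≃ Idx := ⟨neg, neg, neg_neg', neg_neg'⟩

theorem fl_neg (α0 : ℝ) (i : Idx) : fl α0 (neg i) = -fl α0 i := by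
  unfold fl
  rw [← Equiv.sum_comp negE, ← Finset.sum_neg_distrib]
  refine Finset.sum_congr rfl fun j _ => ?_
  have e : negE j = neg j := rfl
  rw [e]
  by_cases h : i = j
  · rw [if_pos (by rw [h]), if_pos h, neg_zero]
  · rw [if_neg h, if_neg, Fl_neg]
    intro h'
    exact h (negE.injective h')

theorem Fl_zero (α0 : ℝ) {i j : Idx} (h1 : i ≠ iP) (h2 : i ≠ i0) (h3 : j ≠ iP) (h4 : j ≠ i0) :
    Fl α0 i j = 0 := by
  unfold Fl
  have : ∀ x, (ps α0 i x - ps α0 j x) = 0 := by
    intro x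
    rw [ps_o α0 h1 h2, ps_o α0 h3 h4]
    ring
  simp_rw [this]
  simp

theorem Fl_symm (α0 : ℝ) (i j : Idx) : Fl α0 j i = -Fl α0 i j := by
  unfold Fl
  rw [← integral_neg, inter_comm]
  congr 1
  funext x
  ring

theorem Fl_empty (α0 : ℝ) {i j : Idx} (h : MS i ∩ MS j = ∅) : Fl α0 i j = 0 := by
  unfold Fl; rw [h]; simp

open Classical in
theorem fl_o (α0 : ℝ) {i : Idx} (h1 : i ≠ iP) (h2 : i ≠ i0) :
    fl α0 i = -Fl α0 iP i - Fl α0 i0 i := by
  unfold fl
  have key : ∀ j, (if i = j then 0 else Fl α0 i j) = (if j = iP then -Fl α0 iP i else 0) +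
      (if j = i0 then -Fl α0 i0 i else 0) := by
    intro j
    by_cases a : j = iP
    · subst a
      rw [if_neg h1, if_pos rfl, if_neg P_ne_0, Fl_symm]; ring
    · by_cases b : j = i0
      · subst b
        rw [if_neg h2, if_neg a, if_pos rfl, Fl_symm]; ring
      · rw [if_neg a, if_neg b, Fl_zero α0 h1 h2 a b]
        simp
  rw [Finset.sum_congr rfl (fun j _ => key j), Finset.sum_add_distrib, Finset.sum_ite_eq',
    Finset.sum_ite_eq']
  simp
  ring

theorem fl_Tp {α0 : ℝ} (hα : α0 * IC = ID) : fl α0 iTp = 0 := by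
  rw [fl_o α0 Tp_ne_P Tp_ne_0]
  have h1 : Fl α0 iP iTp = ID := by
    unfold Fl ID
    congr 1
    funext x
    rw [ps_P, ps_o α0 Tp_ne_P Tp_ne_0, sub_zero]
  have h2 : Fl α0 i0 iTp = -ID := by
    rw [← hα]
    unfold Fl IC
    rw [← neg_mul, ← integral_const_mul]
    congr 1
    funext x
    rw [ps_0, ps_o α0 Tp_ne_P Tp_ne_0, sub_zero]
  rw [h1, h2]; ring

theorem fl_zero {α0 : ℝ} (hα : α0 * IC = ID) (i : Idx) : fl α0 i = 0 := by
  by_cases hs : i.s = 0
  · have h1 : neg i = i := by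
      refine Idx.ext' rfl ?_
      show -i.s = i.s
      rw [hs]; rfl
    have h2 := fl_neg α0 i
    rw [h1] at h2
    linarith
  · have ht : ¬ (i.q.t : ℕ) ≤ 2 := fun h => hs (i.h.1 h)
    have hT := fl_Tp hα
    by_cases h4 : i.q.t = 4
    · rcases idx_T h4 with h | h
      · rw [h, hT]
      · rw [h, ← neg_Tp, fl_neg, hT, neg_zero]
    · have hP : i ≠ iP := by
        rintro rfl; exact hs rfl
      have h0 : i ≠ i0 := by
        rintro rfl; exact hs rfl
      have hTp : i ≠ iTp := by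
        rintro rfl; exact h4 rfl
      have hTm : i ≠ iTm := by
        rintro rfl; exact h4 rfl
      have hE : ∀ e, i ≠ iE' e := by
        rintro e rfl; exact hs rfl
      have e1 : Fl α0 iP i = 0 := Fl_empty α0 (P_nb hP hTp hTm hE)
      have e2 : Fl α0 i0 i = 0 := by
        refine Fl_empty α0 ?_
        ext Y
        simp only [mem_inter_iff, mem_empty_iff_false, iff_false, not_and]
        intro hY hY'
        rcases nb0 hY hY' h0 with h | h | ⟨h, _⟩
        · exact hTp h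
        · exact hTm h
        · apply ht
          rw [h]
          exact Nat.zero_le 2
      rw [fl_o α0 hP h0, e1, e2]; ring

/-- **The cluster is unstable.** -/
theorem unstable : ∃ (ι : Type) (_ : Fintype ι) (Ω : ι → Set E3), IsCluster Ω ∧ Plateau Ω ∧
    ∃ (D : RoundData Ω) (X : E3 → E3) (f : Option ι → Option ι → E3 → ℝ),
      ContDiff ℝ (⊤ : ℕ∞) X ∧ HasCompactSupport X ∧ D.IsNormalPart X f ∧
      (∀ i, flux Ω f (some i) = 0) ∧ D.index f < 0 := by
  have hα : ID / IC * IC = ID := div_mul_cancel₀ _ IC_pos.ne'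
  obtain ⟨X, hX1, hX2, hX3⟩ := exists_field (fun a => ps (ID / IC) (ix a))
    (fun a => ps_cont _ _)
  refine ⟨Bd, inferInstance, Om, isCluster, plateau, rd, X, ff (ID / IC), hX1, hX2,
    ⟨fun a b => ff_cont _ a b, fun a b hab x hx => hX3 a b hab x hx⟩, ?_, index_neg hα⟩
  intro i
  rw [flux_eq]
  exact fl_zero hα _

end Pool.Agent.J6H64.KU
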