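import Pool.Agent.J6H64.KU.Sym
import Pool.Agent.J6H64.KU.Defs

set_option autoImplicit false
set_option maxHeartbeats 4000000

open Set Filter Topology

namespace Pool.Agent.J6H64.KU

noncomputable def zz (Y : E3) : ℝ := Y 0 + Y 1 + Y 2
noncomputable def xi (Y : E3) : ℝ := 169 / 165 - 55 / 676 * ‖Y‖ ^ 2
noncomputable def SS (Y : E3) : ℝ := 169 / 55 + 165 / 676 * ‖Y‖ ^ 2
noncomputable def xx (Y : E3) : Fin 3 → ℝ := fun j => xi Y + Y j - zz Y / 3
noncomputable def pt (Y : E3) : Pt := (SS Y, xx Y, |zz Y|)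

theorem nsq (Y : E3) : ‖Y‖ ^ 2 = Y 0 ^ 2 + Y 1 ^ 2 + Y 2 ^ 2 := by
  rw [EuclideanSpace.real_norm_sq_eq, Fin.sum_univ_three]

theorem inn (X Y : E3) : inner ℝ X Y = X 0 * Y 0 + X 1 * Y 1 + X 2 * Y 2 := by
  rw [PiLp.inner_apply, Fin.sum_univ_three]
  simp [mul_comm]

theorem cone_pt (Y : E3) : Cone (pt Y) := by
  refine ⟨?_, abs_nonneg _, ?_⟩
  · unfold pt SS; positivity
  · unfold pt SS xx xi zz
    simp only [Fin.sum_univ_three, sq_abs]
    rw [nsq]
    ring

theorem continuous_zz : Continuous zz := by unfold zz; fun_prop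
theorem continuous_xi : Continuous xi := by unfold xi; fun_prop
theorem continuous_SS : Continuous SS := by unfold SS; fun_prop
theorem continuous_pt : Continuous pt := by
  unfold pt
  refine continuous_SS.prodMk (Continuous.prodMk ?_ continuous_zz.abs)
  refine continuous_pi fun j => ?_
  unfold xx
  have := continuous_xi
  have := continuous_zz
  fun_prop

theorem continuous_val (q : Up) : Continuous (val q) := by
  unfold val
  fun_prop

theorem continuous_vp (q : Up) : Continuous (fun Y => val q (pt Y)) :=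
  (continuous_val q).comp continuous_pt

/-- The indices of the cells. -/
def Idx : Type := {i : Up × SignType // (i.1.t : ℕ) ≤ 2 ↔ i.2 = 0}

instance : Finite Idx := Subtype.finite
noncomputable instance : Fintype Idx := Fintype.ofFinite _
noncomputable instance : DecidableEq Idx := Classical.decEq _

def Idx.q (i : Idx) : Up := i.1.1
def Idx.s (i : Idx) : SignType := i.1.2

theorem Idx.h (i : Idx) : (i.q.t : ℕ) ≤ 2 ↔ i.s = 0 := i.2

theorem Idx.ext' {i j : Idx} (h : i.q = j.q) (h' : i.s = j.s) : i = j :=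
  Subtype.ext (Prod.ext h h')

theorem cC_zero {t : Fin 5} (h : (t : ℕ) ≤ 2) : cC t = 0 := by
  fin_cases t
  · rfl
  · rfl
  · rfl
  · simp at h
  · simp at h

theorem Idx.cC0 (i : Idx) (h : i.s = 0) : cC i.q.t = 0 := cC_zero (i.h.2 h)

/-- the sign condition -/
def Sg (i : Idx) (Y : E3) : Prop := i.s = 0 ∨ SignType.sign (zz Y) = i.s

/-- the cells -/
def Cell (i : Idx) : Set E3 := {Y | Sm i.q (pt Y) ∧ Sg i Y}

/-- the closed cells -/
def MS (i : Idx) : Set E3 := {Y | Mn i.q (pt Y) ∧ Sg i Y}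

theorem cell_sub (i : Idx) : Cell i ⊆ MS i := fun _ h => ⟨h.1.mn, h.2⟩

theorem exists_idx {q : Up} {Y : E3} (h : Mn q (pt Y)) : ∃ i : Idx, i.q = q ∧ Y ∈ MS i := by
  by_cases ht : (q.t : ℕ) ≤ 2
  · exact ⟨⟨(q, 0), by simp [ht]⟩, rfl, h, Or.inl rfl⟩
  · have hz : zz Y ≠ 0 := by
      intro h0
      apply ht
      refine t_le_of_mn (cone_pt Y) ?_ h
      show |zz Y| = 0
      rw [h0, abs_zero]
    refine ⟨⟨(q, SignType.sign (zz Y)), ?_⟩, rfl, h, Or.inr rfl⟩
    simp only [ht, false_iff]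
    exact fun h0 => hz (sign_eq_zero_iff.1 h0)

theorem exists_ms (Y : E3) : ∃ i : Idx, Y ∈ MS i := by
  obtain ⟨q, hq⟩ := exists_mn (pt Y)
  obtain ⟨i, _, hi⟩ := exists_idx hq
  exact ⟨i, hi⟩

theorem exists_ms_of {q : Up} {Y : E3} (h : Mn q (pt Y)) : ∃ i : Idx, i.q = q ∧ Y ∈ MS i :=
  exists_idx h

/-- two closed cells at a point have different first components -/
theorem ms_q_ne {i j : Idx} {Y : E3} (hi : Y ∈ MS i) (hj : Y ∈ MS j) (hne : i ≠ j) :
    i.q ≠ j.q := by
  intro hq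
  apply hne
  refine Idx.ext' hq ?_
  by_cases h : i.s = 0
  · rw [h]
    have := i.h.2 h
    rw [hq] at this
    exact (j.h.1 this).symm
  · have h' : j.s ≠ 0 := by
      intro h'
      apply h
      have := j.h.2 h'
      rw [← hq] at this
      exact i.h.1 this
    have h1 := hi.2.resolve_left h
    have h2 := hj.2.resolve_left h'
    rw [← h1, ← h2]

theorem ms_adj {i j : Idx} {Y : E3} (hi : Y ∈ MS i) (hj : Y ∈ MS j) (hne : i ≠ j) :
    Adj i.q j.q :=
  adj_of_mn (cone_pt Y) hi.1 hj.1 (ms_q_ne hi hj hne)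

theorem cell_disj {i j : Idx} {Y : E3} (hi : Y ∈ Cell i) (hj : Y ∈ MS j) : i = j := by
  by_contra hne
  have h1 := ms_q_ne (cell_sub i hi) hj hne
  have h2 := hi.1 j.q (Ne.symm h1)
  have h3 := hj.1 i.q
  linarith

/-- a point of the closed cell is in the cell or in another closed cell -/
theorem ms_cell_or {i : Idx} {Y : E3} (hi : Y ∈ MS i) : Y ∈ Cell i ∨ ∃ j, j ≠ i ∧ Y ∈ MS j := by
  by_cases h : Sm i.q (pt Y)
  · exact Or.inl ⟨h, hi.2⟩
  · right
    unfold Sm at h
    push Not at h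
    obtain ⟨q', hq', hle⟩ := h
    have hm : Mn q' (pt Y) := fun q'' => hle.trans (hi.1 q'')
    obtain ⟨j, hj, hj'⟩ := exists_idx hm
    refine ⟨j, ?_, hj'⟩
    intro hji
    apply hq'
    rw [← hj, hji]

theorem isClosed_ms (i : Idx) : IsClosed (MS i) := by
  have h1 : IsClosed {Y : E3 | Mn i.q (pt Y)} := by
    have : {Y : E3 | Mn i.q (pt Y)} = ⋂ q' : Up, {Y | val i.q (pt Y) ≤ val q' (pt Y)} := by
      ext Y; simp [Mn]
    rw [this]
    exact isClosed_iInter fun q' => isClosed_le (continuous_vp _) (continuous_vp _)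
  by_cases h : i.s = 0
  · have : MS i = {Y : E3 | Mn i.q (pt Y)} := by
      ext Y; exact ⟨fun h => h.1, fun h' => ⟨h', Or.inl h⟩⟩
    rw [this]; exact h1
  · have hz : ∀ Y : E3, Mn i.q (pt Y) → zz Y ≠ 0 := by
      intro Y hY h0
      apply h
      rw [← i.h]
      refine t_le_of_mn (cone_pt Y) ?_ hY
      show |zz Y| = 0
      rw [h0, abs_zero]
    have : MS i = {Y : E3 | Mn i.q (pt Y)} ∩ {Y | 0 ≤ (i.s : ℝ) * zz Y} := by
      ext Y
      constructor
      · rintro ⟨h1, h2⟩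
        refine ⟨h1, ?_⟩
        rw [mem_setOf_eq, ← h2.resolve_left h]
        rw [sign_mul_self]
        exact abs_nonneg _
      · rintro ⟨h1, h2⟩
        refine ⟨h1, Or.inr ?_⟩
        have h3 := hz Y h1
        rw [mem_setOf_eq] at h2
        rcases hs : i.s with _ | _ | _
        · exact absurd hs h
        · rw [hs] at h2
          have h4 : zz Y < 0 := by
            simp at h2
            exact lt_of_le_of_ne h2 h3
          exact sign_neg h4
        · rw [hs] at h2
          have h4 : 0 < zz Y := by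
            simp at h2
            exact lt_of_le_of_ne h2 (Ne.symm h3)
          exact sign_pos h4
    rw [this]
    exact h1.inter (isClosed_le continuous_const (continuous_const.mul continuous_zz))

theorem isOpen_cell (i : Idx) : IsOpen (Cell i) := by
  have : Cell i = ⋂ j : {j : Idx // j ≠ i}, (MS j.1)ᶜ := by
    ext Y
    simp only [mem_iInter, mem_compl_iff, Subtype.forall]
    constructor
    · intro hY j hj hY'
      exact hj (cell_disj hY hY').symm
    · intro hY
      obtain ⟨j, hj⟩ := exists_ms Y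
      have hji : j = i := by
        by_contra hne
        exact hY j hne hj
      subst hji
      rcases ms_cell_or hj with h | ⟨l, hl, hl'⟩
      · exact h
      · exact absurd hl' (hY l hl)
  rw [this]
  exact isOpen_iInter_of_finite fun j => (isClosed_ms j.1).isOpen_compl

/-! ### The quadratic functions -/

noncomputable def sp (i : Idx) : ℝ := i.q.p 0 + i.q.p 1 + i.q.p 2
noncomputable def aa (i : Idx) : ℝ := (165 * cA i.q.t + 55 * cB i.q.t * sp i) / 676
noncomputable def bv (i : Idx) (j : Fin 3) : ℝ :=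
  -(cB i.q.t * i.q.p j) + cB i.q.t * sp i / 3 + cC i.q.t * (i.s : ℝ)
noncomputable def bb (i : Idx) : E3 := !₂[bv i 0, bv i 1, bv i 2]
noncomputable def cc (i : Idx) : ℝ := 169 / 55 * cA i.q.t - 169 / 165 * cB i.q.t * sp i

/-- the function of a cell -/
noncomputable def Vf (i : Idx) (Y : E3) : ℝ := aa i * ‖Y‖ ^ 2 + inner ℝ (bb i) Y + cc i

@[simp] theorem bb0 (i : Idx) : bb i 0 = bv i 0 := rfl
@[simp] theorem bb1 (i : Idx) : bb i 1 = bv i 1 := rfl
@[simp] theorem bb2 (i : Idx) : bb i 2 = bv i 2 := rfl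

theorem val_pt (i : Idx) (Y : E3) (h : Sg i Y) : val i.q (pt Y) = Vf i Y := by
  have e : cC i.q.t * |zz Y| = cC i.q.t * ((i.s : ℝ) * zz Y) := by
    rcases h with h | h
    · rw [i.cC0 h, zero_mul, zero_mul]
    · rw [← h, sign_mul_self]
  unfold val Vf pt
  simp only
  rw [e, inn, Fin.sum_univ_three]
  unfold aa cc sp SS xx xi
  simp only [bb0, bb1, bb2, bv, sp, zz]
  ring

/-- the gradient -/
noncomputable def G (i : Idx) (Y : E3) : E3 := bb i + (2 * aa i) • Y

theorem Vf_add (i : Idx) (Y d : E3) :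
    Vf i (Y + d) = Vf i Y + inner ℝ (G i Y) d + aa i * ‖d‖ ^ 2 := by
  unfold Vf G
  rw [nsq, nsq, nsq, inn, inn, inn]
  simp only [PiLp.add_apply, PiLp.smul_apply, smul_eq_mul]
  ring

theorem cs_sq {i j : Idx} {Y : E3} (hi : Sg i Y) (hj : Sg j Y) (hz : i.s = 0 ∨ j.s = 0 ∨ zz Y ≠ 0) :
    (cC i.q.t * (i.s : ℝ) - cC j.q.t * (j.s : ℝ)) ^ 2 = (cC i.q.t - cC j.q.t) ^ 2 := by
  have hsq : ∀ s : SignType, s ≠ 0 → ((s : SignType) : ℝ) ^ 2 = 1 := by
    intro s hs
    cases s
    · exact absurd rfl hs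
    · norm_num
    · norm_num
  by_cases h1 : i.s = 0
  · rw [i.cC0 h1]
    by_cases h2 : j.s = 0
    · rw [j.cC0 h2]; ring
    · have := hsq _ h2
      calc _ = cC j.q.t ^ 2 * (j.s : ℝ) ^ 2 := by ring
        _ = _ := by rw [this]; ring
  · by_cases h2 : j.s = 0
    · rw [j.cC0 h2]
      have := hsq _ h1
      calc _ = cC i.q.t ^ 2 * (i.s : ℝ) ^ 2 := by ring
        _ = _ := by rw [this]; ring
    · have e1 := hi.resolve_left h1
      have e2 := hj.resolve_left h2
      have e3 : i.s = j.s := by rw [← e1, ← e2]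
      have := hsq _ h1
      rw [← e3]
      calc _ = (cC i.q.t - cC j.q.t) ^ 2 * (i.s : ℝ) ^ 2 := by ring
        _ = _ := by rw [this]; ring

theorem unit_dist {i j : Idx} {Y : E3} (hi : Y ∈ MS i) (hj : Y ∈ MS j) (hne : i ≠ j) :
    ‖bb i - bb j‖ ^ 2 - 4 * (aa i - aa j) * (cc i - cc j) = 2 := by
  have h1 := (ms_adj hi hj hne).dist
  have h2 := cs_sq (i := i) (j := j) hi.2 hj.2 (by
    by_cases h1 : i.s = 0
    · exact Or.inl h1
    · right; right
      intro h0
      apply h1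
      have := hi.2.resolve_left h1
      rw [h0, sign_zero] at this
      exact this.symm)
  rw [Fin.sum_univ_three] at h1
  rw [← h2] at h1
  rw [nsq]
  simp only [PiLp.sub_apply, bb0, bb1, bb2, bv]
  unfold aa cc sp
  linear_combination h1

theorem Vf_eq {i j : Idx} {Y : E3} (hi : Y ∈ MS i) (hj : Y ∈ MS j) : Vf i Y = Vf j Y := by
  rw [← val_pt i Y hi.2, ← val_pt j Y hj.2]
  exact le_antisymm (hi.1 _) (hj.1 _)

theorem G_dist {i j : Idx} {Y : E3} (hi : Y ∈ MS i) (hj : Y ∈ MS j) (hne : i ≠ j) :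
    ‖G i Y - G j Y‖ ^ 2 = 2 := by
  have h1 := unit_dist hi hj hne
  have h2 := Vf_eq hi hj
  unfold Vf at h2
  unfold G
  rw [nsq] at h1 ⊢
  rw [nsq, inn, inn] at h2
  simp only [PiLp.sub_apply, PiLp.add_apply, PiLp.smul_apply, smul_eq_mul] at *
  linear_combination h1 + 4 * (aa i - aa j) * h2

theorem G_inner {i j l : Idx} {Y : E3} (hi : Y ∈ MS i) (hj : Y ∈ MS j) (hl : Y ∈ MS l)
    (hij : i ≠ j) (hil : i ≠ l) (hjl : j ≠ l) :
    inner ℝ (G j Y - G i Y) (G l Y - G i Y) = 1 := by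
  have h1 := G_dist hi hj hij
  have h2 := G_dist hi hl hil
  have h3 := G_dist hj hl hjl
  rw [nsq] at h1 h2 h3
  rw [inn]
  simp only [PiLp.sub_apply] at *
  linear_combination (1 / 2) * h1 + (1 / 2) * h2 - (1 / 2) * h3

end Pool.Agent.J6H64.KU
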