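import Mathlib

/-!
# The parameters of the cluster: the 45 functions on the cone and their minima
-/

set_option autoImplicit false
set_option maxHeartbeats 4000000

open Set

namespace Pool.Agent.J6H64.KU

/-- The types: `0 = E`, `1 = F`, `2 = M`, `3 = U`, `4 = T`. -/
noncomputable def cA : Fin 5 → ℝ :=
  ![173 / 165, 173 / 165 - 55 / 338, 173 / 165 + 39 / 71, 173 / 165 + 91 / 54, 0]
noncomputable def cB : Fin 5 → ℝ := ![1, 1 + 55 / 338, 240 / 71, 337 / 84, 0]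
noncomputable def cC : Fin 5 → ℝ := ![0, 0, 0, -(1021 / 756), 52 / 165]
def cN : Fin 5 → ℤ := ![5, 3, 1, 1, 0]

@[simp] theorem cA0 : cA 0 = 173 / 165 := rfl
@[simp] theorem cA1 : cA 1 = 173 / 165 - 55 / 338 := rfl
@[simp] theorem cA2 : cA 2 = 173 / 165 + 39 / 71 := rfl
@[simp] theorem cA3 : cA 3 = 173 / 165 + 91 / 54 := rfl
@[simp] theorem cA4 : cA 4 = 0 := rfl
@[simp] theorem cB0 : cB 0 = 1 := rfl
@[simp] theorem cB1 : cB 1 = 1 + 55 / 338 := rfl
@[simp] theorem cB2 : cB 2 = 240 / 71 := rfl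
@[simp] theorem cB3 : cB 3 = 337 / 84 := rfl
@[simp] theorem cB4 : cB 4 = 0 := rfl
@[simp] theorem cC0 : cC 0 = 0 := rfl
@[simp] theorem cC1 : cC 1 = 0 := rfl
@[simp] theorem cC2 : cC 2 = 0 := rfl
@[simp] theorem cC3 : cC 3 = -(1021 / 756) := rfl
@[simp] theorem cC4 : cC 4 = 52 / 165 := rfl
@[simp] theorem cN0 : cN 0 = 5 := rfl
@[simp] theorem cN1 : cN 1 = 3 := rfl
@[simp] theorem cN2 : cN 2 = 1 := rfl
@[simp] theorem cN3 : cN 3 = 1 := rfl
@[simp] theorem cN4 : cN 4 = 0 := rfl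

/-- The indices of the functions. -/
def Up : Type := {q : Fin 5 × (Fin 3 → ℤ) // ∑ j, q.2 j ^ 2 = cN q.1}

/-- the type -/
def Up.t (q : Up) : Fin 5 := q.1.1
/-- the vector -/
def Up.p (q : Up) : Fin 3 → ℤ := q.1.2

theorem Up.ok (q : Up) : q.p 0 ^ 2 + q.p 1 ^ 2 + q.p 2 ^ 2 = cN q.t := by
  have := q.2
  rw [Fin.sum_univ_three] at this
  exact this

theorem Up.ext' {q q' : Up} (h : q.t = q'.t) (h' : q.p = q'.p) : q = q' :=
  Subtype.ext (Prod.ext h h')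

theorem cN_le (t : Fin 5) : cN t ≤ 5 := by fin_cases t <;> decide

theorem Up.p_mem (q : Up) (j : Fin 3) : q.p j ∈ Finset.Icc (-2 : ℤ) 2 := by
  have h1 := q.ok
  have h2 := cN_le q.t
  have h3 : q.p j ^ 2 ≤ 5 := by
    fin_cases j
    · show q.p 0 ^ 2 ≤ 5
      nlinarith [sq_nonneg (q.p 1), sq_nonneg (q.p 2)]
    · show q.p 1 ^ 2 ≤ 5
      nlinarith [sq_nonneg (q.p 0), sq_nonneg (q.p 2)]
    · show q.p 2 ^ 2 ≤ 5
      nlinarith [sq_nonneg (q.p 1), sq_nonneg (q.p 0)]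
  rw [Finset.mem_Icc]
  constructor <;> nlinarith

instance : Finite Up := by
  have : Function.Injective (fun q : Up => ((q.t, fun j => (⟨q.p j, q.p_mem j⟩ :
      {x : ℤ // x ∈ Finset.Icc (-2 : ℤ) 2})) : Fin 5 × (Fin 3 → {x : ℤ // x ∈ Finset.Icc (-2 : ℤ) 2}))) := by
    intro q q' h
    simp only [Prod.mk.injEq] at h
    refine Up.ext' h.1 ?_
    funext j
    have := congrFun h.2 j
    exact congrArg Subtype.val this
  exact Finite.of_injective _ this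

noncomputable instance : Fintype Up := Fintype.ofFinite _
noncomputable instance : DecidableEq Up := Classical.decEq _

/-- build an index from explicit data -/
def mk (t : Fin 5) (a b c : ℤ) (h : a ^ 2 + b ^ 2 + c ^ 2 = cN t) : Up :=
  ⟨(t, ![a, b, c]), by rw [Fin.sum_univ_three]; exact h⟩

@[simp] theorem mk_t (t : Fin 5) (a b c : ℤ) (h) : (mk t a b c h).t = t := rfl
@[simp] theorem mk_p (t : Fin 5) (a b c : ℤ) (h) : (mk t a b c h).p = ![a, b, c] := rfl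

/-- Points of the cone. -/
abbrev Pt := ℝ × (Fin 3 → ℝ) × ℝ

/-- The functions `V_q` (on the half space `w ≥ 0`). -/
noncomputable def val (q : Up) (P : Pt) : ℝ :=
  cA q.t * P.1 - cB q.t * ∑ j, (q.p j : ℝ) * P.2.1 j + cC q.t * P.2.2

/-- The part `w ≥ 0` of the light cone. -/
def Cone (P : Pt) : Prop := 0 < P.1 ∧ 0 ≤ P.2.2 ∧ P.1 ^ 2 = 3 * ∑ j, P.2.1 j ^ 2 + P.2.2 ^ 2

/-- `q` is minimal at `P`. -/
def Mn (q : Up) (P : Pt) : Prop := ∀ q', val q P ≤ val q' P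

/-- `q` is strictly minimal at `P`. -/
def Sm (q : Up) (P : Pt) : Prop := ∀ q', q' ≠ q → val q P < val q' P

theorem Sm.mn {q : Up} {P : Pt} (h : Sm q P) : Mn q P := by
  intro q'
  by_cases hq : q' = q
  · rw [hq]
  · exact (h q' hq).le

theorem exists_mn (P : Pt) : ∃ q, Mn q P := by
  haveI : Nonempty Up := ⟨mk 4 0 0 0 rfl⟩
  exact Finite.exists_min (fun q => val q P)

/-- The products `p · p'` of adjacent indices; `100` if the types cannot be adjacent. -/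
def cD : Fin 5 → Fin 5 → ℤ :=
  ![![4, 3, 2, 2, 0], ![3, 100, 100, 100, 0], ![2, 100, 100, 1, 100], ![2, 100, 1, 100, 0],
    ![0, 0, 100, 0, 100]]

/-- Adjacent indices. -/
def Adj (q q' : Up) : Prop := q.p 0 * q'.p 0 + q.p 1 * q'.p 1 + q.p 2 * q'.p 2 = cD q.t q'.t

theorem cD_comm (t t' : Fin 5) : cD t t' = cD t' t := by
  fin_cases t <;> fin_cases t' <;> rfl

theorem Adj.symm {q q' : Up} (h : Adj q q') : Adj q' q := by
  unfold Adj at *
  rw [cD_comm, ← h]; ring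

theorem Adj.ne100 {q q' : Up} (h : Adj q q') : cD q.t q'.t ≠ 100 := by
  intro h2
  unfold Adj at h
  rw [h2] at h
  have h3 := q.ok
  have h4 := q'.ok
  have h5 := cN_le q.t
  have h6 := cN_le q'.t
  nlinarith [sq_nonneg (q.p 0 - q'.p 0), sq_nonneg (q.p 1 - q'.p 1), sq_nonneg (q.p 2 - q'.p 2)]

/-- The unit distance of adjacent indices. -/
theorem Adj.dist {q q' : Up} (h : Adj q q') :
    ∑ j, (cB q.t * q.p j - cB q'.t * q'.p j) ^ 2 - 3 * (cA q.t - cA q'.t) ^ 2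
      + 3 * (cC q.t - cC q'.t) ^ 2 = 2 := by
  have h0 := h.ne100
  have h1 : ((q.p 0 : ℝ)) * q'.p 0 + q.p 1 * q'.p 1 + q.p 2 * q'.p 2 = cD q.t q'.t := by
    exact_mod_cast h
  have h2 : ((q.p 0 : ℝ)) ^ 2 + (q.p 1 : ℝ) ^ 2 + (q.p 2 : ℝ) ^ 2 = cN q.t := by
    exact_mod_cast q.ok
  have h3 : ((q'.p 0 : ℝ)) ^ 2 + (q'.p 1 : ℝ) ^ 2 + (q'.p 2 : ℝ) ^ 2 = cN q'.t := by
    exact_mod_cast q'.ok
  have e : ∑ j, (cB q.t * q.p j - cB q'.t * q'.p j) ^ 2 =
      cB q.t ^ 2 * cN q.t - 2 * cB q.t * cB q'.t * cD q.t q'.t + cB q'.t ^ 2 * cN q'.t := by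
    rw [Fin.sum_univ_three, ← h1, ← h2, ← h3]; ring
  rw [e]
  generalize q.t = t at *
  generalize q'.t = t' at *
  fin_cases t <;> fin_cases t' <;> first
    | (exact absurd rfl h0)
    | (simp [cA, cB, cC, cN, cD]; norm_num)

end Pool.Agent.J6H64.KU
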