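import Pool.Agent.J6H64.KU.Sym

set_option autoImplicit false
set_option maxHeartbeats 4000000

open Set Filter Topology

namespace Pool.Agent.J6H64.KU

theorem val_cont (q : Up) : Continuous (val q) := by
  unfold val
  fun_prop

/-- the exit lemma -/
theorem exit_lemma {q : Up} {γ : ℝ → Pt} (hc : Continuous γ) (hcone : ∀ t ∈ Icc (0 : ℝ) 1, Cone (γ t))
    (h1 : Sm q (γ 1)) (hadj : ∀ k, k ≠ q → Adj q k → ∀ t ∈ Icc (0 : ℝ) 1,
      val q (γ t) < val k (γ t)) : ∀ t ∈ Icc (0 : ℝ) 1, Sm q (γ t) := by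
  by_contra hcon
  push Not at hcon
  obtain ⟨t0, ht0, hst0⟩ := hcon
  set B : Set ℝ := Icc (0 : ℝ) 1 ∩ ⋃ k : {k : Up // k ≠ q}, {t | val k.1 (γ t) ≤ val q (γ t)} with hB
  have hBc : IsCompact B := by
    refine isCompact_Icc.inter_right ?_
    exact isClosed_iUnion_of_finite fun k =>
      isClosed_le ((val_cont _).comp hc) ((val_cont _).comp hc)
  have hmemB : ∀ t, t ∈ B ↔ t ∈ Icc (0 : ℝ) 1 ∧ ¬ Sm q (γ t) := by
    intro t
    rw [hB, mem_inter_iff, mem_iUnion]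
    refine and_congr Iff.rfl ?_
    unfold Sm
    push Not
    constructor
    · rintro ⟨k, hk⟩; exact ⟨k.1, k.2, hk⟩
    · rintro ⟨k, hk, hk'⟩; exact ⟨⟨k, hk⟩, hk'⟩
  obtain ⟨m, hm, hmax⟩ := hBc.exists_isGreatest ⟨t0, (hmemB _).2 ⟨ht0, hst0⟩⟩
  rw [hmemB] at hm
  have hm1 : m < 1 := by
    refine lt_of_le_of_ne hm.1.2 ?_
    rintro rfl
    exact hm.2 h1
  have hgt : ∀ t, m < t → t ≤ 1 → Sm q (γ t) := by
    intro t h2 h3
    by_contra h4
    exact absurd (hmax ((hmemB t).2 ⟨⟨hm.1.1.trans h2.le, h3⟩, h4⟩)) (not_le.2 h2)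
  have hmn : Mn q (γ m) := by
    intro k
    by_cases hk : k = q
    · rw [hk]
    · have hc1 : Tendsto (fun t => val k (γ t) - val q (γ t)) (𝓝[>] m)
          (𝓝 (val k (γ m) - val q (γ m))) := by
        have : Continuous (fun t => val k (γ t) - val q (γ t)) :=
          ((val_cont _).comp hc).sub ((val_cont _).comp hc)
        exact (this.tendsto m).mono_left nhdsWithin_le_nhds
      have : 0 ≤ val k (γ m) - val q (γ m) := by
        refine ge_of_tendsto hc1 ?_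
        filter_upwards [Ioo_mem_nhdsGT hm1] with t ht
        have := hgt t ht.1 ht.2.le k hk
        linarith
      linarith
  have hns := hm.2
  unfold Sm at hns
  push Not at hns
  obtain ⟨k, hk, hle⟩ := hns
  have hmk : Mn k (γ m) := fun k' => hle.trans (hmn k')
  have := hadj k hk (adj_of_mn (hcone m hm.1) hmn hmk (Ne.symm hk)) m hm.1
  linarith

/-- the cell of `q` is star shaped (in a generalised sense) about `N` -/
def Star (q : Up) (N : Pt) : Prop := ∀ P, Cone P → Sm q P → ∃ γ : ℝ → Pt, Continuous γ ∧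
  (∀ t ∈ Icc (0 : ℝ) 1, Cone (γ t) ∧ Sm q (γ t)) ∧ γ 1 = P ∧ ∃ α : ℝ, 0 < α ∧ γ 0 = α • N

/-- transfer by a signed permutation -/
theorem Star.act {q : Up} {N : Pt} (g : SP) (h : Star (g.actU q) (g.actP N)) : Star q N := by
  intro P hP hs
  obtain ⟨γ, h1, h2, h3, α, h4, h5⟩ := h (g.actP P) (g.cone_act hP) (g.sm_act hs)
  refine ⟨fun t => g.inv.actP (γ t), ?_, ?_, ?_, α, h4, ?_⟩
  · unfold SP.actP SP.actR
    have e1 : Continuous fun t => (γ t).1 := continuous_fst.comp h1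
    have e2 : Continuous fun t => (γ t).2.1 := continuous_fst.comp (continuous_snd.comp h1)
    have e3 : Continuous fun t => (γ t).2.2 := continuous_snd.comp (continuous_snd.comp h1)
    refine e1.prodMk (Continuous.prodMk ?_ e3)
    exact continuous_pi fun j => continuous_const.mul ((continuous_apply _).comp e2)
  · intro t ht
    obtain ⟨e1, e2⟩ := h2 t ht
    refine ⟨g.inv.cone_act e1, ?_⟩
    have := g.inv.sm_act e2
    rw [g.inv_actU] at this
    exact this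
  · show g.inv.actP (γ 1) = P
    rw [h3, g.inv_actP]
  · show g.inv.actP (γ 0) = α • N
    rw [h5]
    have : g.inv.actP (α • g.actP N) = α • g.inv.actP (g.actP N) := by
      unfold SP.actP SP.actR
      ext
      · simp
      · simp; ring
      · simp
    rw [this, g.inv_actP]

/-- the star lemma -/
theorem star_lemma {q : Up} {SN wN : ℝ} {n : Fin 3 → ℝ} (hSN : 0 < SN) (hwN : 0 ≤ wN)
    (hN : SN ^ 2 = 3 * (n 0 ^ 2 + n 1 ^ 2 + n 2 ^ 2) + wN ^ 2)
    (hpos : ∀ k, k ≠ q → Adj q k → 0 < val k (SN, n, wN) - val q (SN, n, wN))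
    (h : ∀ S x w, Cone (S, x, w) → Sm q (S, x, w) →
      0 < S * SN + 3 * (x 0 * n 0 + x 1 * n 1 + x 2 * n 2) + w * wN ∧
      ∀ k, k ≠ q → Adj q k →
        (S * SN - 3 * (x 0 * n 0 + x 1 * n 1 + x 2 * n 2) - w * wN) *
          (val k (SN, -n, -wN) - val q (SN, -n, -wN)) ≤
        (S * SN + 3 * (x 0 * n 0 + x 1 * n 1 + x 2 * n 2) + w * wN) *
          (val k (SN, n, wN) - val q (SN, n, wN))) :
    Star q (SN, n, wN) := by
  rintro ⟨S, x, w⟩ hP hs
  obtain ⟨hα, hk⟩ := h S x w hP hs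
  set d := x 0 * n 0 + x 1 * n 1 + x 2 * n 2 with hd
  set α := (S * SN + 3 * d + w * wN) / (2 * SN ^ 2) with hα'
  set β := (S * SN - 3 * d - w * wN) / (2 * SN ^ 2) with hβ'
  have hαp : 0 < α := by positivity
  obtain ⟨hS0, hw0, hq⟩ := hP
  simp only at hS0 hw0 hq
  rw [Fin.sum_univ_three] at hq
  have hβp : 0 ≤ β := by
    refine div_nonneg ?_ (by positivity)
    have e1 : (3 * d + w * wN) ^ 2 ≤ (S * SN) ^ 2 := by
      rw [mul_pow, hq, hN, hd]
      nlinarith [sq_nonneg (x 0 * n 1 - x 1 * n 0), sq_nonneg (x 0 * n 2 - x 2 * n 0),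
        sq_nonneg (x 1 * n 2 - x 2 * n 1), sq_nonneg (x 0 * wN - w * n 0),
        sq_nonneg (x 1 * wN - w * n 1), sq_nonneg (x 2 * wN - w * n 2)]
    have e2 := abs_le_of_sq_le_sq e1 (by positivity)
    have := (abs_le.1 e2).2
    linarith
  have hS : S = (α + β) * SN := by
    rw [hα', hβ']; field_simp; ring
  have hB1 : S * SN + 3 * d + w * wN = α * (2 * SN ^ 2) := by
    rw [hα']; field_simp
  have hB2 : S * SN - 3 * d - w * wN = β * (2 * SN ^ 2) := by
    rw [hβ']; field_simp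
  set γ : ℝ → Pt := fun t => (t * S + (1 - t) * (α - t * β) * SN,
    fun j => t * x j + (1 - t) * (α + t * β) * n j, t * w + (1 - t) * (α + t * β) * wN) with hγ
  have hval : ∀ k t, val k (γ t) = t * val k (S, x, w) + (1 - t) * (α * val k (SN, n, wN) -
      t * β * val k (SN, -n, -wN)) := by
    intro k t
    simp only [hγ, val, Fin.sum_univ_three, Pi.neg_apply]
    ring
  have hγc : Continuous γ := by
    simp only [hγ]
    fun_prop
  have hcone : ∀ t ∈ Icc (0 : ℝ) 1, Cone (γ t) := by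
    rintro t ⟨ht0, ht1⟩
    refine ⟨?_, ?_, ?_⟩
    · show 0 < t * S + (1 - t) * (α - t * β) * SN
      have : t * S + (1 - t) * (α - t * β) * SN = (α + t ^ 2 * β) * SN := by
        rw [hS]; ring
      rw [this]; positivity
    · show 0 ≤ t * w + (1 - t) * (α + t * β) * wN
      have : 0 ≤ 1 - t := by linarith
      positivity
    · simp only [hγ, Fin.sum_univ_three]
      have e1 : 3 * d + w * wN = (α - β) * SN ^ 2 := by linarith
      have e2 : S * SN = (α + β) * SN ^ 2 := by linarith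
      have key : (t * S + (1 - t) * (α - t * β) * SN) ^ 2 =
          t ^ 2 * S ^ 2 + 2 * t * (1 - t) * (α - t * β) * (S * SN) +
            (1 - t) ^ 2 * (α - t * β) ^ 2 * SN ^ 2 := by ring
      have key2 : 3 * ((t * x 0 + (1 - t) * (α + t * β) * n 0) ^ 2 +
          (t * x 1 + (1 - t) * (α + t * β) * n 1) ^ 2 +
          (t * x 2 + (1 - t) * (α + t * β) * n 2) ^ 2) + (t * w + (1 - t) * (α + t * β) * wN) ^ 2 =
          t ^ 2 * (3 * (x 0 ^ 2 + x 1 ^ 2 + x 2 ^ 2) + w ^ 2) +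
            2 * t * (1 - t) * (α + t * β) * (3 * d + w * wN) +
            (1 - t) ^ 2 * (α + t * β) ^ 2 * (3 * (n 0 ^ 2 + n 1 ^ 2 + n 2 ^ 2) + wN ^ 2) := by
        rw [hd]; ring
      rw [key, key2, ← hq, ← hN, e1, e2]
      ring
  have hγ1 : γ 1 = (S, x, w) := by simp [hγ]
  refine ⟨γ, hγc, ?_, hγ1, α, hαp, ?_⟩
  · intro t ht
    refine ⟨hcone t ht, ?_⟩
    refine exit_lemma hγc hcone (by rw [hγ1]; exact hs) ?_ t ht
    intro k hkq hka t ht
    have hv := hs k hkq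
    have hp := hpos k hkq hka
    have h3 := hk k hkq hka
    rw [hB1, hB2] at h3
    have hSN2 : 0 < 2 * SN ^ 2 := by positivity
    have h4 : β * (val k (SN, -n, -wN) - val q (SN, -n, -wN)) ≤
        α * (val k (SN, n, wN) - val q (SN, n, wN)) := by
      have : (2 * SN ^ 2) * (β * (val k (SN, -n, -wN) - val q (SN, -n, -wN))) ≤
        (2 * SN ^ 2) * (α * (val k (SN, n, wN) - val q (SN, n, wN))) := by linarith
      exact le_of_mul_le_mul_left this hSN2
    rw [hval, hval]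
    obtain ⟨ht0, ht1⟩ := ht
    have h5 : 0 < α * (val k (SN, n, wN) - val q (SN, n, wN)) := mul_pos hαp hp
    have h6 : t * (β * (val k (SN, -n, -wN) - val q (SN, -n, -wN))) ≤
        t * (α * (val k (SN, n, wN) - val q (SN, n, wN))) := mul_le_mul_of_nonneg_left h4 ht0
    rcases ht0.eq_or_lt with h0 | h0
    · rw [← h0]
      linarith
    · have h7 : 0 < t * (val k (S, x, w) - val q (S, x, w)) := mul_pos h0 (by linarith)
      have h8 : 0 ≤ (1 - t) * (α * (val k (SN, n, wN) - val q (SN, n, wN)) -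
          t * (β * (val k (SN, -n, -wN) - val q (SN, -n, -wN)))) := by
        refine mul_nonneg (by linarith) ?_
        nlinarith
      nlinarith
  · simp only [hγ]
    ext
    · simp
    · simp
    · simp

/-- enumeration of the indices -/
theorem up_cases (k : Up) : ∃ x y z : ℤ, k.p 0 = x ∧ k.p 1 = y ∧ k.p 2 = z ∧
    x ^ 2 + y ^ 2 + z ^ 2 = cN k.t ∧ -2 ≤ x ∧ x ≤ 2 ∧ -2 ≤ y ∧ y ≤ 2 ∧ -2 ≤ z ∧ z ≤ 2 := by
  have h0 := Finset.mem_Icc.1 (k.p_mem 0)
  have h1 := Finset.mem_Icc.1 (k.p_mem 1)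
  have h2 := Finset.mem_Icc.1 (k.p_mem 2)
  exact ⟨_, _, _, rfl, rfl, rfl, k.ok, h0.1, h0.2, h1.1, h1.2, h2.1, h2.2⟩

theorem val_eq (k : Up) (S : ℝ) (x : Fin 3 → ℝ) (w : ℝ) : val k (S, x, w) =
    cA k.t * S - cB k.t * (k.p 0 * x 0 + k.p 1 * x 1 + k.p 2 * x 2) + cC k.t * w := by
  simp [val, Fin.sum_univ_three]

theorem s3 : (√3 : ℝ) ^ 2 = 3 := Real.sq_sqrt (by norm_num)
theorem s3l : (1.7320 : ℝ) < √3 := by
  rw [Real.lt_sqrt (by norm_num)]; norm_num
theorem s3u : √3 < (1.7321 : ℝ) := by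
  rw [Real.sqrt_lt' (by norm_num)]; norm_num

theorem valE (S : ℝ) (x : Fin 3 → ℝ) (w : ℝ) : val iE (S, x, w) =
    173 / 165 * S - (2 * x 0 + x 1) := by
  rw [val_eq]
  have h1 : iE.t = 0 := rfl
  have h2 : iE.p = ![2, 1, 0] := rfl
  rw [h1, h2]; simp

theorem valF (S : ℝ) (x : Fin 3 → ℝ) (w : ℝ) : val iF (S, x, w) =
    (173 / 165 - 55 / 338) * S - (1 + 55 / 338) * (x 0 + x 1 + x 2) := by
  rw [val_eq]
  have h1 : iF.t = 1 := rfl
  have h2 : iF.p = ![1, 1, 1] := rfl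
  rw [h1, h2]; simp

theorem valM (S : ℝ) (x : Fin 3 → ℝ) (w : ℝ) : val iM (S, x, w) =
    (173 / 165 + 39 / 71) * S - 240 / 71 * x 0 := by
  rw [val_eq]
  have h1 : iM.t = 2 := rfl
  have h2 : iM.p = ![1, 0, 0] := rfl
  rw [h1, h2]; simp

theorem valU (S : ℝ) (x : Fin 3 → ℝ) (w : ℝ) : val iU (S, x, w) =
    (173 / 165 + 91 / 54) * S - 337 / 84 * x 0 - 1021 / 756 * w := by
  rw [val_eq]
  have h1 : iU.t = 3 := rfl
  have h2 : iU.p = ![1, 0, 0] := rfl
  rw [h1, h2]; simp; ring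

theorem valT (S : ℝ) (x : Fin 3 → ℝ) (w : ℝ) : val iT (S, x, w) = 52 / 165 * w := by
  rw [val_eq]
  have h1 : iT.t = 4 := rfl
  have h2 : iT.p = ![0, 0, 0] := rfl
  rw [h1, h2]; simp

end Pool.Agent.J6H64.KU
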