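import Pool.Agent.J6H64.KU.Cham

set_option autoImplicit false
set_option maxHeartbeats 4000000

namespace Pool.Agent.J6H64.KU

/-- signed permutations -/
structure SP where
  e : Equiv.Perm (Fin 3)
  s : Fin 3 → ℤ
  hs : ∀ j, s j ^ 2 = 1

namespace SP

variable (g : SP)

theorem hsR (j : Fin 3) : (g.s j : ℝ) ^ 2 = 1 := by exact_mod_cast g.hs j

def actZ (p : Fin 3 → ℤ) : Fin 3 → ℤ := fun j => g.s j * p (g.e j)
noncomputable def actR (x : Fin 3 → ℝ) : Fin 3 → ℝ := fun j => g.s j * x (g.e j)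
noncomputable def actP (P : Pt) : Pt := (P.1, g.actR P.2.1, P.2.2)

theorem sumsqZ (p : Fin 3 → ℤ) : ∑ j, g.actZ p j ^ 2 = ∑ j, p j ^ 2 := by
  have : ∀ j, g.actZ p j ^ 2 = p (g.e j) ^ 2 := by
    intro j; unfold actZ; rw [mul_pow, g.hs, one_mul]
  simp_rw [this]
  exact Equiv.sum_comp g.e (fun j => p j ^ 2)

theorem sumsqR (p : Fin 3 → ℝ) : ∑ j, g.actR p j ^ 2 = ∑ j, p j ^ 2 := by
  have : ∀ j, g.actR p j ^ 2 = p (g.e j) ^ 2 := by
    intro j; unfold actR; rw [mul_pow, g.hsR, one_mul]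
  simp_rw [this]
  exact Equiv.sum_comp g.e (fun j => p j ^ 2)

theorem sumZZ (p p' : Fin 3 → ℤ) : ∑ j, g.actZ p j * g.actZ p' j = ∑ j, p j * p' j := by
  have : ∀ j, g.actZ p j * g.actZ p' j = p (g.e j) * p' (g.e j) := by
    intro j; unfold actZ
    have := g.hs j
    calc _ = g.s j ^ 2 * (p (g.e j) * p' (g.e j)) := by ring
      _ = _ := by rw [this, one_mul]
  simp_rw [this]
  exact Equiv.sum_comp g.e (fun j => p j * p' j)

theorem sumZR (p : Fin 3 → ℤ) (x : Fin 3 → ℝ) :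
    ∑ j, (g.actZ p j : ℝ) * g.actR x j = ∑ j, (p j : ℝ) * x j := by
  have : ∀ j, (g.actZ p j : ℝ) * g.actR x j = (p (g.e j) : ℝ) * x (g.e j) := by
    intro j; unfold actZ actR
    have := g.hsR j
    push_cast
    calc _ = (g.s j : ℝ) ^ 2 * ((p (g.e j) : ℝ) * x (g.e j)) := by ring
      _ = _ := by rw [this, one_mul]
  simp_rw [this]
  exact Equiv.sum_comp g.e (fun j => (p j : ℝ) * x j)

def actU (q : Up) : Up := ⟨(q.t, g.actZ q.p), by rw [g.sumsqZ]; exact q.2⟩

@[simp] theorem actU_t (q : Up) : (g.actU q).t = q.t := rfl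
@[simp] theorem actU_p (q : Up) : (g.actU q).p = g.actZ q.p := rfl

/-- the inverse -/
def inv : SP := ⟨g.e.symm, fun j => g.s (g.e.symm j), fun j => g.hs _⟩

theorem inv_actR (x : Fin 3 → ℝ) : g.inv.actR (g.actR x) = x := by
  funext j
  unfold inv actR
  simp only [Equiv.apply_symm_apply]
  have := g.hsR (g.e.symm j)
  rw [← mul_assoc, ← sq, this, one_mul]

theorem actR_inv (x : Fin 3 → ℝ) : g.actR (g.inv.actR x) = x := by
  funext j
  unfold inv actR
  simp only [Equiv.symm_apply_apply]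
  have := g.hsR j
  rw [← mul_assoc, ← sq, this, one_mul]

theorem inv_actZ (x : Fin 3 → ℤ) : g.inv.actZ (g.actZ x) = x := by
  funext j
  unfold inv actZ
  simp only [Equiv.apply_symm_apply]
  have := g.hs (g.e.symm j)
  rw [← mul_assoc, ← sq, this, one_mul]

theorem actZ_inv (x : Fin 3 → ℤ) : g.actZ (g.inv.actZ x) = x := by
  funext j
  unfold inv actZ
  simp only [Equiv.symm_apply_apply]
  have := g.hs j
  rw [← mul_assoc, ← sq, this, one_mul]

theorem inv_actP (P : Pt) : g.inv.actP (g.actP P) = P := by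
  unfold actP; simp only [inv_actR]

theorem actP_inv (P : Pt) : g.actP (g.inv.actP P) = P := by
  unfold actP; simp only [actR_inv]

theorem inv_actU (q : Up) : g.inv.actU (g.actU q) = q := Up.ext' rfl (g.inv_actZ q.p)

theorem actU_inv (q : Up) : g.actU (g.inv.actU q) = q := Up.ext' rfl (g.actZ_inv q.p)

theorem val_act (q : Up) (P : Pt) : val (g.actU q) (g.actP P) = val q P := by
  unfold val actP
  simp only [actU_t, actU_p, sumZR]

theorem cone_act {P : Pt} (h : Cone P) : Cone (g.actP P) := by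
  unfold Cone actP at *
  simp only [sumsqR]
  exact h

theorem mn_act {q : Up} {P : Pt} (h : Mn q P) : Mn (g.actU q) (g.actP P) := by
  intro q'
  rw [← g.actU_inv q', g.val_act, g.val_act]
  exact h _

theorem sm_act {q : Up} {P : Pt} (h : Sm q P) : Sm (g.actU q) (g.actP P) := by
  intro q' hq'
  rw [← g.actU_inv q', g.val_act, g.val_act]
  refine h _ fun h2 => hq' ?_
  rw [← h2, g.actU_inv]

theorem adj_act {q q' : Up} (h : Adj (g.actU q) (g.actU q')) : Adj q q' := by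
  unfold Adj at *
  have := g.sumZZ q.p q'.p
  rw [Fin.sum_univ_three, Fin.sum_univ_three] at this
  rw [← this]
  exact h

theorem adj_act' {q q' : Up} (h : Adj q q') : Adj (g.actU q) (g.actU q') := by
  unfold Adj at *
  have := g.sumZZ q.p q'.p
  rw [Fin.sum_univ_three, Fin.sum_univ_three] at this
  rw [← this] at h
  exact h

end SP

/-- sorting -/
theorem exists_sort (x : Fin 3 → ℝ) : ∃ g : SP, g.actR x 1 ≤ g.actR x 0 ∧ g.actR x 2 ≤ g.actR x 1 ∧
    0 ≤ g.actR x 2 := by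
  set y : Fin 3 → ℝ := fun j => -|x j| with hy
  have hm := Tuple.monotone_sort y
  set e := Tuple.sort y with he
  refine ⟨⟨e, fun j => if 0 ≤ x (e j) then 1 else -1, fun j => by split_ifs <;> norm_num⟩, ?_⟩
  have key : ∀ j, (SP.actR ⟨e, fun j => if 0 ≤ x (e j) then 1 else -1,
      fun j => by split_ifs <;> norm_num⟩ x) j = |x (e j)| := by
    intro j
    unfold SP.actR
    simp only
    split_ifs with h
    · rw [abs_of_nonneg h]; simp
    · rw [abs_of_neg (not_le.1 h)]; simp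
  rw [key, key, key]
  have h1 := hm (show (0 : Fin 3) ≤ 1 by decide)
  have h2 := hm (show (1 : Fin 3) ≤ 2 by decide)
  simp only [Function.comp, hy] at h1 h2
  exact ⟨by linarith, by linarith, abs_nonneg _⟩

theorem exists_chamber {P : Pt} (h : Cone P) : ∃ (g : SP) (a b c : ℝ),
    g.actP P = (P.1, ![a, b, c], P.2.2) ∧ SC P.1 a b c P.2.2 := by
  obtain ⟨g, h1, h2, h3⟩ := exists_sort P.2.1
  refine ⟨g, g.actR P.2.1 0, g.actR P.2.1 1, g.actR P.2.1 2, ?_, ?_⟩
  · unfold SP.actP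
    congr 2
    funext j
    fin_cases j <;> rfl
  · refine ⟨h.1, h.2.1, h1, h2, h3, ?_⟩
    have := (g.cone_act h).2.2
    simp only [SP.actP, Fin.sum_univ_three] at this
    exact this

theorem adj_chamber {S a b c w : ℝ} (h : SC S a b c w) {q q' : Up}
    (hq : Mn q (S, ![a, b, c], w)) (hq' : Mn q' (S, ![a, b, c], w)) (hne : q ≠ q') : Adj q q' := by
  have vE := fun (i : Up) (hi : Mn i (S, ![a, b, c], w)) => hi iE
  have vE2 := fun (i : Up) (hi : Mn i (S, ![a, b, c], w)) => hi iE2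
  have vF := fun (i : Up) (hi : Mn i (S, ![a, b, c], w)) => hi iF
  have vM := fun (i : Up) (hi : Mn i (S, ![a, b, c], w)) => hi iM
  have vU := fun (i : Up) (hi : Mn i (S, ![a, b, c], w)) => hi iU
  have vT := fun (i : Up) (hi : Mn i (S, ![a, b, c], w)) => hi iT
  have eE : val iE (S, ![a, b, c], w) = 173 / 165 * S - (2 * a + b) := by
    rw [iE, val_mk]; simp
  have eE1 : val iE1 (S, ![a, b, c], w) = 173 / 165 * S - (a + 2 * b) := by
    rw [iE1, val_mk]; simp
  have eE2 : val iE2 (S, ![a, b, c], w) = 173 / 165 * S - (2 * a + c) := by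
    rw [iE2, val_mk]; simp
  have eF : val iF (S, ![a, b, c], w) =
      (173 / 165 - 55 / 338) * S - (1 + 55 / 338) * (a + b + c) := by
    rw [iF, val_mk]; simp
  have eM : val iM (S, ![a, b, c], w) = (173 / 165 + 39 / 71) * S - 240 / 71 * a := by
    rw [iM, val_mk]; simp
  have eU : val iU (S, ![a, b, c], w) =
      (173 / 165 + 91 / 54) * S - 337 / 84 * a - 1021 / 756 * w := by
    rw [iU, val_mk]; simp; ring
  have eT : val iT (S, ![a, b, c], w) = 52 / 165 * w := by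
    rw [iT, val_mk]; simp
  rw [eE] at vE
  rw [eE2] at vE2
  rw [eF] at vF
  rw [eM] at vM
  rw [eU] at vU
  rw [eT] at vT
  -- the bad pairs
  have b1 : ∀ i j, Mn i (S, ![a, b, c], w) → Mn j (S, ![a, b, c], w) →
      val i (S, ![a, b, c], w) = val j (S, ![a, b, c], w) := fun i j hi hj =>
    le_antisymm (hi j) (hj i)
  have FM : Mn iF (S, ![a, b, c], w) → Mn iM (S, ![a, b, c], w) → False := by
    intro h1 h2
    have := X1 h
    have e1 := vE iF h1
    have e2 := vE2 iM h2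
    rw [eF] at e1
    rw [eM] at e2
    linarith
  have FU : Mn iF (S, ![a, b, c], w) → Mn iU (S, ![a, b, c], w) → False := by
    intro h1 h2
    have := X2 h
    have e1 := vE iF h1
    have e2 := vE2 iU h2
    rw [eF] at e1
    rw [eU] at e2
    linarith
  have MT : Mn iM (S, ![a, b, c], w) → Mn iT (S, ![a, b, c], w) → False := by
    intro h1 h2
    have e1 := b1 _ _ h1 h2
    have e2 := vE iM h1
    have e3 := vU iT h2
    rw [eM, eT] at e1
    rw [eM] at e2
    rw [eT] at e3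
    exact X3 h e1 e2 e3
  have Mab : Mn iM (S, ![a, b, c], w) → b < a := by
    intro h1
    have := vE iM h1
    rw [eM] at this
    exact X6 h this
  have Uab : Mn iU (S, ![a, b, c], w) → b < a := by
    intro h1
    have := vE iU h1
    rw [eU] at this
    exact X6' h this
  have E1c : Mn iE1 (S, ![a, b, c], w) → a = b → c < a := by
    intro h1 h2
    have := vF iE1 h1
    rw [eE1] at this
    refine X4a h ?_
    linarith
  have W : ∀ i j : Up, Adj i j → Adj j i := fun i j => Adj.symm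
  have dd : ∀ i j : Up, (∃ x y z x' y' z' : ℤ, i.p = ![x, y, z] ∧ j.p = ![x', y', z'] ∧
      x * x' + y * y' + z * z' = cD i.t j.t) → Adj i j := by
    rintro i j ⟨x, y, z, x', y', z', h1, h2, h3⟩
    unfold Adj
    rw [h1, h2]
    exact h3
  have aEE1 : Adj iE iE1 := dd _ _ ⟨2, 1, 0, 1, 2, 0, rfl, rfl, rfl⟩
  have aEE2 : Adj iE iE2 := dd _ _ ⟨2, 1, 0, 2, 0, 1, rfl, rfl, rfl⟩
  have aEF : Adj iE iF := dd _ _ ⟨2, 1, 0, 1, 1, 1, rfl, rfl, rfl⟩
  have aEM : Adj iE iM := dd _ _ ⟨2, 1, 0, 1, 0, 0, rfl, rfl, rfl⟩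
  have aEU : Adj iE iU := dd _ _ ⟨2, 1, 0, 1, 0, 0, rfl, rfl, rfl⟩
  have aET : Adj iE iT := dd _ _ ⟨2, 1, 0, 0, 0, 0, rfl, rfl, rfl⟩
  have aE1F : Adj iE1 iF := dd _ _ ⟨1, 2, 0, 1, 1, 1, rfl, rfl, rfl⟩
  have aE1T : Adj iE1 iT := dd _ _ ⟨1, 2, 0, 0, 0, 0, rfl, rfl, rfl⟩
  have aE2F : Adj iE2 iF := dd _ _ ⟨2, 0, 1, 1, 1, 1, rfl, rfl, rfl⟩
  have aE2M : Adj iE2 iM := dd _ _ ⟨2, 0, 1, 1, 0, 0, rfl, rfl, rfl⟩
  have aE2U : Adj iE2 iU := dd _ _ ⟨2, 0, 1, 1, 0, 0, rfl, rfl, rfl⟩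
  have aE2T : Adj iE2 iT := dd _ _ ⟨2, 0, 1, 0, 0, 0, rfl, rfl, rfl⟩
  have aFT : Adj iF iT := dd _ _ ⟨1, 1, 1, 0, 0, 0, rfl, rfl, rfl⟩
  have aMU : Adj iM iU := dd _ _ ⟨1, 0, 0, 1, 0, 0, rfl, rfl, rfl⟩
  have aUT : Adj iU iT := dd _ _ ⟨1, 0, 0, 0, 0, 0, rfl, rfl, rfl⟩
  have hab := h.ab
  have hbc := h.bc
  rcases chamber h q hq with rfl | ⟨rfl, e⟩ | ⟨rfl, e⟩ | rfl | rfl | rfl | rfl <;>
  rcases chamber h q' hq' with rfl | ⟨rfl, e'⟩ | ⟨rfl, e'⟩ | rfl | rfl | rfl | rfl <;>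
  first
  | exact absurd rfl hne
  | assumption
  | (apply W; assumption)
  | (exfalso; exact FM hq hq')
  | (exfalso; exact FM hq' hq)
  | (exfalso; exact FU hq hq')
  | (exfalso; exact FU hq' hq)
  | (exfalso; exact MT hq hq')
  | (exfalso; exact MT hq' hq)
  | (exfalso; have := Mab hq; linarith)
  | (exfalso; have := Mab hq'; linarith)
  | (exfalso; have := Uab hq; linarith)
  | (exfalso; have := Uab hq'; linarith)
  | (exfalso; have := E1c hq e; linarith)
  | (exfalso; have := E1c hq' e'; linarith)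

/-- (G1) -/
theorem adj_of_mn {P : Pt} (hP : Cone P) {q q' : Up} (hq : Mn q P) (hq' : Mn q' P)
    (hne : q ≠ q') : Adj q q' := by
  obtain ⟨g, a, b, c, hg, hs⟩ := exists_chamber hP
  refine g.adj_act (adj_chamber hs (q := g.actU q) (q' := g.actU q') ?_ ?_ ?_)
  · rw [← hg]; exact g.mn_act hq
  · rw [← hg]; exact g.mn_act hq'
  · intro h2
    apply hne
    rw [← g.inv_actU q, h2, g.inv_actU]

/-- (G2) -/
theorem t_le_of_mn {P : Pt} (hP : Cone P) (hw : P.2.2 = 0) {q : Up} (hq : Mn q P) :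
    (q.t : ℕ) ≤ 2 := by
  obtain ⟨g, a, b, c, hg, hs⟩ := exists_chamber hP
  have h1 := g.mn_act hq
  rw [hg] at h1
  have h2 : (g.actU q).t = q.t := rfl
  rw [← h2]
  rcases chamber hs _ h1 with e | ⟨e, _⟩ | ⟨e, _⟩ | e | e | e | e <;> rw [e]
  · decide
  · decide
  · decide
  · decide
  · decide
  · exfalso
    rw [e] at h1
    have h3 := h1 iM
    rw [iU, iM, val_mk, val_mk] at h3
    simp only [cA2, cB2, cC2, cA3, cB3, cC3] at h3
    push_cast at h3
    refine X7' hs hw ?_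
    linarith
  · exfalso
    rw [e] at h1
    have h3 := h1 iM
    have h4 := h1 iF
    rw [iT, iM, val_mk, val_mk] at h3
    rw [iT, iF, val_mk, val_mk] at h4
    simp only [cA1, cB1, cC1, cA2, cB2, cC2, cA4, cB4, cC4] at h3 h4
    push_cast at h3 h4
    rw [hw] at h3 h4
    refine X7 hs hw ?_ ?_
    · linarith
    · linarith

end Pool.Agent.J6H64.KU
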